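import Mathlib

/-! Path properties `P_i` (Faudree–Schelp): definitions, and the lower bound `n ≥ 11`. -/

set_option autoImplicit false
open SimpleGraph

namespace Pool.Agent.X54.PO

variable {V : Type}

/-- property `P_i`: every two distinct vertices are joined by a path with exactly `i` vertices -/
def HasP (G : SimpleGraph V) (i : ℕ) : Prop :=
  ∀ u v : V, u ≠ v → ∃ p : G.Walk u v, p.IsPath ∧ p.support.length = i

/-- the closure of `S`: all `j` in `{2, …, n}` such that every graph of order `n` with `P_i` for all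
`i ∈ S` also has `P_j` -/
def cl (n : ℕ) (S : Set ℕ) : Set ℕ :=
  {j | 2 ≤ j ∧ j ≤ n ∧ ∀ G : SimpleGraph (Fin n), (∀ i ∈ S, HasP G i) → HasP G j}

/-- the set `J(n)` of the indices `j ∈ {3, …, n}` such that for every `S ⊆ {3, …, n}`, `j` lies in
the closure of `S` only if it lies in `S` -/
def J (n : ℕ) : Set ℕ :=
  {j | 3 ≤ j ∧ j ≤ n ∧ ∀ S : Set ℕ, S ⊆ Set.Icc 3 n → j ∈ cl n S → j ∈ S}

lemma mem_J {n j : ℕ} : j ∈ J n ↔ 3 ≤ j ∧ j ≤ n ∧
    ∃ G : SimpleGraph (Fin n), (∀ i, 3 ≤ i → i ≤ n → i ≠ j → HasP G i) ∧ ¬ HasP G j := by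
  constructor
  · rintro ⟨h1, h2, h3⟩
    refine ⟨h1, h2, ?_⟩
    have h4 : j ∉ cl n (Set.Icc 3 n \ {j}) := fun h => (h3 _ Set.sdiff_subset h).2 rfl
    by_contra hcon
    push Not at hcon
    apply h4
    refine ⟨by omega, h2, fun G hG => hcon G fun i hi1 hi2 hi3 => hG i ⟨⟨hi1, hi2⟩, hi3⟩⟩
  · rintro ⟨h1, h2, G, hG1, hG2⟩
    refine ⟨h1, h2, fun S hS hj => ?_⟩
    by_contra hcon
    apply hG2
    refine hj.2.2 G fun i hi => hG1 i (hS hi).1 (hS hi).2 ?_
    rintro rfl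
    exact hcon hi

/-- extraction of a path with three vertices -/
lemma p3 {G : SimpleGraph V} (h : HasP G 3) {x y : V} (hxy : x ≠ y) :
    ∃ w, G.Adj x w ∧ G.Adj w y := by
  obtain ⟨p, -, hp⟩ := h x y hxy
  rw [Walk.length_support] at hp
  have h1 := p.adj_getVert_succ (i := 0) (by omega)
  have h2 := p.adj_getVert_succ (i := 1) (by omega)
  rw [Walk.getVert_zero] at h1
  have h3 : p.getVert (1 + 1) = y := by
    have : (1 + 1) = p.length := by omega
    rw [this, Walk.getVert_length]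
  rw [h3] at h2
  exact ⟨_, h1, h2⟩

lemma p4 {G : SimpleGraph V} (h : HasP G 4) {x y : V} (hxy : x ≠ y) :
    ∃ a c, G.Adj x a ∧ G.Adj a c ∧ G.Adj c y ∧ a ≠ y ∧ x ≠ c := by
  obtain ⟨p, hp0, hp⟩ := h x y hxy
  rw [Walk.length_support] at hp
  have h1 := p.adj_getVert_succ (i := 0) (by omega)
  have h2 := p.adj_getVert_succ (i := 1) (by omega)
  have h3 := p.adj_getVert_succ (i := 2) (by omega)
  have h4 : p.getVert (2 + 1) = y := by
    have : (2 + 1) = p.length := by omega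
    rw [this, Walk.getVert_length]
  have hinj := hp0.getVert_injOn
  refine ⟨p.getVert 1, p.getVert 2, ?_, h2, ?_, ?_, ?_⟩
  · rw [Walk.getVert_zero] at h1
    exact h1
  · rw [h4] at h3
    exact h3
  · intro h5
    have m1 : (1 : ℕ) ∈ {i | i ≤ p.length} := by change 1 ≤ p.length; omega
    have m3 : (3 : ℕ) ∈ {i | i ≤ p.length} := by change 3 ≤ p.length; omega
    have := hinj m1 m3 (h5.trans h4.symm)
    omega
  · intro h5
    have m1 : (0 : ℕ) ∈ {i | i ≤ p.length} := by change 0 ≤ p.length; omega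
    have m3 : (2 : ℕ) ∈ {i | i ≤ p.length} := by change 2 ≤ p.length; omega
    have := hinj m1 m3 (by rw [Walk.getVert_zero]; exact h5)
    omega

/-- construction of a path with five vertices -/
lemma mk5 {G : SimpleGraph V} {u a x c v : V} (h1 : G.Adj u a) (h2 : G.Adj a x) (h3 : G.Adj x c)
    (h4 : G.Adj c v) (h5 : u ≠ x) (h6 : u ≠ c) (h7 : u ≠ v) (h8 : a ≠ c) (h9 : a ≠ v)
    (h10 : x ≠ v) : ∃ p : G.Walk u v, p.IsPath ∧ p.support.length = 5 := by
  refine ⟨Walk.cons h1 (Walk.cons h2 (Walk.cons h3 (Walk.cons h4 Walk.nil))), ?_, by simp⟩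
  rw [Walk.isPath_def]
  simp [h5, h6, h7, h8, h9, h10, h1.ne, h2.ne, h3.ne, h4.ne]

lemma cross {Q : ℕ → Prop} {a b : ℕ} (hab : a ≤ b) (ha : Q a) (hb : ¬ Q b) :
    ∃ i, a ≤ i ∧ i < b ∧ Q i ∧ ¬ Q (i + 1) := by
  by_contra hcon
  push Not at hcon
  have : ∀ k, a + k ≤ b → Q (a + k) := by
    intro k
    induction k with
    | zero => intro _; exact ha
    | succ k ih =>
      intro hk
      exact hcon (a + k) (by omega) (by omega) (ih (by omega))
  have h1 := this (b - a) (by omega)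
  rw [show a + (b - a) = b by omega] at h1
  exact hb h1

section Core

variable [Fintype V] {G : SimpleGraph V}

/-- a Hamiltonian path as a sequence -/
lemma ham (h : HasP G (Fintype.card V)) {x y : V} (hxy : x ≠ y) :
    ∃ g : ℕ → V, g 0 = x ∧ g (Fintype.card V - 1) = y ∧
      (∀ i, i < Fintype.card V - 1 → G.Adj (g i) (g (i + 1))) ∧
      (∀ i j, i ≤ Fintype.card V - 1 → j ≤ Fintype.card V - 1 → g i = g j → i = j) ∧
      ∀ z, ∃ i, i ≤ Fintype.card V - 1 ∧ g i = z := by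
  classical
  obtain ⟨p, hp0, hp⟩ := h x y hxy
  have hlen : p.length = Fintype.card V - 1 := by
    rw [Walk.length_support] at hp
    omega
  refine ⟨p.getVert, Walk.getVert_zero p, by rw [← hlen, Walk.getVert_length], ?_, ?_, ?_⟩
  · intro i hi
    exact p.adj_getVert_succ (by omega)
  · intro i j hi hj hij
    exact hp0.getVert_injOn (by simp; omega) (by simp; omega) hij
  · intro z
    have hz : z ∈ p.support := by
      have h1 : p.support.toFinset.card = Fintype.card V := by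
        rw [List.toFinset_card_of_nodup hp0.support_nodup, hp]
      have h2 := Finset.eq_univ_of_card _ h1
      rw [← List.mem_toFinset, h2]
      exact Finset.mem_univ z
    obtain ⟨i, hi1, hi2⟩ := Walk.mem_support_iff_exists_getVert.1 hz
    exact ⟨i, by omega, hi1⟩

lemma core (hn : 5 ≤ Fintype.card V) (h3 : HasP G 3) (h4 : HasP G 4)
    (hH : HasP G (Fintype.card V)) {u v : V} (huv : u ≠ v)
    (h5 : ∀ a x c, G.Adj u a → G.Adj a x → G.Adj x c → G.Adj c v → a ≠ v → c ≠ u → x ≠ u →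
      x ≠ v → a = c)
    (hAC : ∀ a, G.Adj u a → a ≠ v → G.Adj v a) : 11 ≤ Fintype.card V := by
  classical
  -- the unique neighbour in `C`
  have F1 : ∀ x a c, x ≠ u → x ≠ v → G.Adj u a → a ≠ v → G.Adj x a → G.Adj v c → c ≠ u →
      G.Adj x c → c = a := by
    intro x a c h1 h2 h3 h4 h6 h7 h8 h9
    exact (h5 a x c h3 h6.symm h9 h7.symm h4 h8 h1 h2).symm
  let R : V → Prop := fun r => r ≠ u ∧ r ≠ v ∧ ¬ G.Adj v r
  have hRu : ∀ r, R r → ¬ G.Adj u r := fun r hr h => hr.2.2 (hAC r h hr.2.1)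
  -- `R` is nonempty
  obtain ⟨r₀, hr₀⟩ : ∃ r, R r := by
    by_contra hcon
    push Not at hcon
    have hC : ∀ x, x ≠ u → x ≠ v → G.Adj v x := by
      intro x h1 h2
      by_contra h3
      exact hcon x ⟨h1, h2, h3⟩
    obtain ⟨g, hg0, hg1, hg2, hg3, -⟩ := ham hH huv
    have e0 := hg2 0 (by omega)
    have e1 := hg2 1 (by omega)
    have e2 := hg2 2 (by omega)
    have nu : ∀ i, 1 ≤ i → i ≤ Fintype.card V - 1 → g i ≠ u := by
      intro i h1 h2 h3
      have := hg3 i 0 h2 (by omega) (h3.trans hg0.symm)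
      omega
    have nv : ∀ i, i < Fintype.card V - 1 → g i ≠ v := by
      intro i h1 h3
      have := hg3 i _ (by omega) le_rfl (h3.trans hg1.symm)
      omega
    rw [hg0] at e0
    have := F1 (g 2) (g 1) (g 3) (nu 2 (by omega) (by omega)) (nv 2 (by omega)) e0
      (nv 1 (by omega)) e1.symm (hC _ (nu 3 (by omega) (by omega)) (nv 3 (by omega)))
      (nu 3 (by omega) (by omega)) e2
    have := hg3 3 1 (by omega) (by omega) this
    omega
  -- no cut vertex
  have noCut : ∀ b, ¬ ∀ r, R r → ∀ y, G.Adj r y → R y ∨ y = b := by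
    intro b hb
    obtain ⟨g, hg0, hg1, hg2, hg3, hg4⟩ := ham hH huv
    obtain ⟨i₀, hi₀, hgi₀⟩ := hg4 r₀
    have hR0 : ¬ R (g 0) := by rw [hg0]; exact fun h => h.1 rfl
    have hR1 : ¬ R (g (Fintype.card V - 1)) := by rw [hg1]; exact fun h => h.2.1 rfl
    have hRi : R (g i₀) := by rw [hgi₀]; exact hr₀
    obtain ⟨i, hi1, hi2, hi3, hi4⟩ := cross (Q := fun i => ¬ R (g i)) (Nat.zero_le i₀) hR0
      (not_not.2 hRi)
    obtain ⟨j, hj1, hj2, hj3, hj4⟩ := cross (Q := fun i => R (g i)) hi₀ hRi hR1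
    rw [not_not] at hi4
    have a1 : g i = b := ((hb _ hi4 _ (hg2 i (by omega)).symm).resolve_left hi3)
    have a2 : g (j + 1) = b := ((hb _ hj3 _ (hg2 j (by omega))).resolve_left hj4)
    have := hg3 i (j + 1) (by omega) (by omega) (a1.trans a2.symm)
    omega
  -- every vertex of `R` has a neighbour in `A`
  have hRA : ∀ r, R r → ∃ a, G.Adj u a ∧ a ≠ v ∧ G.Adj r a := by
    intro r hr
    obtain ⟨w, hw1, hw2⟩ := p3 h3 hr.1.symm
    refine ⟨w, hw1, ?_, hw2.symm⟩
    rintro rfl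
    exact hr.2.2 hw2
  choose! α hα1 hα2 hα3 using hRA
  have hαu : ∀ r, R r → ∀ c, G.Adj v c → c ≠ u → G.Adj r c → c = α r := fun r hr c h1 h2 h3' =>
    F1 r (α r) c hr.1 hr.2.1 (hα1 r hr) (hα2 r hr) (hα3 r hr) h1 h2 h3'
  have hαne : ∀ r, R r → α r ≠ u := fun r hr => (hα1 r hr).ne'
  -- neighbours of `R`
  have hRn : ∀ r, R r → ∀ y, G.Adj r y → R y ∨ y = α r := by
    intro r hr y hy
    by_cases h1 : G.Adj v y
    · by_cases h2 : y = u
      · subst h2
        exact absurd hy.symm (hRu r hr)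
      · exact Or.inr (hαu r hr y h1 h2 hy)
    · refine Or.inl ⟨?_, ?_, h1⟩
      · rintro rfl
        exact hRu r hr hy.symm
      · rintro rfl
        exact hr.2.2 hy.symm
  -- `C ⊆ A`
  have hCA : ∀ c, G.Adj v c → c ≠ u → G.Adj u c := by
    intro c₀ hc1 hc2
    by_contra hc3
    have hcv : c₀ ≠ v := hc1.ne'
    have hca : ∀ r, R r → G.Adj c₀ (α r) := by
      intro r hr
      have hne : c₀ ≠ r := by
        rintro rfl
        exact hr.2.2 hc1
      obtain ⟨y, hy1, hy2⟩ := p3 h3 hne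
      rcases hRn r hr y hy2.symm with h | h
      · exfalso
        have h6 := hαu y h c₀ hc1 hc2 hy1.symm
        apply hc3
        rw [h6]
        exact hα1 y h
      · rw [← h]; exact hy1
    apply noCut (α r₀)
    intro r hr y hy
    rcases hRn r hr y hy with h | h
    · exact Or.inl h
    · right
      rw [h]
      exact F1 c₀ (α r₀) (α r) hc2 hcv (hα1 _ hr₀) (hα2 _ hr₀) (hca _ hr₀)
        (hAC _ (hα1 r hr) (hα2 r hr)) (hαne r hr) (hca r hr)
  -- two vertices of `R` above each vertex of `A`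
  have hAR : ∀ a, G.Adj u a → a ≠ v → ∃ r r', R r ∧ R r' ∧ r ≠ r' ∧ G.Adj a r ∧ G.Adj a r' := by
    intro a ha1 ha2
    have hau : a ≠ u := ha1.ne'
    have haR : ¬ R a := fun h => hRu a h ha1
    have hex : ∃ r, R r ∧ G.Adj a r := by
      by_contra hcon
      push Not at hcon
      have hca : ∀ r, R r → G.Adj a (α r) := by
        intro r hr
        have hne : a ≠ r := by
          rintro rfl
          exact haR hr
        obtain ⟨y, hy1, hy2⟩ := p3 h3 hne
        rcases hRn r hr y hy2.symm with h | h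
        · exact absurd hy1 (hcon y h)
        · rw [← h]; exact hy1
      apply noCut (α r₀)
      intro r hr y hy
      rcases hRn r hr y hy with h | h
      · exact Or.inl h
      · right
        rw [h]
        exact F1 a (α r₀) (α r) hau ha2 (hα1 _ hr₀) (hα2 _ hr₀) (hca _ hr₀)
          (hAC _ (hα1 r hr) (hα2 r hr)) (hαne r hr) (hca r hr)
    obtain ⟨r, hr, har⟩ := hex
    obtain ⟨y, hy1, hy2⟩ := p3 h3 har.ne
    rcases hRn r hr y hy2.symm with h | h
    · exact ⟨r, y, hr, h, hy2.ne', har, hy1⟩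
    · exfalso
      have := hαu r hr a (hAC a ha1 ha2) hau har.symm
      rw [h, ← this] at hy1
      exact G.loopless.irrefl _ hy1
  -- three vertices of `A`
  obtain ⟨a, c, ha1, hac, hcv, hav, huc⟩ := p4 h4 huv
  have hc1 : G.Adj u c := hCA c hcv.symm huc.symm
  obtain ⟨b, hb1, hb2, hb3, hb4⟩ : ∃ b, G.Adj u b ∧ b ≠ v ∧ b ≠ a ∧ b ≠ c := by
    by_contra hcon
    push Not at hcon
    have hNu : ∀ y, G.Adj u y → y = v ∨ y = a ∨ y = c := by
      intro y hy
      by_cases h1 : y = v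
      · exact Or.inl h1
      · by_cases h2 : y = a
        · exact Or.inr (Or.inl h2)
        · exact Or.inr (Or.inr (hcon y hy h1 h2))
    have hNv : ∀ y, G.Adj v y → y = u ∨ y = a ∨ y = c := by
      intro y hy
      by_cases h1 : y = u
      · exact Or.inl h1
      · rcases hNu y (hCA y hy h1) with h | h
        · subst h
          exact absurd hy (G.loopless.irrefl _)
        · exact Or.inr h
    obtain ⟨g, hg0, hg1, hg2, hg3, hg4⟩ := ham hH hac.ne
    obtain ⟨i, hi, hgi⟩ := hg4 u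
    obtain ⟨j, hj, hgj⟩ := hg4 v
    have hij : i ≠ j := by
      rintro rfl
      exact huv (hgi.symm.trans hgj)
    have hi0 : i ≠ 0 := by
      rintro rfl
      exact ha1.ne (hgi.symm.trans hg0)
    have hi1 : i ≠ Fintype.card V - 1 := by
      intro h
      rw [h] at hgi
      exact hc1.ne (hgi.symm.trans hg1)
    have hj0 : j ≠ 0 := by
      rintro rfl
      exact hav (hg0.symm.trans hgj)
    have hj1 : j ≠ Fintype.card V - 1 := by
      intro h
      rw [h] at hgj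
      exact hcv.ne (hg1.symm.trans hgj)
    have key : ∀ k, k ≤ Fintype.card V - 1 → (g k = a → k = 0) ∧ (g k = c → k = Fintype.card V - 1) ∧
        (g k = u → k = i) ∧ (g k = v → k = j) := by
      intro k hk
      refine ⟨fun h => hg3 _ _ hk (by omega) (h.trans hg0.symm), fun h => hg3 _ _ hk le_rfl
        (h.trans hg1.symm), fun h => hg3 _ _ hk hi (h.trans hgi.symm),
        fun h => hg3 _ _ hk hj (h.trans hgj.symm)⟩
    have c1 : i + 1 = j ∨ i + 1 = 0 ∨ i + 1 = Fintype.card V - 1 := by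
      have h1 := hg2 i (by omega)
      rw [hgi] at h1
      obtain ⟨k1, k2, k3, k4⟩ := key (i + 1) (by omega)
      rcases hNu _ h1 with h | h | h
      · exact Or.inl (k4 h)
      · exact Or.inr (Or.inl (k1 h))
      · exact Or.inr (Or.inr (k2 h))
    have c2 : i - 1 = j ∨ i - 1 = 0 ∨ i - 1 = Fintype.card V - 1 := by
      have h1 := hg2 (i - 1) (by omega)
      rw [show i - 1 + 1 = i by omega, hgi] at h1
      obtain ⟨k1, k2, k3, k4⟩ := key (i - 1) (by omega)
      rcases hNu _ h1.symm with h | h | h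
      · exact Or.inl (k4 h)
      · exact Or.inr (Or.inl (k1 h))
      · exact Or.inr (Or.inr (k2 h))
    have c3 : j + 1 = i ∨ j + 1 = 0 ∨ j + 1 = Fintype.card V - 1 := by
      have h1 := hg2 j (by omega)
      rw [hgj] at h1
      obtain ⟨k1, k2, k3, k4⟩ := key (j + 1) (by omega)
      rcases hNv _ h1 with h | h | h
      · exact Or.inl (k3 h)
      · exact Or.inr (Or.inl (k1 h))
      · exact Or.inr (Or.inr (k2 h))
    have c4 : j - 1 = i ∨ j - 1 = 0 ∨ j - 1 = Fintype.card V - 1 := by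
      have h1 := hg2 (j - 1) (by omega)
      rw [show j - 1 + 1 = j by omega, hgj] at h1
      obtain ⟨k1, k2, k3, k4⟩ := key (j - 1) (by omega)
      rcases hNv _ h1.symm with h | h | h
      · exact Or.inl (k3 h)
      · exact Or.inr (Or.inl (k1 h))
      · exact Or.inr (Or.inr (k2 h))
    omega
  obtain ⟨r1, r2, q1, q2, q12, e1, e2⟩ := hAR a ha1 hav
  obtain ⟨s1, s2, t1, t2, t12, f1, f2⟩ := hAR c hc1 hcv.ne
  obtain ⟨w1, w2, z1, z2, z12, l1, l2⟩ := hAR b hb1 hb2
  -- the elements of `A` are not in `R`, and the fibres are disjoint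
  have hAn : ∀ x r, G.Adj u x → R r → x ≠ r := by
    rintro x r h1 h2 rfl
    exact hRu x h2 h1
  have hdis : ∀ x y r s, G.Adj u x → x ≠ v → G.Adj u y → y ≠ v → R r → R s → G.Adj x r →
      G.Adj y s → x ≠ y → r ≠ s := by
    rintro x y r s h1 h2 h3' h4' h6 h7 h8 h9 h10 rfl
    have i1 := hαu r h6 x (hAC x h1 h2) h1.ne' h8.symm
    have i2 := hαu r h6 y (hAC y h3' h4') h3'.ne' h9.symm
    exact h10 (i1.trans i2.symm)
  have hcv' : c ≠ v := hcv.ne
  have hnd : [u, v, a, c, b, r1, r2, s1, s2, w1, w2].Nodup := by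
    simp only [List.nodup_cons, List.mem_cons, List.not_mem_nil, or_false, not_or,
      not_false_eq_true, List.nodup_nil, and_true]
    refine ⟨⟨huv, ha1.ne, hc1.ne, hb1.ne, q1.1.symm, q2.1.symm, t1.1.symm, t2.1.symm, z1.1.symm,
      z2.1.symm⟩, ⟨hav.symm, hcv'.symm, hb2.symm, q1.2.1.symm, q2.2.1.symm, t1.2.1.symm,
      t2.2.1.symm, z1.2.1.symm, z2.2.1.symm⟩, ⟨hac.ne, hb3.symm, hAn a r1 ha1 q1, hAn a r2 ha1 q2,
      hAn a s1 ha1 t1, hAn a s2 ha1 t2, hAn a w1 ha1 z1, hAn a w2 ha1 z2⟩, ⟨hb4.symm,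
      hAn c r1 hc1 q1, hAn c r2 hc1 q2, hAn c s1 hc1 t1, hAn c s2 hc1 t2, hAn c w1 hc1 z1,
      hAn c w2 hc1 z2⟩, ⟨hAn b r1 hb1 q1, hAn b r2 hb1 q2, hAn b s1 hb1 t1, hAn b s2 hb1 t2,
      hAn b w1 hb1 z1, hAn b w2 hb1 z2⟩, ⟨q12, ?_, ?_, ?_, ?_⟩, ⟨?_, ?_, ?_, ?_⟩, ⟨t12, ?_, ?_⟩,
      ⟨?_, ?_⟩, z12⟩
    · exact hdis a c r1 s1 ha1 hav hc1 hcv' q1 t1 e1 f1 hac.ne
    · exact hdis a c r1 s2 ha1 hav hc1 hcv' q1 t2 e1 f2 hac.ne
    · exact hdis a b r1 w1 ha1 hav hb1 hb2 q1 z1 e1 l1 hb3.symm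
    · exact hdis a b r1 w2 ha1 hav hb1 hb2 q1 z2 e1 l2 hb3.symm
    · exact hdis a c r2 s1 ha1 hav hc1 hcv' q2 t1 e2 f1 hac.ne
    · exact hdis a c r2 s2 ha1 hav hc1 hcv' q2 t2 e2 f2 hac.ne
    · exact hdis a b r2 w1 ha1 hav hb1 hb2 q2 z1 e2 l1 hb3.symm
    · exact hdis a b r2 w2 ha1 hav hb1 hb2 q2 z2 e2 l2 hb3.symm
    · exact hdis c b s1 w1 hc1 hcv' hb1 hb2 t1 z1 f1 l1 hb4.symm
    · exact hdis c b s1 w2 hc1 hcv' hb1 hb2 t1 z2 f1 l2 hb4.symm
    · exact hdis c b s2 w1 hc1 hcv' hb1 hb2 t2 z1 f2 l1 hb4.symm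
    · exact hdis c b s2 w2 hc1 hcv' hb1 hb2 t2 z2 f2 l2 hb4.symm
  have := hnd.length_le_card
  simpa using this

/-- a graph of order `n ≥ 5` with `P_3`, `P_4`, `P_n` but not `P_5` has at least eleven vertices,
provided `n ≠ 5` -/
theorem lower (hn : 5 ≤ Fintype.card V) (h3 : HasP G 3) (h4 : HasP G 4)
    (hH : HasP G (Fintype.card V)) (h5 : ¬ HasP G 5) : 11 ≤ Fintype.card V := by
  classical
  unfold HasP at h5
  push Not at h5
  obtain ⟨u, v, huv, hno⟩ := h5
  have hno' : ∀ a x c, G.Adj u a → G.Adj a x → G.Adj x c → G.Adj c v → a ≠ v → c ≠ u → x ≠ u →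
      x ≠ v → a = c := by
    intro a x c h1 h2 h3' h4' h6 h7 h8 h9
    by_contra hac
    obtain ⟨p, hp1, hp2⟩ := mk5 h1 h2 h3' h4' h8.symm h7.symm huv hac h6 h9
    exact hno p hp1 hp2
  have hdich : ∀ a c, G.Adj u a → a ≠ v → G.Adj v c → c ≠ u → a ≠ c → G.Adj u c ∨ G.Adj v a := by
    intro a c h1 h2 h6 h7 hac
    obtain ⟨w, hw1, hw2⟩ := p3 h3 hac
    by_cases hwu : w = u
    · subst hwu
      exact Or.inl hw2
    · by_cases hwv : w = v
      · subst hwv
        exact Or.inr hw1.symm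
      · exact absurd (hno' a w c h1 hw1 hw2 h6.symm h2 h7 hwu hwv) hac
  by_cases hA : ∀ a, G.Adj u a → a ≠ v → G.Adj v a
  · exact core hn h3 h4 hH huv hno' hA
  · push Not at hA
    obtain ⟨a, ha1, ha2, ha3⟩ := hA
    have hC : ∀ c, G.Adj v c → c ≠ u → G.Adj u c := by
      intro c hc1 hc2
      have hne : a ≠ c := by
        rintro rfl
        exact ha3 hc1
      rcases hdich a c ha1 ha2 hc1 hc2 hne with h | h
      · exact h
      · exact absurd h ha3
    refine core hn h3 h4 hH huv.symm ?_ hC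
    intro a' x c' h1 h2 h6 h7 h8 h9 h10 h11
    exact (hno' c' x a' h7.symm h6.symm h2.symm h1.symm h9 h8 h11 h10).symm

end Core

end Pool.Agent.X54.PO
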