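import Pool.Agent.X54.PO.Basic

/-! The construction for `n ≥ 11` and the graph for `n = 5`. -/

set_option autoImplicit false
open SimpleGraph

namespace Pool.Agent.X54.PO

/-- symmetric irreflexive closure -/
def Sy (E : ℕ → ℕ → Prop) (a b : ℕ) : Prop := a ≠ b ∧ (E a b ∨ E b a)

/-- graph on `Fin n` from a relation on the natural numbers -/
def gr (E : ℕ → ℕ → Prop) (n : ℕ) : SimpleGraph (Fin n) where
  Adj x y := Sy E x.val y.val
  symm := ⟨fun _ _ h => ⟨h.1.symm, h.2.symm⟩⟩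
  loopless := ⟨fun _ h => h.1 rfl⟩

/-- path given by a list of natural numbers -/
def LP (E : ℕ → ℕ → Prop) (n i a b : ℕ) : Prop :=
  ∃ l : List ℕ, l.Nodup ∧ l.IsChain (Sy E) ∧ (∀ x ∈ l, x < n) ∧ l.head? = some a ∧
    l.getLast? = some b ∧ l.length = i

lemma walk_of_list {E : ℕ → ℕ → Prop} {n : ℕ} (b : Fin n) (l : List ℕ) : ∀ a : Fin n,
    l.IsChain (Sy E) → (∀ x ∈ l, x < n) → l.head? = some a.val → l.getLast? = some b.val →
      ∃ p : (gr E n).Walk a b, p.support.map Fin.val = l := by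
  induction l with
  | nil => intro a _ _ h; simp at h
  | cons x l ih =>
    intro a h1 h2 h3 h4
    have hx : x = a.val := by simpa using h3
    subst hx
    cases l with
    | nil =>
      have hb : a = b := by
        apply Fin.ext
        simpa using h4
      subst hb
      exact ⟨Walk.nil, by simp⟩
    | cons y l =>
      rw [List.isChain_cons_cons] at h1
      have hy : y < n := h2 y (by simp)
      obtain ⟨p, hp⟩ := ih ⟨y, hy⟩ h1.2 (fun z hz => h2 z (List.mem_cons_of_mem _ hz)) rfl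
        (by rw [List.getLast?_cons_cons] at h4; exact h4)
      have hadj : (gr E n).Adj a ⟨y, hy⟩ := h1.1
      exact ⟨Walk.cons hadj p, by simp [hp]⟩

lemma LP.path {E : ℕ → ℕ → Prop} {n i : ℕ} {a b : Fin n} (h : LP E n i a.val b.val) :
    ∃ p : (gr E n).Walk a b, p.IsPath ∧ p.support.length = i := by
  obtain ⟨l, h1, h2, h3, h4, h5, h6⟩ := h
  obtain ⟨p, hp⟩ := walk_of_list b l a h2 h3 h4 h5
  refine ⟨p, ?_, ?_⟩
  · rw [Walk.isPath_def]
    apply List.Nodup.of_map Fin.val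
    rw [hp]
    exact h1
  · rw [← h6, ← hp, List.length_map]

lemma hasP_of {E : ℕ → ℕ → Prop} {n i : ℕ}
    (h : ∀ a b, a < b → b < n → LP E n i a b) : HasP (gr E n) i := by
  intro u v huv
  rcases lt_trichotomy u.val v.val with h1 | h1 | h1
  · exact (h u.val v.val h1 v.isLt).path
  · exact absurd (Fin.ext h1) huv
  · obtain ⟨p, hp1, hp2⟩ := (h v.val u.val h1 u.isLt).path
    exact ⟨p.reverse, hp1.reverse, by rw [Walk.support_reverse, List.length_reverse, hp2]⟩

/-- extraction of a path with five vertices -/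
lemma p5 {V : Type} {G : SimpleGraph V} (h : HasP G 5) {x y : V} (hxy : x ≠ y) :
    ∃ a w c, G.Adj x a ∧ G.Adj a w ∧ G.Adj w c ∧ G.Adj c y ∧ a ≠ y ∧ x ≠ c ∧ x ≠ w ∧ w ≠ y ∧
      a ≠ c := by
  obtain ⟨p, hp0, hp⟩ := h x y hxy
  rw [Walk.length_support] at hp
  have h1 := p.adj_getVert_succ (i := 0) (by omega)
  have h2 := p.adj_getVert_succ (i := 1) (by omega)
  have h3 := p.adj_getVert_succ (i := 2) (by omega)
  have h4 := p.adj_getVert_succ (i := 3) (by omega)
  have e0 : p.getVert 0 = x := Walk.getVert_zero p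
  have e4 : p.getVert 4 = y := by
    have : 4 = p.length := by omega
    rw [this, Walk.getVert_length]
  have hinj : ∀ i j, i ≤ 4 → j ≤ 4 → p.getVert i = p.getVert j → i = j := by
    intro i j hi hj hij
    have m1 : i ∈ {i | i ≤ p.length} := by change i ≤ p.length; omega
    have m3 : j ∈ {i | i ≤ p.length} := by change j ≤ p.length; omega
    exact hp0.getVert_injOn m1 m3 hij
  have h1' : G.Adj (p.getVert 0) (p.getVert 1) := h1
  have h4' : G.Adj (p.getVert 3) (p.getVert 4) := h4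
  rw [e0] at h1'
  rw [e4] at h4'
  refine ⟨p.getVert 1, p.getVert 2, p.getVert 3, h1', h2, h3, h4', ?_, ?_, ?_, ?_, ?_⟩
  · intro h; have := hinj 1 4 (by omega) (by omega) (h.trans e4.symm); omega
  · intro h; have := hinj 0 3 (by omega) (by omega) (e0.trans h); omega
  · intro h; have := hinj 0 2 (by omega) (by omega) (e0.trans h); omega
  · intro h; have := hinj 2 4 (by omega) (by omega) (h.trans e4.symm); omega
  · intro h; have := hinj 1 3 (by omega) (by omega) h; omega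

/-! ### order five -/

/-- the fan -/
def E5 (a b : ℕ) : Prop :=
  (a = 0 ∧ 1 ≤ b) ∨ (a = 1 ∧ b = 2) ∨ (a = 1 ∧ b = 4) ∨ (a = 2 ∧ b = 3)

/-! ### order at least eleven -/

/-- the relation of the construction -/
def E (a b : ℕ) : Prop :=
  (a = 0 ∧ b = 1) ∨ (a ≤ 1 ∧ 2 ≤ b ∧ b ≤ 4) ∨ (a = 2 ∧ b = 3) ∨ (a = 2 ∧ 5 ≤ b ∧ b ≤ 6) ∨
    (a = 3 ∧ 7 ≤ b ∧ b ≤ 8) ∨ (a = 4 ∧ 9 ≤ b) ∨ (5 ≤ a ∧ 5 ≤ b)

/-- paths inside the clique, avoiding `r` -/
lemma cm {n k r s t : ℕ} (hs : 5 ≤ s ∧ s < n ∧ s ≠ r) (ht : 5 ≤ t ∧ t < n ∧ t ≠ r) (hst : s ≠ t)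
    (hk : 2 ≤ k) (hk' : k + 6 ≤ n ∨ (k + 5 ≤ n ∧ r < 5)) :
    ∃ M : List ℕ, (s :: (M ++ [t])).Nodup ∧ (s :: (M ++ [t])).IsChain (Sy E) ∧
      (∀ x ∈ s :: (M ++ [t]), 5 ≤ x ∧ x < n ∧ x ≠ r) ∧ M.length = k - 2 := by
  classical
  let W : Finset ℕ := (((Finset.Ico 5 n).erase r).erase s).erase t
  have hW : k - 2 ≤ W.card := by
    have h1 : s ∈ (Finset.Ico 5 n).erase r := by simp; omega
    have h2 : t ∈ ((Finset.Ico 5 n).erase r).erase s := by simp; omega
    change _ ≤ (((Finset.Ico 5 n).erase r).erase s |>.erase t).card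
    rw [Finset.card_erase_of_mem h2, Finset.card_erase_of_mem h1]
    by_cases hr : r ∈ Finset.Ico 5 n
    · rw [Finset.card_erase_of_mem hr, Nat.card_Ico]
      rw [Finset.mem_Ico] at hr
      omega
    · rw [Finset.erase_eq_of_notMem hr, Nat.card_Ico]
      omega
  obtain ⟨F, hF1, hF2⟩ := Finset.exists_subset_card_eq hW
  have hFm : ∀ x ∈ F, 5 ≤ x ∧ x < n ∧ x ≠ r ∧ x ≠ s ∧ x ≠ t := by
    intro x hx
    have := hF1 hx
    simp only [W, Finset.mem_erase, Finset.mem_Ico] at this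
    omega
  have hnd : (s :: (F.toList ++ [t])).Nodup := by
    rw [List.nodup_cons, List.nodup_append]
    refine ⟨?_, F.nodup_toList, by simp, ?_⟩
    · simp only [List.mem_append, Finset.mem_toList, List.mem_singleton, not_or]
      exact ⟨fun h => (hFm s h).2.2.2.1 rfl, hst⟩
    · intro a ha b hb
      simp only [List.mem_singleton] at hb
      rw [Finset.mem_toList] at ha
      rw [hb]
      exact (hFm a ha).2.2.2.2
  have hmem : ∀ x ∈ s :: (F.toList ++ [t]), 5 ≤ x ∧ x < n ∧ x ≠ r := by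
    intro x hx
    simp only [List.mem_cons, List.mem_append, Finset.mem_toList, List.not_mem_nil, or_false] at hx
    rcases hx with rfl | hx | rfl
    · exact hs
    · have := hFm x hx
      omega
    · exact ht
  refine ⟨F.toList, hnd, ?_, hmem, by rw [Finset.length_toList, hF2]⟩
  apply List.Pairwise.isChain
  refine List.Pairwise.imp_of_mem ?_ hnd
  intro a b ha hb hab
  exact ⟨hab, Or.inl (Or.inr (Or.inr (Or.inr (Or.inr (Or.inr (Or.inr
    ⟨(hmem a ha).1, (hmem b hb).1⟩))))))⟩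

/-- a path through the clique, with a prefix and a suffix -/
lemma mk {n k r s t a b i : ℕ} (L L' : List ℕ)
    (hs : 5 ≤ s ∧ s < n ∧ s ≠ r) (ht : 5 ≤ t ∧ t < n ∧ t ≠ r) (hst : s ≠ t)
    (hk : 2 ≤ k) (hk' : k + 6 ≤ n ∨ (k + 5 ≤ n ∧ r < 5))
    (h1 : (L ++ [s]).IsChain (Sy E)) (h2 : (t :: L').IsChain (Sy E)) (hnd : (L ++ L').Nodup)
    (hav : ∀ x ∈ L ++ L', (x < 5 ∨ x = r) ∧ x < n)
    (ha : (L ++ [s]).head? = some a) (hb : (t :: L').getLast? = some b)
    (hi : L.length + k + L'.length = i) : LP E n i a b := by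
  obtain ⟨M, hM1, hM2, hM3, hM4⟩ := cm hs ht hst hk hk'
  refine ⟨L ++ s :: (M ++ t :: L'), ?_, ?_, ?_, ?_, ?_, ?_⟩
  · have e : L ++ s :: (M ++ t :: L') = L ++ ((s :: (M ++ [t])) ++ L') := by simp
    rw [List.nodup_append] at hnd
    obtain ⟨n1, n2, n3⟩ := hnd
    rw [e, List.nodup_append, List.nodup_append]
    refine ⟨n1, ⟨hM1, n2, ?_⟩, ?_⟩
    · intro x hx y hy hxy
      have h3 := hM3 x hx
      have h4 := hav y (List.mem_append_right _ hy)
      omega
    · intro x hx y hy hxy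
      have h4 := hav x (List.mem_append_left _ hx)
      rcases List.mem_append.1 hy with h | h
      · have h3 := hM3 y h
        omega
      · exact n3 x hx y h hxy
  · rw [List.isChain_split, List.isChain_cons_split]
    exact ⟨h1, hM2, h2⟩
  · intro x hx
    have hx' : x ∈ L ++ L' ∨ x ∈ s :: (M ++ [t]) := by
      simp only [List.mem_append, List.mem_cons, List.not_mem_nil, or_false] at hx ⊢
      tauto
    rcases hx' with h | h
    · exact (hav x h).2
    · exact (hM3 x h).2.1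
  · cases L with
    | nil => simpa using ha
    | cons y L => simpa using ha
  · have e : L ++ s :: (M ++ t :: L') = (L ++ s :: M) ++ (t :: L') := by simp
    rw [e, List.getLast?_append, hb]
    rfl
  · simp only [List.length_append, List.length_cons, hM4]
    omega

/-- an explicit path -/
lemma ex {n i a b : ℕ} (l : List ℕ) (h1 : l.Nodup) (h2 : l.IsChain (Sy E)) (h3 : ∀ x ∈ l, x < n)
    (h4 : l.head? = some a) (h5 : l.getLast? = some b) (h6 : l.length = i) : LP E n i a b :=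
  ⟨l, h1, h2, h3, h4, h5, h6⟩

end Pool.Agent.X54.PO
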