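import Pool.Agent.X54.PO.Build

/-! `n ∈ J(n)` for `n ≥ 4`: a clique of order `n - 1` and a vertex of degree two. -/

set_option autoImplicit false
open SimpleGraph

namespace Pool.Agent.X54.PO

/-- a clique of order `n - 1` and a vertex of degree two -/
def EL (n a b : ℕ) : Prop := (a = n - 1 ∧ b ≤ 1) ∨ (a + 1 < n ∧ b + 1 < n)

lemma cliqueList {n k x y : ℕ} (hx : x + 1 < n) (hy : y + 1 < n) (hxy : x ≠ y) (h2 : 2 ≤ k)
    (hk : k + 1 ≤ n) : ∃ l : List ℕ, l.Nodup ∧ (∀ z ∈ l, z + 1 < n) ∧ l.head? = some x ∧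
      l.getLast? = some y ∧ l.length = k := by
  set L := ((List.range (n - 1)).erase x).erase y with hL
  have hn1 : (List.range (n - 1)).Nodup := List.nodup_range
  have hn2 : ((List.range (n - 1)).erase x).Nodup := hn1.erase x
  have hx1 : x ∈ List.range (n - 1) := List.mem_range.2 (by omega)
  have hy1 : y ∈ (List.range (n - 1)).erase x :=
    (List.mem_erase_of_ne hxy.symm).2 (List.mem_range.2 (by omega))
  have hlen : L.length = n - 3 := by
    rw [hL, List.length_erase_of_mem hy1, List.length_erase_of_mem hx1, List.length_range]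
    omega
  have hmem : ∀ z ∈ L, z < n - 1 ∧ z ≠ x ∧ z ≠ y := by
    intro z hz
    rw [hL, hn2.mem_erase_iff, hn1.mem_erase_iff, List.mem_range] at hz
    exact ⟨hz.2.2, hz.2.1, hz.1⟩
  have hLn : L.Nodup := hn2.erase y
  refine ⟨x :: (L.take (k - 2) ++ [y]), ?_, ?_, rfl, by rw [← List.cons_append]; exact List.getLast?_concat, ?_⟩
  · rw [List.nodup_cons]
    refine ⟨?_, ?_⟩
    · intro h
      rcases List.mem_append.1 h with h | h
      · exact (hmem x (List.mem_of_mem_take h)).2.1 rfl
      · exact hxy (List.mem_singleton.1 h)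
    · rw [List.nodup_append]
      refine ⟨hLn.sublist (List.take_sublist _ _), by simp, ?_⟩
      intro a ha b hb hab
      rw [List.mem_singleton.1 hb] at hab
      exact (hmem a (List.mem_of_mem_take ha)).2.2 hab
  · intro z hz
    rcases List.mem_cons.1 hz with rfl | hz
    · exact hx
    · rcases List.mem_append.1 hz with h | h
      · have := (hmem z (List.mem_of_mem_take h)).1
        omega
      · rw [List.mem_singleton.1 h]; exact hy
  · simp only [List.length_cons, List.length_append, List.length_take, hlen, List.length_nil]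
    omega

lemma chain_of {n : ℕ} {l : List ℕ} (h1 : l.Nodup) (h2 : ∀ z ∈ l, z + 1 < n) :
    l.IsChain (Sy (EL n)) := by
  refine List.Pairwise.isChain ?_
  refine List.Pairwise.imp_of_mem ?_ h1
  intro a b ha hb hab
  exact ⟨hab, Or.inl (Or.inr ⟨h2 a ha, h2 b hb⟩)⟩

lemma lastLP {n i : ℕ} (hn : 4 ≤ n) (h3 : 3 ≤ i) (hi : i + 1 ≤ n) (a b : ℕ) (hab : a < b)
    (hb : b < n) : LP (EL n) n i b a := by
  by_cases hbn : b + 1 < n
  · obtain ⟨l, l1, l2, l3, l4, l5⟩ := cliqueList (n := n) (k := i) (x := b) (y := a) hbn (by omega)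
      (by omega) (by omega) hi
    exact ⟨l, l1, chain_of l1 l2, fun z hz => by have := l2 z hz; omega, l3, l4, l5⟩
  · have hb' : b = n - 1 := by omega
    obtain ⟨c, hc, hca⟩ : ∃ c, c ≤ 1 ∧ c ≠ a := by
      by_cases h : a = 0
      · exact ⟨1, le_rfl, by omega⟩
      · exact ⟨0, by omega, by omega⟩
    obtain ⟨l, l1, l2, l3, l4, l5⟩ := cliqueList (n := n) (k := i - 1) (x := c) (y := a)
      (by omega) (by omega) hca (by omega) (by omega)
    obtain ⟨l', rfl⟩ : ∃ l', l = c :: l' := by
      cases l with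
      | nil => simp at l3
      | cons d l' =>
        simp only [List.head?_cons, Option.some.injEq] at l3
        exact ⟨l', by rw [l3]⟩
    refine ⟨b :: c :: l', ?_, ?_, ?_, by simp, ?_, ?_⟩
    · rw [List.nodup_cons]
      exact ⟨fun h => by have := l2 b h; omega, l1⟩
    · rw [List.isChain_cons_cons]
      refine ⟨⟨by omega, Or.inl (Or.inl ⟨hb', hc⟩)⟩, chain_of l1 l2⟩
    · intro z hz
      rcases List.mem_cons.1 hz with rfl | hz
      · exact hb
      · have := l2 z hz; omega
    · rw [List.getLast?_cons_cons]; exact l4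
    · rw [List.length_cons, l5]; omega

lemma not_last {n : ℕ} (hn : 4 ≤ n) : ¬ HasP (gr (EL n) n) n := by
  intro h
  have h' : HasP (gr (EL n) n) (Fintype.card (Fin n)) := by rw [Fintype.card_fin]; exact h
  obtain ⟨g, hg0, hg1, hg2, hg3, hg4⟩ := ham h' (x := ⟨0, by omega⟩) (y := ⟨1, by omega⟩) (by simp)
  rw [Fintype.card_fin] at hg1 hg2 hg3 hg4
  obtain ⟨i, hi, hgi⟩ := hg4 ⟨n - 1, by omega⟩
  have i0 : i ≠ 0 := by
    rintro rfl
    have := hg0.symm.trans hgi
    rw [Fin.ext_iff] at this
    simp only at this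
    omega
  have i5 : i ≠ n - 1 := by
    rintro rfl
    have := hg1.symm.trans hgi
    rw [Fin.ext_iff] at this
    simp only at this
    omega
  have key : ∀ j, j ≤ n - 1 → Sy (EL n) (g j).val (n - 1) → j = 0 ∨ j = n - 1 := by
    intro j hj hS
    have := (g j).isLt
    have h01 : (g j).val = 0 ∨ (g j).val = 1 := by
      simp only [Sy, EL] at hS
      omega
    rcases h01 with h | h
    · left
      exact hg3 j 0 hj (by omega) (by rw [hg0]; exact Fin.ext h)
    · right
      exact hg3 j (n - 1) hj (by omega) (by rw [hg1]; exact Fin.ext h)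
  have e1 := hg2 (i - 1) (by omega)
  have e2 := hg2 i (by omega)
  rw [show i - 1 + 1 = i by omega, hgi] at e1
  rw [hgi] at e2
  have k1 := key (i - 1) (by omega) e1
  have k2 := key (i + 1) (by omega) e2.symm
  omega

lemma last_mem {n : ℕ} (hn : 4 ≤ n) : n ∈ J n := by
  refine mem_J.2 ⟨by omega, le_rfl, gr (EL n) n, fun i h3 hi h5 => ?_, not_last hn⟩
  intro u v huv
  rcases lt_trichotomy u.val v.val with h1 | h1 | h1
  · obtain ⟨p, hp1, hp2⟩ := (lastLP hn h3 (by omega) u.val v.val h1 v.isLt).path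
    exact ⟨p.reverse, hp1.reverse, by rw [Walk.support_reverse, List.length_reverse, hp2]⟩
  · exact absurd (Fin.ext h1) huv
  · exact (lastLP hn h3 (by omega) v.val u.val h1 u.isLt).path

end Pool.Agent.X54.PO
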