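import Pool.Agent.X54.PO.Tree

/-! Refutation trees. -/

set_option autoImplicit false

namespace Pool.Agent.X54.PO

/-- refutation tree for paths with 6 vertices -/
def t6 : Tr :=
  (.node 0 3 (.opt .skip 
  (.opt (.leaf 6459489) (.opt (.leaf 6459490) (.opt .skip (.opt (.node 1 2 (.opt (.leaf 6459490) (.opt .skip (.opt .skip (.opt (.leaf 6459489) (.opt (.leaf 6459457) (.opt (.leaf 6457444) 
  (.opt (.leaf 6326372) (.opt (.node 2 6 (.opt (.leaf 6459490) (.opt (.leaf 6326372) (.opt .skip (.opt (.leaf 6392033) (.opt (.leaf 6425665) (.opt (.leaf 6457569) 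
  (.opt .skip 
  (.opt (.leaf 6522980) (.opt (.leaf 6555873) .skip)))))))))) .skip))))))))) (.opt (.leaf 6458433) (.opt (.node 0 1 (.opt .skip (.opt .skip (.opt (.leaf 6459490) (.opt (.leaf 6459489) (.opt (.leaf 6391844) 
  (.opt (.leaf 6394017) (.opt (.node 1 4 (.opt (.leaf 6326372) (.opt .skip (.opt (.leaf 6393921) (.opt (.leaf 6459489) (.opt .skip (.opt (.leaf 6394017) (.opt (.leaf 6425665) 
  (.opt (.leaf 6394081) .skip))))))))) (.opt (.leaf 6391847) .skip))))))))) (.opt (.leaf 6459495) .skip)))))))))

lemma tc6 : chk 6 t6 none 7 [] = true := by decide +kernel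

/-- refutation tree for paths with 7 vertices -/
def t7 : Tr :=
  (.node 2 5 (.opt (.leaf 241340514) (.opt (.node 3 7 (.opt (.leaf 241337411) (.opt (.leaf 241340513) (.opt (.leaf 237080737) (.opt .skip (.opt (.node 1 2 (.opt (.leaf 241340514) (.opt .skip (.opt .skip (.opt (.leaf 241340513) 
  (.opt (.leaf 241340481) (.opt (.leaf 239175841) (.opt (.leaf 239245377) (.opt (.leaf 237080737) (.opt (.leaf 239175937) .skip)))))))))) (.opt (.leaf 240258113) 
  (.opt (.leaf 241275041) (.opt .skip (.opt (.leaf 243372193) .skip)))))))))) (.opt .skip (.opt (.leaf 241339457) (.opt (.leaf 241340481) (.opt .skip (.opt (.node 0 4 (.opt .skip (.opt (.leaf 241241217) (.opt (.leaf 241340481) 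
  (.opt (.node 4 5 (.opt (.leaf 241241221) (.opt (.leaf 241241217) (.opt (.leaf 241340481) (.opt (.leaf 241339457) (.opt .skip (.opt .skip (.opt (.leaf 241306689) (.opt (.leaf 240258113) 
  (.opt (.leaf 241344643) .skip)))))))))) (.opt .skip (.opt (.leaf 241241221) (.opt (.leaf 241306689) (.opt (.leaf 239245377) (.opt (.leaf 241241224) .skip)))))))))) (.opt (.leaf 240258113) 
  (.opt (.leaf 241344577) .skip))))))))))

lemma tc7 : chk 7 t7 none 8 [] = true := by decide +kernel

/-- part of a refutation tree -/
def t8_1 : Tr :=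
  (.node 3 6 (.opt (.node 1 2 (.opt (.leaf 8831275106) (.opt .skip (.opt .skip (.opt (.leaf 8831275105) (.opt (.leaf 8831275073) (.opt (.leaf 8831272003) (.opt (.node 1 4 (.opt (.leaf 8831141988) (.opt .skip (.opt (.leaf 8831275073) 
  (.opt (.leaf 8831275105) (.opt .skip (.opt (.leaf 8831272003) (.opt (.leaf 8831241281) (.opt (.leaf 8829179969) (.opt (.leaf 8729592899) (.opt (.leaf 8831275297) 
  .skip))))))))))) 
  (.opt (.leaf 8827015334) (.opt (.leaf 8625688742) (.opt (.node 2 6 (.opt (.leaf 8831275106) (.opt (.leaf 8831149123) (.opt .skip (.opt (.leaf 8831207713) (.opt (.leaf 8831241281) 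
  (.opt (.leaf 8831273249) (.opt .skip (.opt (.leaf 8827015334) (.opt (.leaf 8796638273) (.opt (.leaf 8831403075) (.opt (.leaf 8831437089) .skip)))))))))))) .skip))))))))))) (.opt (.leaf 8831275105) 
  (.opt (.node 4 5 (.opt (.leaf 8831175813) (.opt (.leaf 8831175809) (.opt (.leaf 8831275073) (.opt (.leaf 8831274049) (.opt .skip (.opt .skip (.opt (.leaf 8831241281) (.opt (.leaf 8830192705) 
  (.opt (.node 0 6 (.opt .skip 
  (.opt (.leaf 8762001601) (.opt (.leaf 8831275106) (.opt (.leaf 8729594945) (.opt (.leaf 8764132417) (.opt (.leaf 8831175813) (.opt .skip (.opt (.leaf 8762001607) 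
  (.opt (.leaf 8796638273) (.opt (.leaf 8762001609) .skip))))))))))) (.opt (.node 0 4 (.opt .skip (.opt (.leaf 8831175809) (.opt (.leaf 8831275073) (.opt (.leaf 8831280259) (.opt .skip (.opt (.leaf 8831175813) 
  (.opt (.leaf 8831241281) (.opt (.leaf 8829179969) (.opt (.leaf 8733759553) (.opt (.leaf 8831175817) (.opt (.leaf 8831175818) .skip)))))))))))) .skip))))))))))) (.opt .skip (.opt (.leaf 8831241281) 
  (.opt (.leaf 8831274049) (.opt .skip (.opt (.node 2 5 (.opt (.leaf 8831275106) (.opt (.node 6 7 (.opt (.leaf 8828028070) (.opt (.leaf 8828097729) (.opt (.leaf 8827015329) (.opt (.leaf 8831209633) 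
  (.opt (.leaf 8831241281) (.opt (.leaf 8830192705) (.opt .skip (.opt .skip (.opt (.leaf 8796638273) (.opt (.node 4 5 (.opt (.leaf 8828028068) (.opt (.leaf 8834454657) (.opt (.leaf 8831275073) 
  (.opt (.leaf 8831274049) (.opt .skip (.opt .skip (.opt (.leaf 8831241281) (.opt (.leaf 8830192705) (.opt (.leaf 8764230721) (.opt (.leaf 8834387009) (.opt (.leaf 8828102817) 
  .skip)))))))))))) 
  .skip))))))))))) 
  (.opt .skip 
  (.opt (.leaf 8831274049) (.opt (.leaf 8831275073) (.opt .skip (.opt (.node 1 4 (.opt (.leaf 8828033188) (.opt .skip (.opt (.leaf 8831275073) (.opt (.leaf 8831275105) (.opt .skip (.opt (.leaf 8828033185) 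
  (.opt (.leaf 8831241281) (.opt (.leaf 8829179969) (.opt (.leaf 8727533633) (.opt (.leaf 8831275297) .skip))))))))))) (.opt (.leaf 8830192705) (.opt (.leaf 8764230721) 
  (.opt (.leaf 8831280193) .skip))))))))))) (.opt (.leaf 8796638273) (.opt (.leaf 8831405121) .skip)))))))))))

/-- refutation tree for paths with 8 vertices -/
def t8 : Tr :=
  t8_1

lemma tc8 : chk 8 t8 none 9 [] = true := by decide +kernel

/-- part of a refutation tree -/
def t9_1 : Tr :=
  (.node 3 4 (.opt (.node 6 7 (.opt (.node 1 2 (.opt (.leaf 318068920418) (.opt .skip (.opt .skip (.opt (.leaf 318068920417) (.opt (.leaf 318068920385) (.opt (.leaf 318068917315) (.opt (.leaf 318068787300) (.opt (.leaf 318064660646) 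
  (.opt (.leaf 317863334054) (.opt (.leaf 310381778119) (.opt (.node 2 6 (.opt (.leaf 318068920418) (.opt (.leaf 318068795459) (.opt .skip (.opt (.leaf 318068853057) (.opt (.leaf 318068886593) 
  (.opt (.leaf 318068918593) (.opt .skip (.opt (.leaf 318064660646) (.opt (.leaf 318034283585) (.opt (.leaf 315852163393) (.opt (.leaf 318069081155) (.opt (.leaf 318069115201) 
  .skip))))))))))))) 
  .skip)))))))))))) 
  (.opt (.leaf 318063711363) (.opt (.leaf 318064759939) (.opt (.node 1 2 (.opt (.leaf 318068920418) (.opt .skip (.opt .skip (.opt (.leaf 318068920417) (.opt (.leaf 318068854849) (.opt (.leaf 318065742913) 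
  (.opt (.leaf 318065743041) (.opt (.leaf 318064662692) (.opt (.leaf 317863336100) (.opt (.leaf 310381877412) (.opt (.leaf 318068853057) .skip)))))))))))) (.opt (.leaf 318068886593) 
  (.opt (.leaf 318067838017) (.opt .skip (.opt .skip (.opt (.leaf 318034283585) (.opt (.leaf 316960541761) (.opt (.leaf 318073148547) .skip)))))))))))) (.opt (.leaf 318068920417) (.opt (.leaf 318068920385) 
  (.opt .skip 
  (.opt .skip 
  (.opt (.leaf 318068919361) (.opt (.leaf 318068886593) (.opt (.node 2 5 (.opt (.leaf 318068920418) (.opt (.node 1 2 (.opt (.leaf 318065742882) (.opt .skip (.opt .skip (.opt (.leaf 318068920417) (.opt (.leaf 318068920385) 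
  (.opt (.leaf 318065742913) (.opt (.leaf 318066825281) (.opt (.leaf 318064660641) (.opt (.leaf 317898068129) (.opt (.leaf 311490222241) (.opt (.leaf 318066755905) 
  .skip)))))))))))) 
  (.opt .skip 
  (.opt (.leaf 318066822209) (.opt (.leaf 318068920385) (.opt .skip (.opt (.leaf 318066825281) (.opt (.leaf 318067838017) (.opt (.leaf 317999778881) (.opt (.leaf 314815155265) 
  (.opt (.leaf 318066829377) .skip)))))))))))) (.opt (.node 2 6 (.opt (.leaf 318068920418) (.opt (.node 2 7 (.opt (.leaf 317932607522) (.opt (.leaf 317932607713) (.opt .skip (.opt (.leaf 318065743041) (.opt (.leaf 318068920385) 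
  (.opt (.leaf 318067838017) (.opt (.leaf 317932607553) (.opt .skip (.opt (.leaf 317897970881) (.opt (.leaf 316960541761) (.opt (.leaf 317930675393) .skip)))))))))))) (.opt .skip (.opt (.leaf 317967240257) 
  (.opt (.leaf 318068886593) (.opt (.node 6 7 (.opt (.leaf 317965014215) (.opt (.leaf 317965014209) (.opt (.leaf 317932607553) (.opt (.leaf 317967240257) (.opt (.leaf 318068886593) 
  (.opt (.leaf 318067838017) (.opt .skip (.opt .skip (.opt (.leaf 318034283585) (.opt (.leaf 316960541761) (.opt (.leaf 318073148481) .skip)))))))))))) (.opt .skip (.opt (.leaf 317967244353) (.opt (.leaf 318034283585) 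
  (.opt (.leaf 315923500097) (.opt (.leaf 317967247425) .skip)))))))))))) (.opt (.node 2 7 (.opt (.leaf 318068920418) (.opt (.node 2 8 (.opt (.leaf 312598535202) (.opt (.leaf 312598535425) (.opt .skip (.opt (.leaf 317932607713) 
  (.opt (.leaf 318068920385) (.opt (.leaf 313635543265) (.opt (.leaf 318034283585) (.opt (.leaf 312598535233) (.opt .skip (.opt (.leaf 311490156769) (.opt (.leaf 313635709153) 
  .skip)))))))))))) 
  (.opt .skip 
  (.opt (.leaf 313706908737) (.opt (.leaf 318068920385) (.opt (.leaf 318067838017) (.opt (.node 4 7 (.opt (.node 0 1 (.opt .skip (.opt .skip (.opt (.leaf 318068920418) (.opt (.leaf 318068920417) (.opt (.leaf 318068821121) 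
  (.opt (.leaf 318068819108) (.opt (.leaf 318068787300) (.opt (.leaf 318063581348) (.opt (.leaf 313635577089) (.opt (.leaf 310381778119) (.opt (.leaf 312598530090) 
  .skip)))))))))))) 
  (.opt (.leaf 318068821121) (.opt (.leaf 318068920385) (.opt (.leaf 313706908737) (.opt .skip (.opt (.leaf 318067838017) (.opt (.leaf 318068886593) (.opt .skip (.opt (.leaf 312601712705) 
  (.opt (.leaf 316960541761) (.opt (.leaf 318073080897) .skip)))))))))))) (.opt .skip (.opt (.leaf 313706913857) (.opt (.leaf 316960541761) (.opt (.leaf 313706915905) .skip)))))))))))) (.opt (.node 3 6 (.opt (.leaf 318068920643) 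
  (.opt (.leaf 318068920417) (.opt (.node 0 10 (.opt .skip (.opt (.leaf 318068821313) (.opt (.leaf 318068920418) (.opt (.leaf 318068920643) (.opt (.leaf 318068821316) (.opt (.leaf 318068821125) 
  (.opt (.leaf 318069083201) (.opt (.leaf 318073080897) (.opt (.leaf 318167488577) (.opt (.leaf 320080091201) (.opt .skip (.opt (.leaf 318068821323) .skip))))))))))))) (.opt .skip (.opt (.leaf 318068886593) 
  (.opt (.leaf 318068919361) (.opt .skip (.opt (.node 5 6 (.opt (.leaf 318065938598) (.opt (.leaf 318065938593) (.opt (.leaf 318065742913) (.opt (.leaf 318068919361) (.opt (.leaf 318068886593) 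
  (.opt .skip 
  (.opt .skip 
  (.opt (.leaf 318067838017) (.opt (.leaf 318034283585) (.opt (.leaf 315852393537) (.opt (.leaf 318069083201) (.opt (.node 9 11 (.opt (.leaf 318065938603) (.opt (.leaf 318065743201) 
  (.opt (.leaf 318068927553) (.opt (.leaf 318069115969) (.opt (.leaf 313706908737) (.opt (.leaf 314981977153) (.opt (.leaf 316054572097) (.opt (.leaf 316960541761) 
  (.opt (.leaf 318202055745) (.opt .skip (.opt (.leaf 320349539393) (.opt .skip (.opt (.leaf 322497023041) .skip)))))))))))))) .skip))))))))))))) (.opt (.leaf 318034283585) (.opt (.leaf 315852393537) (.opt (.leaf 318069083201) 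
  (.opt (.leaf 318069115969) .skip))))))))))))) .skip))))))))))))

/-- refutation tree for paths with 9 vertices -/
def t9 : Tr :=
  t9_1

lemma tc9 : chk 9 t9 none 10 [] = true := by decide +kernel

/-- part of a refutation tree -/
def t10_1 : Tr :=
  (.node 2 3 (.opt (.leaf 11313185198178) (.opt (.leaf 11313185198177) (.opt .skip (.opt .skip (.opt (.leaf 11313185198145) (.opt (.leaf 11313185197121) (.opt (.leaf 11313185132705) 
  (.opt (.leaf 11313180938401) (.opt (.node 3 6 (.opt (.leaf 11313185195075) (.opt (.leaf 11313185198177) (.opt (.leaf 11313048885313) (.opt .skip (.opt (.leaf 11313185164353) (.opt (.leaf 11313185197121) 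
  (.opt .skip 
  (.opt (.leaf 11313014347937) (.opt (.leaf 11313150561345) (.opt (.leaf 11310968447041) (.opt (.leaf 11102664761409) (.opt (.leaf 11313185393729) .skip))))))))))))) (.opt (.node 3 7 (.opt (.leaf 11313185195075) 
  (.opt (.leaf 11313185198177) (.opt (.leaf 11307714812993) (.opt .skip (.opt (.leaf 11306606500001) (.opt (.leaf 11313184115777) (.opt (.leaf 11313185132705) (.opt .skip (.opt (.leaf 11306610694305) 
  (.opt (.leaf 11312076819521) (.opt (.leaf 11242248971329) (.opt (.leaf 11313190375585) .skip))))))))))))) (.opt (.node 3 8 (.opt (.leaf 11313185195075) (.opt (.leaf 11313185198177) (.opt (.leaf 11102664761409) 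
  (.opt .skip 
  (.opt (.leaf 11067199821985) (.opt (.leaf 11313185197121) (.opt (.leaf 11313150561345) (.opt (.node 8 9 (.opt (.leaf 11065081568521) (.opt (.leaf 11067196644609) (.opt (.leaf 11102664761409) 
  (.opt (.leaf 11067367594145) (.opt (.leaf 11308823186497) (.opt (.leaf 11313118153793) (.opt (.leaf 11313150561345) (.opt (.leaf 11312076819521) (.opt .skip (.opt .skip (.opt (.leaf 11277717081153) 
  (.opt (.leaf 11316440961185) .skip))))))))))))) (.opt .skip (.opt (.leaf 11067367594145) (.opt (.leaf 11277717081153) (.opt (.leaf 11067434703009) .skip))))))))))))) (.opt (.node 7 11 (.opt (.leaf 11313185195083) (.opt (.node 3 7 (.opt (.leaf 11313185195075) 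
  (.opt (.leaf 11313185198177) (.opt (.leaf 11313180938401) (.opt .skip (.opt (.leaf 11313183042625) (.opt (.leaf 11313184115777) (.opt (.leaf 11313185139777) (.opt .skip (.opt (.leaf 11313048885473) 
  (.opt (.leaf 11312076819521) (.opt (.leaf 11242248973377) (.opt (.leaf 11313190375585) (.opt (.leaf 11313191431233) .skip)))))))))))))) (.opt (.leaf 11313180938401) (.opt (.node 3 4 (.opt (.leaf 11313185195075) 
  (.opt (.leaf 11313185198177) (.opt (.leaf 11313185198145) (.opt .skip (.opt .skip (.opt (.leaf 11313185197121) (.opt (.leaf 11313185164353) (.opt (.leaf 11313183042625) (.opt (.leaf 11313081456801) 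
  (.opt (.leaf 11308823186497) (.opt (.leaf 11138132716609) (.opt (.leaf 11313182026817) (.opt (.leaf 11313182281889) .skip)))))))))))))) (.opt (.leaf 11313183296577) (.opt (.leaf 11313184115777) 
  (.opt (.leaf 11313185393729) (.opt .skip (.opt (.leaf 11313315156129) (.opt (.leaf 11312076819521) (.opt (.leaf 11242248973377) (.opt .skip (.opt (.leaf 11313191685185) .skip)))))))))))))) .skip)))))))))))))

/-- part of a refutation tree -/
def t10_2 : Tr :=
  (.node 4 5 (.opt (.leaf 11313185098885) (.opt (.leaf 11313185098881) (.opt (.leaf 11313185198145) 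
  (.opt (.leaf 11313185197121) (.opt .skip (.opt .skip (.opt (.leaf 11313185164353) (.opt (.leaf 11313184115777) (.opt (.node 0 6 (.opt .skip (.opt (.leaf 11313115924673) (.opt (.leaf 11313185198178) (.opt (.leaf 11313083518017) 
  (.opt (.leaf 11313118055489) (.opt (.leaf 11313185098885) (.opt .skip (.opt (.leaf 11313115924679) (.opt (.leaf 11313150561345) (.opt (.leaf 11310972668993) (.opt (.leaf 11209064713281) 
  (.opt (.leaf 11313115924683) .skip))))))))))))) (.opt (.node 8 9 (.opt (.leaf 11309860067560) (.opt (.leaf 11308751854849) (.opt (.leaf 11308823191617) (.opt (.leaf 11309931564097) (.opt (.leaf 11309865474113) 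
  (.opt (.leaf 11308825286721) (.opt (.leaf 11313150561345) (.opt (.leaf 11312076819521) (.opt .skip (.opt .skip (.opt (.leaf 11277717081153) (.opt (.node 4 7 (.opt (.leaf 11316441057380) (.opt (.leaf 11313185098881) 
  (.opt (.leaf 11313185198145) (.opt (.leaf 11308823186497) (.opt .skip (.opt (.leaf 11313184115777) (.opt (.leaf 11313185164353) (.opt .skip (.opt (.leaf 11316437882945) (.opt (.leaf 11312076819521) 
  (.opt (.leaf 11244531747905) (.opt (.leaf 11313190407233) (.opt (.leaf 11313191455809) .skip)))))))))))))) .skip))))))))))))) (.opt (.node 8 9 (.opt (.leaf 11171312901385) (.opt (.leaf 11171312901377) (.opt (.leaf 11138132878401) 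
  (.opt (.leaf 11138132872257) (.opt (.leaf 11173600824385) (.opt (.leaf 11138234554433) (.opt (.leaf 11313150561345) (.opt (.leaf 11312076819521) (.opt .skip (.opt .skip (.opt (.leaf 11277717081153) 
  (.opt (.node 4 8 (.opt (.leaf 11316441057380) (.opt (.leaf 11313185098881) (.opt (.leaf 11313185198145) (.opt (.leaf 11138132872257) (.opt .skip (.opt (.leaf 11316438895681) (.opt (.leaf 11313150561345) 
  (.opt (.leaf 11316440992833) (.opt .skip (.opt (.leaf 11171520550977) (.opt (.leaf 11277717081153) (.opt (.leaf 11313317320769) (.opt (.leaf 11316446235713) .skip)))))))))))))) .skip))))))))))))) (.opt (.node 8 11 (.opt (.leaf 11313185098891) 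
  (.opt (.leaf 11313185198433) (.opt (.leaf 11313185205313) (.opt (.leaf 11313048885313) (.opt (.leaf 11313089779777) (.opt (.leaf 11313123298369) (.opt (.leaf 11313150561345) 
  (.opt (.leaf 11313190407233) (.opt .skip (.opt (.node 1 7 (.opt (.leaf 11316337150151) (.opt .skip (.opt (.leaf 11316304747585) (.opt (.leaf 11316339379265) (.opt (.leaf 11313183103041) (.opt (.leaf 11313184115777) 
  (.opt (.leaf 11316337150145) (.opt .skip (.opt (.leaf 11316304747777) (.opt (.leaf 11312076819521) (.opt (.leaf 11242256337985) (.opt (.leaf 11313190407233) (.opt (.leaf 11316304747905) 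
  .skip)))))))))))))) 
  (.opt (.leaf 11277717081153) (.opt .skip (.opt (.leaf 11313358179393) .skip)))))))))))))) .skip)))))))))))))

/-- part of a refutation tree -/
def t10_3 : Tr :=
  (.node 8 9 (.opt (.leaf 11067196644617) 
  (.opt (.leaf 11067196644609) (.opt (.node 0 3 (.opt .skip (.opt (.leaf 11173600987233) (.opt (.leaf 11313185198178) (.opt .skip (.opt (.leaf 11173600987236) (.opt (.leaf 11313185197121) (.opt (.leaf 11171317129281) 
  (.opt (.leaf 11171318211649) (.opt (.leaf 11306606434536) (.opt (.leaf 11173600988225) (.opt (.leaf 11102664761409) (.opt (.leaf 11173600987243) .skip))))))))))))) (.opt (.leaf 11173600988225) 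
  (.opt (.leaf 11173600824385) (.opt (.node 4 7 (.opt (.node 1 2 (.opt (.leaf 11313185198178) (.opt .skip (.opt .skip (.opt (.leaf 11313185198177) (.opt (.leaf 11313185198145) (.opt (.leaf 11313185196132) (.opt (.leaf 11313115924673) 
  (.opt (.leaf 11313115924705) (.opt (.leaf 11067196644609) (.opt (.leaf 11173600987236) (.opt (.leaf 11031728530695) (.opt (.leaf 11313115924833) .skip))))))))))))) (.opt (.leaf 11067196743905) 
  (.opt (.leaf 11313185198145) (.opt (.leaf 11313118153793) (.opt .skip (.opt (.leaf 11313184115777) (.opt (.leaf 11313118055489) (.opt .skip (.opt (.leaf 11173600824385) (.opt (.leaf 11312076819521) 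
  (.opt (.leaf 11244531747905) (.opt (.leaf 11173603970113) .skip))))))))))))) (.opt (.leaf 11313150561345) (.opt (.leaf 11312076819521) (.opt .skip (.opt .skip (.opt (.leaf 11277717081153) (.opt (.node 5 8 (.opt (.node 1 11 (.opt (.leaf 11067196644619) 
  (.opt .skip 
  (.opt (.leaf 11173600996417) (.opt (.leaf 11173601053761) (.opt (.leaf 11316441060481) (.opt (.leaf 11313318333505) (.opt (.leaf 11316371786817) (.opt (.leaf 11313179856005) 
  (.opt (.leaf 11067196644609) (.opt (.leaf 11065223290053) (.opt (.leaf 11031728527592) (.opt .skip (.opt (.leaf 11173600996737) .skip)))))))))))))) (.opt (.leaf 11067196644609) (.opt (.leaf 11316441060417) 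
  (.opt (.leaf 11313185197121) (.opt (.leaf 11173600824385) (.opt .skip (.opt (.leaf 11313150561345) (.opt (.leaf 11313184115777) (.opt .skip (.opt (.node 0 8 (.opt .skip (.opt (.leaf 11067196644609) (.opt (.leaf 11313185198178) 
  (.opt (.leaf 11309931564097) (.opt (.leaf 11173600824385) (.opt (.leaf 11316438895681) (.opt (.leaf 11313150561345) (.opt (.leaf 11067196747015) (.opt .skip (.opt (.leaf 11067196644617) 
  (.opt (.leaf 11277717081153) (.opt (.leaf 11067196644619) (.opt (.leaf 11067196644620) .skip)))))))))))))) (.opt (.leaf 11277717081153) (.opt (.leaf 11313318333505) (.opt (.leaf 11313351887937) 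
  .skip)))))))))))))) 
  .skip)))))))))))))

/-- part of a refutation tree -/
def t10_4 : Tr :=
  (.node 2 5 (.opt (.leaf 11313185198178) (.opt t10_1 (.opt .skip (.opt (.leaf 11313185197121) (.opt (.leaf 11313185198145) (.opt .skip (.opt t10_2 (.opt (.leaf 11313184115777) (.opt (.node 3 4 (.opt (.node 2 10 (.opt (.leaf 11313185198178) (.opt (.leaf 11031899477123) 
  (.opt .skip 
  (.opt (.leaf 11102664761409) (.opt (.leaf 11313185198145) (.opt (.leaf 11313185196132) (.opt (.leaf 11209064713281) (.opt (.leaf 11313018508419) (.opt (.leaf 11277717081153) 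
  (.opt (.leaf 11306777384067) (.opt .skip (.opt (.leaf 11375496860803) .skip))))))))))))) (.opt (.leaf 11313185198177) (.opt (.leaf 11313185198145) (.opt .skip (.opt .skip (.opt (.leaf 11313185197121) (.opt (.leaf 11313118055489) 
  (.opt (.leaf 11313116056641) (.opt (.node 7 10 (.opt (.leaf 11313014248647) (.opt (.leaf 11313048885473) (.opt (.leaf 11313083522113) (.opt (.leaf 11313118153793) (.opt (.leaf 11140278258753) 
  (.opt (.leaf 11313184115777) (.opt (.leaf 11209064713281) (.opt .skip (.opt (.leaf 11277717081153) (.opt (.leaf 11312076819521) (.opt .skip (.opt (.leaf 11380796296257) .skip))))))))))))) (.opt (.leaf 11308823191617) 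
  (.opt (.leaf 11102664761409) (.opt (.leaf 11313116187713) .skip))))))))))))) (.opt (.node 7 8 (.opt (.leaf 11306606434536) (.opt (.leaf 11306606434529) (.opt (.node 0 3 (.opt .skip (.opt (.leaf 11309931563105) (.opt (.leaf 11313185198178) 
  (.opt .skip 
  (.opt (.leaf 11309931563108) (.opt (.leaf 11313185197121) (.opt (.leaf 11309860199489) (.opt (.leaf 11309860233281) (.opt (.leaf 11309931564097) (.opt (.leaf 11307714812993) 
  (.opt (.leaf 11102667938881) (.opt (.leaf 11309931563115) .skip))))))))))))) (.opt (.leaf 11309931564097) (.opt (.leaf 11309931433025) (.opt (.leaf 11313184115777) (.opt (.leaf 11313150561345) 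
  (.opt .skip 
  (.opt .skip 
  (.opt (.leaf 11312076819521) (.opt (.leaf 11277717081153) (.opt (.node 3 7 (.opt (.leaf 11313320498307) (.opt (.leaf 11313185198177) (.opt (.node 0 7 (.opt .skip (.opt (.leaf 11306606434529) (.opt (.leaf 11313185198178) 
  (.opt (.leaf 11313320498307) (.opt (.leaf 11309931433025) (.opt (.leaf 11313184115777) (.opt (.leaf 11313180938406) (.opt .skip (.opt (.leaf 11306606434536) (.opt (.leaf 11312076819521) 
  (.opt (.leaf 11244531747905) (.opt (.leaf 11306606434539) (.opt (.leaf 11306606434540) .skip)))))))))))))) (.opt .skip (.opt (.leaf 11309931433025) (.opt (.leaf 11313184115777) (.opt (.leaf 11313320496193) 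
  (.opt .skip 
  (.opt (.leaf 11309931564097) (.opt (.leaf 11312076819521) (.opt (.leaf 11244531747905) (.opt (.leaf 11309931662401) (.opt (.leaf 11309931695169) .skip)))))))))))))) .skip))))))))))))) (.opt t10_3 (.opt (.leaf 11313185205313) 
  .skip)))))))))))))

/-- refutation tree for paths with 10 vertices -/
def t10 : Tr :=
  t10_4

lemma tc10 : chk 10 t10 none 11 [] = true := by decide +kernel

/-- part of a refutation tree -/
def t11_1 : Tr :=
  (.node 2 10 (.opt (.leaf 398341278175330) (.opt (.leaf 398059821504744) (.opt .skip (.opt (.node 2 5 (.opt (.leaf 398341278175330) (.opt (.leaf 398128474955017) (.opt .skip (.opt (.leaf 398341278174273) (.opt (.leaf 398341278175297) 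
  (.opt .skip 
  (.opt (.node 2 8 (.opt (.leaf 398341278175330) (.opt (.leaf 398130757567753) (.opt .skip (.opt (.leaf 398341141862465) (.opt (.leaf 398341278175297) (.opt (.leaf 398130759833665) (.opt (.leaf 398341243538497) 
  (.opt (.leaf 398130757573897) (.opt .skip (.opt (.leaf 398334699411688) (.opt (.leaf 398305810058305) (.opt (.leaf 396144266090561) (.opt (.leaf 398130757579017) .skip)))))))))))))) (.opt (.leaf 398341277092929) 
  (.opt (.leaf 398130757738561) (.opt (.leaf 398334699411688) (.opt (.leaf 398095289621769) (.opt (.leaf 392739603942465) (.opt (.leaf 398341278183489) .skip)))))))))))))) (.opt (.leaf 398341278175297) 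
  (.opt (.node 4 7 (.opt (.leaf 398341278173284) (.opt (.leaf 398199405714697) (.opt (.leaf 398341278175297) (.opt (.leaf 398341274997825) (.opt .skip (.opt (.leaf 398341277092929) (.opt (.leaf 398341278141505) 
  (.opt .skip 
  (.opt (.leaf 398201693801537) (.opt (.leaf 398340169796673) (.opt (.leaf 398163941989641) (.opt (.leaf 395009556876353) (.opt (.leaf 398201697995841) .skip)))))))))))))) (.opt (.node 2 8 (.opt (.leaf 398341278175330) 
  (.opt (.leaf 398234873824521) (.opt .skip (.opt (.leaf 398341141862465) (.opt (.leaf 398341278175297) (.opt (.leaf 398237157690433) (.opt (.leaf 398341243538497) (.opt (.leaf 398234873830665) 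
  (.opt .skip 
  (.opt (.leaf 398334699411688) (.opt (.leaf 398305810058305) (.opt (.leaf 396144367766593) (.opt (.leaf 398234873835785) .skip)))))))))))))) (.opt (.node 2 9 (.opt (.leaf 398341278175330) (.opt (.leaf 398270341941289) 
  (.opt .skip 
  (.opt (.leaf 398335807790145) (.opt (.leaf 398341278175297) (.opt (.leaf 398272624725057) (.opt (.leaf 398339061418216) (.opt (.leaf 398340169796673) (.opt (.leaf 398270341941513) 
  (.opt .skip 
  (.opt (.leaf 398095289621769) (.opt (.leaf 397206298430529) (.opt (.leaf 398270341941641) .skip)))))))))))))) (.opt (.leaf 398305810058305) (.opt (.leaf 398334699411688) (.opt .skip (.opt (.node 1 10 (.opt (.leaf 389334664716586) 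
  (.opt .skip 
  (.opt (.leaf 398095289621769) (.opt (.leaf 398341278175329) (.opt (.node 1 2 (.opt (.leaf 398341278175266) (.opt .skip (.opt .skip (.opt (.leaf 398341278175329) (.opt (.leaf 398341278175297) (.opt (.leaf 389405600950401) 
  (.opt (.leaf 398341278076033) (.opt (.leaf 389269198874920) (.opt (.leaf 389270307246409) (.opt (.leaf 398166225855553) (.opt (.leaf 389580653270145) (.opt (.leaf 388199684971785) 
  (.opt (.leaf 389640646499593) .skip)))))))))))))) (.opt (.node 3 4 (.opt (.leaf 398341278172227) (.opt (.leaf 398341278175329) (.opt (.leaf 398341278175297) (.opt .skip (.opt .skip (.opt (.leaf 398341278174273) (.opt (.leaf 398341278141505) 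
  (.opt (.leaf 389334733990049) (.opt (.leaf 398201693801537) (.opt (.leaf 398201693965377) (.opt (.leaf 389341243480225) (.opt (.leaf 391531405188361) (.opt (.leaf 389343220014345) 
  .skip)))))))))))))) 
  (.opt (.node 1 4 (.opt (.leaf 398341278042212) (.opt .skip (.opt (.leaf 398341278175297) (.opt (.leaf 398341278175329) (.opt .skip (.opt (.leaf 389334659442984) (.opt (.leaf 398341278141505) (.opt (.leaf 389334733990081) 
  (.opt (.leaf 389334664815873) (.opt (.leaf 398237161884737) (.opt (.leaf 389334835666113) (.opt (.leaf 388199684974888) (.opt (.leaf 398341278175617) .skip)))))))))))))) (.opt (.leaf 389334664718632) 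
  (.opt (.leaf 398305810058305) (.opt (.leaf 389334664716577) (.opt .skip (.opt (.leaf 388199684971785) (.opt (.node 0 6 (.opt .skip (.opt (.leaf 389334664524105) (.opt (.leaf 398341278175330) (.opt (.leaf 389336881473921) 
  (.opt (.leaf 398341278141505) (.opt (.leaf 389274706123973) (.opt .skip (.opt (.leaf 398436670248135) (.opt (.leaf 398341243538497) (.opt (.leaf 389334664784257) (.opt (.leaf 389334664716586) 
  (.opt (.leaf 393801359208777) (.opt (.leaf 389334664882472) (.opt (.leaf 398436670248141) .skip))))))))))))))) .skip)))))))))))))) (.opt (.leaf 398437778626792) .skip))))))))))))))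

/-- part of a refutation tree -/
def t11_2 : Tr :=
  (.node 0 3 (.opt .skip 
  (.opt (.leaf 398341278175329) (.opt (.leaf 398341278175330) (.opt .skip (.opt (.node 2 6 (.opt (.leaf 398341278175330) (.opt (.leaf 398341278042212) (.opt .skip (.opt (.leaf 398341072591012) (.opt (.leaf 398341278141505) 
  (.opt (.leaf 398341278173284) (.opt .skip (.opt (.leaf 398341072722084) (.opt (.leaf 398341243538497) (.opt (.leaf 398339132655716) (.opt (.leaf 398095289621761) (.opt (.leaf 389334664716577) 
  (.opt (.leaf 398341278402660) .skip)))))))))))))) (.opt (.leaf 398341278174273) (.opt (.leaf 398341072588966) (.opt (.leaf 398333591033031) (.opt (.node 7 10 (.opt (.leaf 398333591033031) (.opt (.leaf 398341141862625) 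
  (.opt (.leaf 398099651628289) (.opt (.leaf 398130757738785) (.opt (.leaf 398166225849409) (.opt (.leaf 398341277092929) (.opt (.leaf 398234873824552) (.opt .skip (.opt (.leaf 398305810058305) 
  (.opt (.leaf 398340169796673) (.opt .skip (.opt (.leaf 394936338941224) (.opt (.leaf 398443249011777) .skip)))))))))))))) (.opt (.leaf 398335807790337) (.opt (.leaf 398130757738785) (.opt (.node 2 10 (.opt (.leaf 390469644461090) 
  (.opt (.leaf 390469644461377) (.opt .skip (.opt (.leaf 398130757738785) (.opt (.leaf 398341278175297) (.opt (.node 2 3 (.opt (.leaf 390469644461090) (.opt (.leaf 398341278173281) (.opt .skip (.opt .skip (.opt (.leaf 398341278175297) 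
  (.opt (.leaf 398341278174273) (.opt (.leaf 390540580688961) (.opt (.leaf 398341274997825) (.opt (.leaf 390404178618657) (.opt (.leaf 398201693965377) (.opt (.leaf 390680164897857) 
  (.opt (.leaf 389334664716577) (.opt (.leaf 390741266506017) .skip)))))))))))))) (.opt (.node 4 5 (.opt (.leaf 398237161785444) (.opt (.leaf 398341278076033) (.opt (.leaf 398341278175297) (.opt (.leaf 398341278174273) 
  (.opt .skip 
  (.opt .skip 
  (.opt (.leaf 398341278141505) (.opt (.leaf 398341277092929) (.opt (.leaf 398237157690433) (.opt (.leaf 398237161884737) (.opt (.leaf 390475114846273) (.opt (.leaf 392666385032449) 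
  (.opt (.leaf 390477126116609) .skip)))))))))))))) (.opt (.leaf 390469644526849) (.opt (.leaf 398305810058305) (.opt (.leaf 390469644461121) (.opt .skip (.opt (.leaf 389334664716577) (.opt (.node 0 6 (.opt .skip (.opt (.leaf 390408577490113) 
  (.opt (.leaf 390469639350561) (.opt (.leaf 390540580696129) (.opt (.leaf 398341278141505) (.opt (.leaf 398437716860101) (.opt .skip (.opt (.leaf 398333591033031) (.opt (.leaf 398341243538497) 
  (.opt (.leaf 390469646626881) (.opt (.leaf 390408574312737) (.opt (.leaf 393801359567137) (.opt (.leaf 390469649769729) (.opt (.leaf 398333591033037) .skip))))))))))))))) .skip)))))))))))))) (.opt (.leaf 398341278175340) 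
  .skip))))))))))))))

/-- part of a refutation tree -/
def t11_3 : Tr :=
  (.node 5 12 (.opt (.node 2 11 (.opt (.leaf 398341278175330) 
  (.opt (.leaf 388199684971788) (.opt .skip (.opt (.node 2 5 (.opt (.leaf 398341278175330) (.opt (.leaf 390396595380524) (.opt .skip (.opt (.leaf 398341278174273) (.opt (.leaf 398341278175297) (.opt .skip (.opt (.leaf 398341278076037) 
  (.opt (.leaf 398341277092929) (.opt (.leaf 398345605614657) (.opt (.leaf 390469644461121) (.opt (.leaf 390406399597765) (.opt (.leaf 389334664716588) (.opt (.leaf 398341444865089) 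
  (.opt (.leaf 398341278184513) .skip))))))))))))))) (.opt (.leaf 398341278175297) (.opt (.leaf 398345607779393) (.opt (.leaf 398341278076037) (.opt (.leaf 398345607646341) (.opt (.node 0 1 (.opt .skip (.opt .skip (.opt (.leaf 398341278175330) 
  (.opt (.leaf 398341278175329) (.opt (.leaf 398345607779457) (.opt (.leaf 398345602437281) (.opt (.leaf 398341107225793) (.opt (.leaf 398341272833157) (.opt (.leaf 398345601354885) 
  (.opt (.leaf 396071318685737) (.opt (.leaf 396246503197829) (.opt (.leaf 388199684971788) (.opt (.leaf 398341440605317) (.opt (.leaf 396071318685741) .skip))))))))))))))) (.opt (.leaf 397206298430529) 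
  (.opt (.leaf 398095289621772) (.opt .skip (.opt (.leaf 400504833313857) (.opt (.leaf 401393824505100) .skip))))))))))))))) (.opt (.node 3 7 (.opt (.leaf 398341278172227) (.opt (.leaf 398341278175329) (.opt (.leaf 398341273915553) 
  (.opt .skip 
  (.opt (.leaf 398345607711809) (.opt (.leaf 398341277092929) (.opt (.leaf 398345607777345) (.opt .skip (.opt (.node 2 6 (.opt (.leaf 398345603519522) (.opt (.leaf 398345603519681) (.opt .skip (.opt (.leaf 398345607777345) 
  (.opt (.leaf 398341278141505) (.opt (.leaf 398345603519553) (.opt .skip (.opt (.leaf 398341273915553) (.opt (.leaf 398341243538497) (.opt (.leaf 398339132723361) (.opt (.leaf 398234874029441) 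
  (.opt (.leaf 389334664716673) (.opt (.leaf 398345538505793) (.opt (.leaf 398345607787585) .skip))))))))))))))) (.opt (.leaf 398340169796673) (.opt (.leaf 398130757738881) (.opt (.leaf 390469644461441) 
  (.opt (.leaf 398341284401313) (.opt (.leaf 398345608006721) .skip))))))))))))))) (.opt (.leaf 398345607779393) (.opt (.leaf 398341278174273) (.opt (.node 3 7 (.opt (.leaf 398345607779459) (.opt (.leaf 398341278175329) 
  (.opt (.leaf 398345471466561) (.opt .skip (.opt (.leaf 398345607711809) (.opt (.leaf 398341277092929) (.opt (.leaf 398345471462465) (.opt .skip (.opt (.node 1 5 (.opt (.leaf 398345469435077) (.opt .skip (.opt (.leaf 398345603519553) 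
  (.opt (.leaf 398341443849281) (.opt (.leaf 398345607779457) (.opt .skip (.opt (.leaf 398345603519681) (.opt (.leaf 398341277092929) (.opt (.leaf 398345605614657) (.opt (.leaf 398338024541249) 
  (.opt (.leaf 398199715269697) (.opt (.leaf 392739606891585) (.opt (.leaf 398341444865089) (.opt (.leaf 398345603519905) .skip))))))))))))))) (.opt (.leaf 398340169796673) (.opt (.leaf 398272632065089) 
  (.opt (.node 2 5 (.opt (.leaf 398341278175330) (.opt (.leaf 390477262330017) (.opt .skip (.opt (.leaf 398341443849281) (.opt (.leaf 398341278175297) (.opt .skip (.opt (.leaf 398341443852353) (.opt (.leaf 398341277092929) 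
  (.opt (.leaf 398345605614657) (.opt (.leaf 395012744547393) (.opt (.leaf 395009556876353) (.opt (.leaf 392739606891585) (.opt (.leaf 398341444865089) (.opt (.leaf 398341443859521) 
  .skip))))))))))))))) 
  (.opt (.leaf 398341284432961) (.opt (.leaf 398345608006721) .skip))))))))))))))) (.opt .skip (.opt (.leaf 398345538505793) (.opt (.leaf 398341277092929) (.opt (.leaf 398345605614657) (.opt (.node 3 7 (.opt (.leaf 398345607779459) 
  (.opt (.leaf 398341278175329) (.opt (.node 3 10 (.opt (.leaf 398345607779459) (.opt (.leaf 398341278175329) (.opt (.node 0 4 (.opt .skip (.opt (.leaf 398338024344705) (.opt (.leaf 398341278175297) (.opt (.leaf 398345607779459) 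
  (.opt .skip 
  (.opt (.leaf 398345607646341) (.opt (.leaf 398341278141505) (.opt (.leaf 398338024410177) (.opt (.leaf 398341176499265) (.opt (.leaf 398095289621769) (.opt (.leaf 398166331759681) 
  (.opt (.leaf 391604624205889) (.opt (.leaf 398345471466561) (.opt (.leaf 398338024344717) .skip))))))))))))))) (.opt .skip (.opt (.leaf 398166331759681) (.opt (.leaf 398341278174273) (.opt (.leaf 398345607777345) 
  (.opt (.leaf 398272624725057) (.opt (.leaf 398305810058305) (.opt (.leaf 398335807790145) (.opt .skip (.opt (.leaf 390469750365249) (.opt (.leaf 398444423416897) (.opt (.leaf 398473246743617) 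
  .skip))))))))))))))) 
  (.opt .skip 
  (.opt (.leaf 398338024410177) (.opt (.leaf 398341277092929) (.opt (.leaf 398345607777345) (.opt .skip (.opt (.leaf 398338024541249) (.opt (.leaf 398340169796673) (.opt (.leaf 398272624725057) 
  (.opt (.leaf 395012744547393) (.opt (.leaf 398338024672321) (.opt (.leaf 398338024705089) .skip))))))))))))))) (.opt (.node 5 8 (.opt (.node 1 2 (.opt (.leaf 398341278175330) (.opt .skip (.opt .skip (.opt (.leaf 398341278175329) (.opt (.leaf 398341278175297) 
  (.opt (.leaf 398445465769025) (.opt (.leaf 398341278076037) (.opt (.leaf 398341272833157) (.opt (.leaf 398445459344517) (.opt (.leaf 398201694069825) (.opt (.leaf 398059821504744) 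
  (.opt (.leaf 388199685108008) (.opt (.leaf 398201693974593) (.opt (.node 2 8 (.opt (.leaf 398341278175330) (.opt (.leaf 398445459344517) (.opt .skip (.opt (.leaf 398201693768097) (.opt (.leaf 398201693801537) 
  (.opt (.leaf 398445463604289) (.opt (.leaf 398341243538497) (.opt (.leaf 398445465635973) (.opt .skip (.opt (.leaf 398201694069825) (.opt (.leaf 398305810058305) (.opt (.leaf 396246507457601) 
  (.opt (.leaf 398201693974593) (.opt (.leaf 398341474159749) (.opt (.leaf 398201694128545) .skip)))))))))))))))) .skip))))))))))))))) (.opt (.node 3 8 (.opt (.leaf 398341278172227) (.opt (.leaf 398341278175329) (.opt (.leaf 398445460426913) 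
  (.opt .skip 
  (.opt (.leaf 398201693801537) (.opt (.leaf 398445463604289) (.opt (.leaf 398341243538497) (.opt (.leaf 398445465669793) (.opt .skip (.opt (.leaf 398201693965377) (.opt (.leaf 398305810058305) 
  (.opt (.leaf 396246507457601) (.opt (.leaf 398201694063681) (.opt (.leaf 398201694096449) .skip))))))))))))))) (.opt (.leaf 398445465769025) (.opt (.leaf 398341278174273) (.opt (.leaf 398201693801537) 
  (.opt .skip 
  (.opt (.leaf 398341243538497) (.opt (.leaf 398341277092929) (.opt .skip (.opt (.leaf 398444423416897) (.opt (.leaf 398305810058305) (.opt (.leaf 396246507457601) (.opt (.leaf 398341444865089) 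
  (.opt (.leaf 398341478419521) .skip))))))))))))))) (.opt (.leaf 400504833313857) (.opt .skip (.opt (.leaf 398345773386817) .skip)))))))))))))))

/-- part of a refutation tree -/
def t11_4 : Tr :=
  (.node 8 9 (.opt t11_1 
  (.opt t11_2 
  (.opt (.node 0 3 (.opt .skip 
  (.opt (.leaf 398341278175329) (.opt (.leaf 398341278175330) (.opt .skip (.opt (.node 3 6 (.opt (.leaf 398334870361219) (.opt (.leaf 398341278175329) (.opt (.node 3 4 (.opt (.leaf 398334870361219) (.opt (.leaf 398341110403169) 
  (.opt (.leaf 398341278175297) (.opt .skip (.opt .skip (.opt (.leaf 398341278174273) (.opt (.leaf 398341278141505) (.opt (.leaf 398341276080193) (.opt (.leaf 398341141862465) (.opt (.leaf 398336916168769) 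
  (.opt (.leaf 398130757738561) (.opt (.leaf 390469644461121) (.opt (.leaf 398341278076292) .skip)))))))))))))) (.opt .skip (.opt (.leaf 398341278141505) (.opt (.leaf 398341278174273) (.opt .skip (.opt (.leaf 398341107325092) 
  (.opt (.leaf 398341243538497) (.opt (.leaf 398335743858852) (.opt (.leaf 398130757738561) (.opt (.leaf 390469644461121) (.opt (.leaf 398341278403649) .skip)))))))))))))) (.opt (.leaf 398341278174273) 
  (.opt (.node 3 4 (.opt (.leaf 398334870361219) (.opt (.leaf 398341278175329) (.opt (.leaf 398341278109761) (.opt .skip (.opt .skip (.opt (.leaf 398341278174273) (.opt (.leaf 398341278141505) (.opt (.leaf 398334870261926) 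
  (.opt (.leaf 398341176495169) (.opt (.leaf 398336849059905) (.opt (.leaf 398130757738561) (.opt (.leaf 390469644461121) (.opt (.leaf 398341107486886) .skip)))))))))))))) (.opt (.leaf 398341107225799) 
  (.opt (.leaf 398334699411688) (.opt (.node 1 4 (.opt (.leaf 398335743858852) (.opt .skip (.opt (.leaf 398341278175297) (.opt (.leaf 398341278175329) (.opt .skip (.opt (.leaf 398335743858849) (.opt (.leaf 398341278141505) 
  (.opt (.leaf 398334699411681) (.opt (.leaf 398335807790337) (.opt (.leaf 398336916168769) (.opt (.leaf 398166225855553) (.opt (.leaf 391604624198721) (.opt (.leaf 398341278175617) 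
  .skip)))))))))))))) 
  (.opt (.leaf 398130757738561) (.opt (.leaf 390469644461121) (.opt (.leaf 398341278175340) .skip)))))))))))))) (.opt (.node 2 5 (.opt (.leaf 398341278175330) (.opt (.node 6 7 (.opt (.leaf 398341139633351) (.opt (.leaf 398341141862625) 
  (.opt (.leaf 398341141862465) (.opt (.leaf 398341278109857) (.opt (.leaf 398341278141505) (.opt (.leaf 398341277092929) (.opt .skip (.opt .skip (.opt (.leaf 398341243538497) (.opt (.leaf 398340169796673) 
  (.opt (.leaf 398237161853089) (.opt (.node 3 4 (.opt (.leaf 398341278172227) (.opt (.leaf 398341278175329) (.opt (.leaf 398341278175297) (.opt .skip (.opt .skip (.opt (.leaf 398341278174273) (.opt (.leaf 398341278141505) 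
  (.opt (.leaf 393801499970625) (.opt (.leaf 394936344415297) (.opt (.leaf 394936345431105) (.opt (.leaf 393874583456833) (.opt (.leaf 391604624198721) (.opt (.leaf 393874576380065) 
  .skip)))))))))))))) 
  (.opt (.leaf 398335944300705) .skip)))))))))))))) (.opt .skip (.opt (.leaf 398341278174273) (.opt (.leaf 398341278175297) (.opt .skip (.opt (.leaf 398341141862465) (.opt (.leaf 398341277092929) (.opt (.node 1 4 (.opt (.leaf 398335743858852) 
  (.opt .skip 
  (.opt (.leaf 398341278175297) (.opt (.leaf 398341278175329) (.opt .skip (.opt (.leaf 398335743858849) (.opt (.leaf 398341211032641) (.opt (.leaf 398335743791329) (.opt (.leaf 398335807790337) 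
  (.opt (.leaf 398336916168769) (.opt (.leaf 398166225849409) (.opt (.leaf 391604624198721) (.opt (.leaf 398341278175617) .skip)))))))))))))) (.opt (.leaf 398338024541249) (.opt (.leaf 398201693965377) 
  (.opt (.node 4 10 (.opt (.leaf 389334664716586) (.opt (.leaf 398335944103041) (.opt (.leaf 392739603714113) (.opt (.leaf 392739603942465) (.opt .skip (.opt (.leaf 398201693965377) (.opt (.leaf 398341278141505) 
  (.opt (.leaf 392670951509057) (.opt (.leaf 398305810058305) (.opt (.leaf 392739603745857) (.opt .skip (.opt (.leaf 391604624198721) (.opt (.leaf 392676320218177) .skip)))))))))))))) (.opt (.leaf 398341141868609) 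
  .skip)))))))))))))) 
  (.opt (.node 5 6 (.opt (.node 2 5 (.opt (.leaf 398341278175330) (.opt (.leaf 398341174264998) (.opt .skip (.opt (.leaf 398341278174273) (.opt (.leaf 398341278175297) (.opt .skip (.opt (.leaf 398341278076037) (.opt (.leaf 398341277092929) 
  (.opt (.leaf 398336916168769) (.opt (.leaf 398334699510981) (.opt (.leaf 398201693801537) (.opt (.leaf 392739603745857) (.opt (.leaf 398341278183489) .skip)))))))))))))) (.opt (.node 0 3 (.opt .skip (.opt (.leaf 398341278175329) 
  (.opt (.leaf 398337017844770) (.opt .skip (.opt (.leaf 398341278042212) (.opt (.leaf 398341278174273) (.opt (.leaf 398341176495169) (.opt (.leaf 398336916163649) (.opt (.leaf 398336851155105) 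
  (.opt (.leaf 398335810967713) (.opt (.leaf 398130894051489) (.opt (.node 2 10 (.opt (.leaf 398337017844770) (.opt (.leaf 390469644461377) (.opt .skip (.opt (.leaf 390680031762593) (.opt (.leaf 398341278175297) 
  (.opt (.leaf 398201693801537) (.opt (.leaf 398237161884737) (.opt (.leaf 398341176499265) (.opt (.leaf 398305810058305) (.opt (.leaf 390469644461121) (.opt .skip (.opt (.leaf 389334801029281) 
  (.opt (.leaf 390408577487009) .skip)))))))))))))) (.opt (.leaf 398341176330348) .skip)))))))))))))) (.opt (.leaf 398337017844801) (.opt (.leaf 398341278174273) (.opt (.leaf 398341278141505) (.opt .skip (.opt .skip (.opt (.leaf 398341277092929) 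
  (.opt (.leaf 398341243538497) (.opt (.leaf 398339132755009) (.opt (.leaf 398201693801537) (.opt (.leaf 392739603745857) (.opt (.node 2 12 (.opt (.leaf 398341278175330) (.opt (.leaf 398337017845121) 
  (.opt .skip 
  (.opt (.leaf 398341176691777) (.opt (.leaf 398341278175297) (.opt (.leaf 398337017844801) (.opt (.leaf 398341176694849) (.opt (.leaf 398341176499265) (.opt (.leaf 398341444865089) 
  (.opt (.leaf 398345538505793) (.opt (.leaf 398442211970113) (.opt (.leaf 400400717057089) (.opt .skip (.opt (.leaf 398341176702017) .skip))))))))))))))) .skip)))))))))))))) (.opt (.node 3 6 (.opt (.node 1 2 (.opt (.leaf 398341278175330) (.opt .skip (.opt .skip (.opt (.leaf 398341278175329) 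
  (.opt (.leaf 398341278175297) (.opt (.leaf 398341278172227) (.opt (.leaf 398341208901825) (.opt (.leaf 398341208901857) (.opt (.leaf 398338024539203) (.opt (.leaf 398334699413734) 
  (.opt (.leaf 398059821506790) (.opt (.leaf 388199685071078) (.opt (.leaf 398341208902017) .skip)))))))))))))) (.opt (.leaf 398341278175329) (.opt (.node 3 4 (.opt (.leaf 398338091583588) (.opt (.leaf 398338091583585) 
  (.opt (.leaf 398341278175297) (.opt .skip (.opt .skip (.opt (.leaf 398341278174273) (.opt (.leaf 398341211032641) (.opt (.leaf 398338024410177) (.opt (.leaf 398338024541249) (.opt (.leaf 398336918263873) 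
  (.opt (.leaf 398130759833665) (.opt (.leaf 390469746137153) (.opt (.leaf 398341209197633) .skip)))))))))))))) (.opt .skip (.opt (.leaf 398341211032641) (.opt (.leaf 398341278174273) (.opt .skip (.opt (.leaf 398341211130945) 
  (.opt (.leaf 398341243538497) (.opt (.node 3 7 (.opt (.node 0 1 (.opt .skip (.opt .skip (.opt (.leaf 398341278175330) (.opt (.leaf 398341278175329) (.opt (.leaf 398335736419527) (.opt (.leaf 398341278172227) (.opt (.leaf 398335807855809) 
  (.opt (.leaf 398341211128899) (.opt (.leaf 398335807790337) (.opt (.leaf 398333591033031) (.opt (.leaf 398059826844871) (.opt (.leaf 388199685039303) (.opt (.leaf 398339061418028) 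
  .skip)))))))))))))) 
  (.opt (.leaf 398341278175329) (.opt (.leaf 398335807790145) (.opt .skip (.opt (.leaf 398338024410177) (.opt (.leaf 398339129609281) (.opt (.leaf 398338091584577) (.opt .skip (.opt (.leaf 398338024541249) 
  (.opt (.leaf 398340169796673) (.opt (.leaf 398270477241409) (.opt (.leaf 395009422658625) (.opt (.leaf 398338024672321) .skip)))))))))))))) (.opt (.leaf 398237157690433) (.opt (.leaf 393874578213953) 
  (.opt (.leaf 398341211294785) .skip)))))))))))))) (.opt (.leaf 398341243538497) (.opt (.leaf 398340169796673) (.opt .skip (.opt .skip (.opt (.leaf 398305810058305) (.opt (.leaf 397206298430529) (.opt t11_3 .skip))))))))))))))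

/-- refutation tree for paths with 11 vertices -/
def t11 : Tr :=
  t11_4

lemma tc11 : chk 11 t11 none 12 [] = true := by decide +kernel

end Pool.Agent.X54.PO
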