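import Pool.Agent.X54.PO.Main
import Pool.Agent.X54.PO.Last
import Pool.Agent.X54.PO.TreesA
import Pool.Agent.X54.PO.T13
import Pool.Agent.X54.PO.T14
import Pool.Agent.X54.PO.T15
import Pool.Agent.X54.PO.T16

/-! The set `J(n) ∩ {5, …, 15}` for every `n`. -/

set_option autoImplicit false
open SimpleGraph

namespace Pool.Agent.X54.PO

theorem steps {V : Type} {G : SimpleGraph V} {k : ℕ} (h1 : 6 ≤ k) (h2 : k ≤ 15)
    (h3 : HasP G 3) (h4 : HasP G (k + 1)) : HasP G k := by
  interval_cases k
  · exact step tc6 h3 h4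
  · exact step tc7 h3 h4
  · exact step tc8 h3 h4
  · exact step tc9 h3 h4
  · exact step tc10 h3 h4
  · exact step tc11 h3 h4
  · exact step tc12 h3 h4
  · exact step tc13 h3 h4
  · exact step tc14 h3 h4
  · exact step tc15 h3 h4

theorem mainAll (n j : ℕ) (h5 : 5 ≤ j) (h : j ≤ 15) :
    j ∈ J n ↔ j = n ∨ (j = 5 ∧ 11 ≤ n) := by
  constructor
  · intro hj
    obtain ⟨-, hn, G, k1, k2⟩ := mem_J.1 hj
    by_cases hjn : j = n
    · exact Or.inl hjn
    · right
      by_cases hj5 : j = 5
      · rw [hj5] at hj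
        have := (main n).1 hj
        exact ⟨hj5, by omega⟩
      · exfalso
        exact k2 (steps (by omega) h (k1 3 (by omega) (by omega) (by omega))
          (k1 (j + 1) (by omega) (by omega) (by omega)))
  · rintro (rfl | ⟨rfl, h11⟩)
    · exact last_mem (by omega)
    · exact (main n).2 (Or.inr h11)

end Pool.Agent.X54.PO
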