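import Pool.Agent.X54.PO.Build

/-! `5 ∈ J(n)` if and only if `n = 5` or `n ≥ 11`. -/

set_option autoImplicit false
set_option linter.unusedTactic false
set_option linter.unusedVariables false
open SimpleGraph

namespace Pool.Agent.X54.PO

lemma c01 {n i : ℕ} (hn : 11 ≤ n) (h3 : 3 ≤ i) (hi : i ≤ n) (h5 : i ≠ 5) : LP E n i 0 1 := by
  obtain h | h | h | h : i = 3 ∨ i = 4 ∨ (6 ≤ i ∧ i ≤ n - 1) ∨ i = n := by omega
  · subst h; apply ex [0, 2, 1] <;> (first
    | rfl
    | (simp (disch := omega) [Sy, E, List.isChain_cons_cons] <;> omega)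
    | (simp [Sy, E, List.isChain_cons_cons] <;> omega)
    | (simp [Sy, E, List.isChain_cons_cons])
    | omega)
  · subst h; apply ex [0, 2, 3, 1] <;> (first
    | rfl
    | (simp (disch := omega) [Sy, E, List.isChain_cons_cons] <;> omega)
    | (simp [Sy, E, List.isChain_cons_cons] <;> omega)
    | (simp [Sy, E, List.isChain_cons_cons])
    | omega)
  · apply mk (r := 0) (s := 5) (t := 7) (k := i - 4) [0, 2] [3, 1] <;> (first
    | rfl
    | (simp (disch := omega) [Sy, E, List.isChain_cons_cons] <;> omega)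
    | (simp [Sy, E, List.isChain_cons_cons] <;> omega)
    | (simp [Sy, E, List.isChain_cons_cons])
    | omega)
  · apply mk (r := 0) (s := 5) (t := 9) (k := n - 5) [0, 3, 2] [4, 1] <;> (first
    | rfl
    | (simp (disch := omega) [Sy, E, List.isChain_cons_cons] <;> omega)
    | (simp [Sy, E, List.isChain_cons_cons] <;> omega)
    | (simp [Sy, E, List.isChain_cons_cons])
    | omega)

lemma split5 {n i : ℕ} (hn : 11 ≤ n) (h3 : 3 ≤ i) (hi : i ≤ n) (h5 : i ≠ 5) :
    i = 3 ∨ i = 4 ∨ (6 ≤ i ∧ i ≤ n - 2) ∨ i = n - 1 ∨ i = n := by omega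

lemma c02 {n i : ℕ} (hn : 11 ≤ n) (h3 : 3 ≤ i) (hi : i ≤ n) (h5 : i ≠ 5) : LP E n i 0 2 := by
  obtain h | h | h | h | h := split5 hn h3 hi h5
  · subst h; apply ex [0, 1, 2] <;> (first
    | rfl
    | (simp (disch := omega) [Sy, E, List.isChain_cons_cons] <;> omega)
    | (simp [Sy, E, List.isChain_cons_cons] <;> omega)
    | (simp [Sy, E, List.isChain_cons_cons])
    | omega)
  · subst h; apply ex [0, 1, 3, 2] <;> (first
    | rfl
    | (simp (disch := omega) [Sy, E, List.isChain_cons_cons] <;> omega)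
    | (simp [Sy, E, List.isChain_cons_cons] <;> omega)
    | (simp [Sy, E, List.isChain_cons_cons])
    | omega)
  · apply mk (r := 0) (s := 7) (t := 5) (k := i - 3) [0, 3] [2] <;> (first
    | rfl
    | (simp (disch := omega) [Sy, E, List.isChain_cons_cons] <;> omega)
    | (simp [Sy, E, List.isChain_cons_cons] <;> omega)
    | (simp [Sy, E, List.isChain_cons_cons])
    | omega)
  · apply mk (r := 0) (s := 7) (t := 5) (k := n - 5) [0, 1, 3] [2] <;> (first
    | rfl
    | (simp (disch := omega) [Sy, E, List.isChain_cons_cons] <;> omega)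
    | (simp [Sy, E, List.isChain_cons_cons] <;> omega)
    | (simp [Sy, E, List.isChain_cons_cons])
    | omega)
  · apply mk (r := 0) (s := 7) (t := 5) (k := n - 5) [0, 4, 1, 3] [2] <;> (first
    | rfl
    | (simp (disch := omega) [Sy, E, List.isChain_cons_cons] <;> omega)
    | (simp [Sy, E, List.isChain_cons_cons] <;> omega)
    | (simp [Sy, E, List.isChain_cons_cons])
    | omega)

lemma c03 {n i : ℕ} (hn : 11 ≤ n) (h3 : 3 ≤ i) (hi : i ≤ n) (h5 : i ≠ 5) : LP E n i 0 3 := by
  obtain h | h | h | h | h := split5 hn h3 hi h5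
  · subst h; apply ex [0, 1, 3] <;> (first
    | rfl
    | (simp (disch := omega) [Sy, E, List.isChain_cons_cons] <;> omega)
    | (simp [Sy, E, List.isChain_cons_cons] <;> omega)
    | (simp [Sy, E, List.isChain_cons_cons])
    | omega)
  · subst h; apply ex [0, 1, 2, 3] <;> (first
    | rfl
    | (simp (disch := omega) [Sy, E, List.isChain_cons_cons] <;> omega)
    | (simp [Sy, E, List.isChain_cons_cons] <;> omega)
    | (simp [Sy, E, List.isChain_cons_cons])
    | omega)
  · apply mk (r := 0) (s := 5) (t := 7) (k := i - 3) [0, 2] [3] <;> (first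
    | rfl
    | (simp (disch := omega) [Sy, E, List.isChain_cons_cons] <;> omega)
    | (simp [Sy, E, List.isChain_cons_cons] <;> omega)
    | (simp [Sy, E, List.isChain_cons_cons])
    | omega)
  · apply mk (r := 0) (s := 5) (t := 7) (k := n - 5) [0, 1, 2] [3] <;> (first
    | rfl
    | (simp (disch := omega) [Sy, E, List.isChain_cons_cons] <;> omega)
    | (simp [Sy, E, List.isChain_cons_cons] <;> omega)
    | (simp [Sy, E, List.isChain_cons_cons])
    | omega)
  · apply mk (r := 0) (s := 5) (t := 7) (k := n - 5) [0, 4, 1, 2] [3] <;> (first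
    | rfl
    | (simp (disch := omega) [Sy, E, List.isChain_cons_cons] <;> omega)
    | (simp [Sy, E, List.isChain_cons_cons] <;> omega)
    | (simp [Sy, E, List.isChain_cons_cons])
    | omega)

lemma c04 {n i : ℕ} (hn : 11 ≤ n) (h3 : 3 ≤ i) (hi : i ≤ n) (h5 : i ≠ 5) : LP E n i 0 4 := by
  obtain h | h | h | h | h := split5 hn h3 hi h5
  · subst h; apply ex [0, 1, 4] <;> (first
    | rfl
    | (simp (disch := omega) [Sy, E, List.isChain_cons_cons] <;> omega)
    | (simp [Sy, E, List.isChain_cons_cons] <;> omega)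
    | (simp [Sy, E, List.isChain_cons_cons])
    | omega)
  · subst h; apply ex [0, 2, 1, 4] <;> (first
    | rfl
    | (simp (disch := omega) [Sy, E, List.isChain_cons_cons] <;> omega)
    | (simp [Sy, E, List.isChain_cons_cons] <;> omega)
    | (simp [Sy, E, List.isChain_cons_cons])
    | omega)
  · apply mk (r := 0) (s := 5) (t := 9) (k := i - 3) [0, 2] [4] <;> (first
    | rfl
    | (simp (disch := omega) [Sy, E, List.isChain_cons_cons] <;> omega)
    | (simp [Sy, E, List.isChain_cons_cons] <;> omega)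
    | (simp [Sy, E, List.isChain_cons_cons])
    | omega)
  · apply mk (r := 0) (s := 5) (t := 9) (k := n - 5) [0, 1, 2] [4] <;> (first
    | rfl
    | (simp (disch := omega) [Sy, E, List.isChain_cons_cons] <;> omega)
    | (simp [Sy, E, List.isChain_cons_cons] <;> omega)
    | (simp [Sy, E, List.isChain_cons_cons])
    | omega)
  · apply mk (r := 0) (s := 5) (t := 9) (k := n - 5) [0, 1, 3, 2] [4] <;> (first
    | rfl
    | (simp (disch := omega) [Sy, E, List.isChain_cons_cons] <;> omega)
    | (simp [Sy, E, List.isChain_cons_cons] <;> omega)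
    | (simp [Sy, E, List.isChain_cons_cons])
    | omega)

lemma c12 {n i : ℕ} (hn : 11 ≤ n) (h3 : 3 ≤ i) (hi : i ≤ n) (h5 : i ≠ 5) : LP E n i 1 2 := by
  obtain h | h | h | h | h := split5 hn h3 hi h5
  · subst h; apply ex [1, 0, 2] <;> (first
    | rfl
    | (simp (disch := omega) [Sy, E, List.isChain_cons_cons] <;> omega)
    | (simp [Sy, E, List.isChain_cons_cons] <;> omega)
    | (simp [Sy, E, List.isChain_cons_cons])
    | omega)
  · subst h; apply ex [1, 0, 3, 2] <;> (first
    | rfl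
    | (simp (disch := omega) [Sy, E, List.isChain_cons_cons] <;> omega)
    | (simp [Sy, E, List.isChain_cons_cons] <;> omega)
    | (simp [Sy, E, List.isChain_cons_cons])
    | omega)
  · apply mk (r := 0) (s := 7) (t := 5) (k := i - 3) [1, 3] [2] <;> (first
    | rfl
    | (simp (disch := omega) [Sy, E, List.isChain_cons_cons] <;> omega)
    | (simp [Sy, E, List.isChain_cons_cons] <;> omega)
    | (simp [Sy, E, List.isChain_cons_cons])
    | omega)
  · apply mk (r := 0) (s := 7) (t := 5) (k := n - 5) [1, 0, 3] [2] <;> (first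
    | rfl
    | (simp (disch := omega) [Sy, E, List.isChain_cons_cons] <;> omega)
    | (simp [Sy, E, List.isChain_cons_cons] <;> omega)
    | (simp [Sy, E, List.isChain_cons_cons])
    | omega)
  · apply mk (r := 0) (s := 7) (t := 5) (k := n - 5) [1, 4, 0, 3] [2] <;> (first
    | rfl
    | (simp (disch := omega) [Sy, E, List.isChain_cons_cons] <;> omega)
    | (simp [Sy, E, List.isChain_cons_cons] <;> omega)
    | (simp [Sy, E, List.isChain_cons_cons])
    | omega)

lemma c13 {n i : ℕ} (hn : 11 ≤ n) (h3 : 3 ≤ i) (hi : i ≤ n) (h5 : i ≠ 5) : LP E n i 1 3 := by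
  obtain h | h | h | h | h := split5 hn h3 hi h5
  · subst h; apply ex [1, 0, 3] <;> (first
    | rfl
    | (simp (disch := omega) [Sy, E, List.isChain_cons_cons] <;> omega)
    | (simp [Sy, E, List.isChain_cons_cons] <;> omega)
    | (simp [Sy, E, List.isChain_cons_cons])
    | omega)
  · subst h; apply ex [1, 0, 2, 3] <;> (first
    | rfl
    | (simp (disch := omega) [Sy, E, List.isChain_cons_cons] <;> omega)
    | (simp [Sy, E, List.isChain_cons_cons] <;> omega)
    | (simp [Sy, E, List.isChain_cons_cons])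
    | omega)
  · apply mk (r := 0) (s := 5) (t := 7) (k := i - 3) [1, 2] [3] <;> (first
    | rfl
    | (simp (disch := omega) [Sy, E, List.isChain_cons_cons] <;> omega)
    | (simp [Sy, E, List.isChain_cons_cons] <;> omega)
    | (simp [Sy, E, List.isChain_cons_cons])
    | omega)
  · apply mk (r := 0) (s := 5) (t := 7) (k := n - 5) [1, 0, 2] [3] <;> (first
    | rfl
    | (simp (disch := omega) [Sy, E, List.isChain_cons_cons] <;> omega)
    | (simp [Sy, E, List.isChain_cons_cons] <;> omega)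
    | (simp [Sy, E, List.isChain_cons_cons])
    | omega)
  · apply mk (r := 0) (s := 5) (t := 7) (k := n - 5) [1, 4, 0, 2] [3] <;> (first
    | rfl
    | (simp (disch := omega) [Sy, E, List.isChain_cons_cons] <;> omega)
    | (simp [Sy, E, List.isChain_cons_cons] <;> omega)
    | (simp [Sy, E, List.isChain_cons_cons])
    | omega)

lemma c14 {n i : ℕ} (hn : 11 ≤ n) (h3 : 3 ≤ i) (hi : i ≤ n) (h5 : i ≠ 5) : LP E n i 1 4 := by
  obtain h | h | h | h | h := split5 hn h3 hi h5
  · subst h; apply ex [1, 0, 4] <;> (first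
    | rfl
    | (simp (disch := omega) [Sy, E, List.isChain_cons_cons] <;> omega)
    | (simp [Sy, E, List.isChain_cons_cons] <;> omega)
    | (simp [Sy, E, List.isChain_cons_cons])
    | omega)
  · subst h; apply ex [1, 2, 0, 4] <;> (first
    | rfl
    | (simp (disch := omega) [Sy, E, List.isChain_cons_cons] <;> omega)
    | (simp [Sy, E, List.isChain_cons_cons] <;> omega)
    | (simp [Sy, E, List.isChain_cons_cons])
    | omega)
  · apply mk (r := 0) (s := 5) (t := 9) (k := i - 3) [1, 2] [4] <;> (first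
    | rfl
    | (simp (disch := omega) [Sy, E, List.isChain_cons_cons] <;> omega)
    | (simp [Sy, E, List.isChain_cons_cons] <;> omega)
    | (simp [Sy, E, List.isChain_cons_cons])
    | omega)
  · apply mk (r := 0) (s := 5) (t := 9) (k := n - 5) [1, 0, 2] [4] <;> (first
    | rfl
    | (simp (disch := omega) [Sy, E, List.isChain_cons_cons] <;> omega)
    | (simp [Sy, E, List.isChain_cons_cons] <;> omega)
    | (simp [Sy, E, List.isChain_cons_cons])
    | omega)
  · apply mk (r := 0) (s := 5) (t := 9) (k := n - 5) [1, 0, 3, 2] [4] <;> (first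
    | rfl
    | (simp (disch := omega) [Sy, E, List.isChain_cons_cons] <;> omega)
    | (simp [Sy, E, List.isChain_cons_cons] <;> omega)
    | (simp [Sy, E, List.isChain_cons_cons])
    | omega)

lemma split4 {n i : ℕ} (hn : 11 ≤ n) (h3 : 3 ≤ i) (hi : i ≤ n) :
    i = 3 ∨ (4 ≤ i ∧ i ≤ n - 3) ∨ (n - 2 ≤ i ∧ i ≤ n - 1) ∨ i = n := by omega

lemma c23 {n i : ℕ} (hn : 11 ≤ n) (h3 : 3 ≤ i) (hi : i ≤ n) : LP E n i 2 3 := by
  obtain h | h | h | h := split4 hn h3 hi
  · subst h; apply ex [2, 0, 3] <;> (first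
    | rfl
    | (simp (disch := omega) [Sy, E, List.isChain_cons_cons] <;> omega)
    | (simp [Sy, E, List.isChain_cons_cons] <;> omega)
    | (simp [Sy, E, List.isChain_cons_cons])
    | omega)
  · apply mk (r := 0) (s := 5) (t := 7) (k := i - 2) [2] [3] <;> (first
    | rfl
    | (simp (disch := omega) [Sy, E, List.isChain_cons_cons] <;> omega)
    | (simp [Sy, E, List.isChain_cons_cons] <;> omega)
    | (simp [Sy, E, List.isChain_cons_cons])
    | omega)
  · apply mk (r := 0) (s := 9) (t := 7) (k := i - 4) [2, 0, 4] [3] <;> (first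
    | rfl
    | (simp (disch := omega) [Sy, E, List.isChain_cons_cons] <;> omega)
    | (simp [Sy, E, List.isChain_cons_cons] <;> omega)
    | (simp [Sy, E, List.isChain_cons_cons])
    | omega)
  · apply mk (r := 0) (s := 9) (t := 7) (k := n - 5) [2, 0, 1, 4] [3] <;> (first
    | rfl
    | (simp (disch := omega) [Sy, E, List.isChain_cons_cons] <;> omega)
    | (simp [Sy, E, List.isChain_cons_cons] <;> omega)
    | (simp [Sy, E, List.isChain_cons_cons])
    | omega)

lemma c24 {n i : ℕ} (hn : 11 ≤ n) (h3 : 3 ≤ i) (hi : i ≤ n) : LP E n i 2 4 := by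
  obtain h | h | h | h := split4 hn h3 hi
  · subst h; apply ex [2, 0, 4] <;> (first
    | rfl
    | (simp (disch := omega) [Sy, E, List.isChain_cons_cons] <;> omega)
    | (simp [Sy, E, List.isChain_cons_cons] <;> omega)
    | (simp [Sy, E, List.isChain_cons_cons])
    | omega)
  · apply mk (r := 0) (s := 5) (t := 9) (k := i - 2) [2] [4] <;> (first
    | rfl
    | (simp (disch := omega) [Sy, E, List.isChain_cons_cons] <;> omega)
    | (simp [Sy, E, List.isChain_cons_cons] <;> omega)
    | (simp [Sy, E, List.isChain_cons_cons])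
    | omega)
  · apply mk (r := 0) (s := 7) (t := 9) (k := i - 4) [2, 0, 3] [4] <;> (first
    | rfl
    | (simp (disch := omega) [Sy, E, List.isChain_cons_cons] <;> omega)
    | (simp [Sy, E, List.isChain_cons_cons] <;> omega)
    | (simp [Sy, E, List.isChain_cons_cons])
    | omega)
  · apply mk (r := 0) (s := 7) (t := 9) (k := n - 5) [2, 0, 1, 3] [4] <;> (first
    | rfl
    | (simp (disch := omega) [Sy, E, List.isChain_cons_cons] <;> omega)
    | (simp [Sy, E, List.isChain_cons_cons] <;> omega)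
    | (simp [Sy, E, List.isChain_cons_cons])
    | omega)

lemma c34 {n i : ℕ} (hn : 11 ≤ n) (h3 : 3 ≤ i) (hi : i ≤ n) : LP E n i 3 4 := by
  obtain h | h | h | h := split4 hn h3 hi
  · subst h; apply ex [3, 0, 4] <;> (first
    | rfl
    | (simp (disch := omega) [Sy, E, List.isChain_cons_cons] <;> omega)
    | (simp [Sy, E, List.isChain_cons_cons] <;> omega)
    | (simp [Sy, E, List.isChain_cons_cons])
    | omega)
  · apply mk (r := 0) (s := 7) (t := 9) (k := i - 2) [3] [4] <;> (first
    | rfl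
    | (simp (disch := omega) [Sy, E, List.isChain_cons_cons] <;> omega)
    | (simp [Sy, E, List.isChain_cons_cons] <;> omega)
    | (simp [Sy, E, List.isChain_cons_cons])
    | omega)
  · apply mk (r := 0) (s := 5) (t := 9) (k := i - 4) [3, 0, 2] [4] <;> (first
    | rfl
    | (simp (disch := omega) [Sy, E, List.isChain_cons_cons] <;> omega)
    | (simp [Sy, E, List.isChain_cons_cons] <;> omega)
    | (simp [Sy, E, List.isChain_cons_cons])
    | omega)
  · apply mk (r := 0) (s := 5) (t := 9) (k := n - 5) [3, 0, 1, 2] [4] <;> (first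
    | rfl
    | (simp (disch := omega) [Sy, E, List.isChain_cons_cons] <;> omega)
    | (simp [Sy, E, List.isChain_cons_cons] <;> omega)
    | (simp [Sy, E, List.isChain_cons_cons])
    | omega)

lemma cls (r : ℕ) (hr : 5 ≤ r) : ∃ a, (a = 2 ∧ r ≤ 6) ∨ (a = 3 ∧ 7 ≤ r ∧ r ≤ 8) ∨ (a = 4 ∧ 9 ≤ r) := by
  obtain h | h | h : r ≤ 6 ∨ (7 ≤ r ∧ r ≤ 8) ∨ 9 ≤ r := by omega
  · exact ⟨2, Or.inl ⟨rfl, h⟩⟩
  · exact ⟨3, Or.inr (Or.inl ⟨rfl, h⟩)⟩
  · exact ⟨4, Or.inr (Or.inr ⟨rfl, h⟩)⟩

lemma s1 (r : ℕ) : ∃ s, (s = 5 ∨ s = 6) ∧ s ≠ r := by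
  by_cases h : r = 5
  · exact ⟨6, Or.inr rfl, by omega⟩
  · exact ⟨5, Or.inl rfl, by omega⟩

lemma s2 (r : ℕ) : ∃ s, (s = 7 ∨ s = 8) ∧ s ≠ r := by
  by_cases h : r = 7
  · exact ⟨8, Or.inr rfl, by omega⟩
  · exact ⟨7, Or.inl rfl, by omega⟩

lemma s3 (r : ℕ) : ∃ s, (s = 9 ∨ s = 10) ∧ s ≠ r := by
  by_cases h : r = 9
  · exact ⟨10, Or.inr rfl, by omega⟩
  · exact ⟨9, Or.inl rfl, by omega⟩

lemma split6 {n i : ℕ} (hn : 11 ≤ n) (h3 : 3 ≤ i) (hi : i ≤ n) (h5 : i ≠ 5) :
    i = 3 ∨ i = 4 ∨ (6 ≤ i ∧ i ≤ n - 3) ∨ i = n - 2 ∨ i = n - 1 ∨ i = n := by omega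

lemma c0r {n i r : ℕ} (hn : 11 ≤ n) (h3 : 3 ≤ i) (hi : i ≤ n) (h5 : i ≠ 5) (hr : 5 ≤ r)
    (hr' : r < n) : LP E n i 0 r := by
  obtain ⟨s, hs, hsr⟩ := s1 r
  obtain h | h | h | h | h | h := split6 hn h3 hi h5
  · subst h
    obtain ⟨a, ha⟩ := cls r hr
    rcases ha with ⟨rfl, ha⟩ | ⟨rfl, ha⟩ | ⟨rfl, ha⟩
    · apply ex [0, 2, r] <;> (first
    | rfl
    | (simp (disch := omega) [Sy, E, List.isChain_cons_cons] <;> omega)
    | (simp [Sy, E, List.isChain_cons_cons] <;> omega)
    | (simp [Sy, E, List.isChain_cons_cons])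
    | omega)
    · apply ex [0, 3, r] <;> (first
    | rfl
    | (simp (disch := omega) [Sy, E, List.isChain_cons_cons] <;> omega)
    | (simp [Sy, E, List.isChain_cons_cons] <;> omega)
    | (simp [Sy, E, List.isChain_cons_cons])
    | omega)
    · apply ex [0, 4, r] <;> (first
    | rfl
    | (simp (disch := omega) [Sy, E, List.isChain_cons_cons] <;> omega)
    | (simp [Sy, E, List.isChain_cons_cons] <;> omega)
    | (simp [Sy, E, List.isChain_cons_cons])
    | omega)
  · subst h
    obtain ⟨a, ha⟩ := cls r hr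
    rcases ha with ⟨rfl, ha⟩ | ⟨rfl, ha⟩ | ⟨rfl, ha⟩
    · apply ex [0, 1, 2, r] <;> (first
    | rfl
    | (simp (disch := omega) [Sy, E, List.isChain_cons_cons] <;> omega)
    | (simp [Sy, E, List.isChain_cons_cons] <;> omega)
    | (simp [Sy, E, List.isChain_cons_cons])
    | omega)
    · apply ex [0, 1, 3, r] <;> (first
    | rfl
    | (simp (disch := omega) [Sy, E, List.isChain_cons_cons] <;> omega)
    | (simp [Sy, E, List.isChain_cons_cons] <;> omega)
    | (simp [Sy, E, List.isChain_cons_cons])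
    | omega)
    · apply ex [0, 1, 4, r] <;> (first
    | rfl
    | (simp (disch := omega) [Sy, E, List.isChain_cons_cons] <;> omega)
    | (simp [Sy, E, List.isChain_cons_cons] <;> omega)
    | (simp [Sy, E, List.isChain_cons_cons])
    | omega)
  · apply mk (r := 0) (s := s) (t := r) (k := i - 2) [0, 2] [] <;> (first
    | rfl
    | (simp (disch := omega) [Sy, E, List.isChain_cons_cons] <;> omega)
    | (simp [Sy, E, List.isChain_cons_cons] <;> omega)
    | (simp [Sy, E, List.isChain_cons_cons])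
    | omega)
  · apply mk (r := 0) (s := s) (t := r) (k := n - 5) [0, 1, 2] [] <;> (first
    | rfl
    | (simp (disch := omega) [Sy, E, List.isChain_cons_cons] <;> omega)
    | (simp [Sy, E, List.isChain_cons_cons] <;> omega)
    | (simp [Sy, E, List.isChain_cons_cons])
    | omega)
  · apply mk (r := 0) (s := s) (t := r) (k := n - 5) [0, 4, 1, 2] [] <;> (first
    | rfl
    | (simp (disch := omega) [Sy, E, List.isChain_cons_cons] <;> omega)
    | (simp [Sy, E, List.isChain_cons_cons] <;> omega)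
    | (simp [Sy, E, List.isChain_cons_cons])
    | omega)
  · apply mk (r := 0) (s := s) (t := r) (k := n - 5) [0, 4, 1, 3, 2] [] <;> (first
    | rfl
    | (simp (disch := omega) [Sy, E, List.isChain_cons_cons] <;> omega)
    | (simp [Sy, E, List.isChain_cons_cons] <;> omega)
    | (simp [Sy, E, List.isChain_cons_cons])
    | omega)

lemma c1r {n i r : ℕ} (hn : 11 ≤ n) (h3 : 3 ≤ i) (hi : i ≤ n) (h5 : i ≠ 5) (hr : 5 ≤ r)
    (hr' : r < n) : LP E n i 1 r := by
  obtain ⟨s, hs, hsr⟩ := s1 r
  obtain h | h | h | h | h | h := split6 hn h3 hi h5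
  · subst h
    obtain ⟨a, ha⟩ := cls r hr
    rcases ha with ⟨rfl, ha⟩ | ⟨rfl, ha⟩ | ⟨rfl, ha⟩
    · apply ex [1, 2, r] <;> (first
    | rfl
    | (simp (disch := omega) [Sy, E, List.isChain_cons_cons] <;> omega)
    | (simp [Sy, E, List.isChain_cons_cons] <;> omega)
    | (simp [Sy, E, List.isChain_cons_cons])
    | omega)
    · apply ex [1, 3, r] <;> (first
    | rfl
    | (simp (disch := omega) [Sy, E, List.isChain_cons_cons] <;> omega)
    | (simp [Sy, E, List.isChain_cons_cons] <;> omega)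
    | (simp [Sy, E, List.isChain_cons_cons])
    | omega)
    · apply ex [1, 4, r] <;> (first
    | rfl
    | (simp (disch := omega) [Sy, E, List.isChain_cons_cons] <;> omega)
    | (simp [Sy, E, List.isChain_cons_cons] <;> omega)
    | (simp [Sy, E, List.isChain_cons_cons])
    | omega)
  · subst h
    obtain ⟨a, ha⟩ := cls r hr
    rcases ha with ⟨rfl, ha⟩ | ⟨rfl, ha⟩ | ⟨rfl, ha⟩
    · apply ex [1, 0, 2, r] <;> (first
    | rfl
    | (simp (disch := omega) [Sy, E, List.isChain_cons_cons] <;> omega)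
    | (simp [Sy, E, List.isChain_cons_cons] <;> omega)
    | (simp [Sy, E, List.isChain_cons_cons])
    | omega)
    · apply ex [1, 0, 3, r] <;> (first
    | rfl
    | (simp (disch := omega) [Sy, E, List.isChain_cons_cons] <;> omega)
    | (simp [Sy, E, List.isChain_cons_cons] <;> omega)
    | (simp [Sy, E, List.isChain_cons_cons])
    | omega)
    · apply ex [1, 0, 4, r] <;> (first
    | rfl
    | (simp (disch := omega) [Sy, E, List.isChain_cons_cons] <;> omega)
    | (simp [Sy, E, List.isChain_cons_cons] <;> omega)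
    | (simp [Sy, E, List.isChain_cons_cons])
    | omega)
  · apply mk (r := 0) (s := s) (t := r) (k := i - 2) [1, 2] [] <;> (first
    | rfl
    | (simp (disch := omega) [Sy, E, List.isChain_cons_cons] <;> omega)
    | (simp [Sy, E, List.isChain_cons_cons] <;> omega)
    | (simp [Sy, E, List.isChain_cons_cons])
    | omega)
  · apply mk (r := 0) (s := s) (t := r) (k := n - 5) [1, 0, 2] [] <;> (first
    | rfl
    | (simp (disch := omega) [Sy, E, List.isChain_cons_cons] <;> omega)
    | (simp [Sy, E, List.isChain_cons_cons] <;> omega)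
    | (simp [Sy, E, List.isChain_cons_cons])
    | omega)
  · apply mk (r := 0) (s := s) (t := r) (k := n - 5) [1, 4, 0, 2] [] <;> (first
    | rfl
    | (simp (disch := omega) [Sy, E, List.isChain_cons_cons] <;> omega)
    | (simp [Sy, E, List.isChain_cons_cons] <;> omega)
    | (simp [Sy, E, List.isChain_cons_cons])
    | omega)
  · apply mk (r := 0) (s := s) (t := r) (k := n - 5) [1, 4, 0, 3, 2] [] <;> (first
    | rfl
    | (simp (disch := omega) [Sy, E, List.isChain_cons_cons] <;> omega)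
    | (simp [Sy, E, List.isChain_cons_cons] <;> omega)
    | (simp [Sy, E, List.isChain_cons_cons])
    | omega)

lemma split7 {n i : ℕ} (hn : 11 ≤ n) (h3 : 3 ≤ i) (hi : i ≤ n) :
    (3 ≤ i ∧ i ≤ n - 4) ∨ (n - 3 ≤ i ∧ i ≤ n - 2) ∨ i = n - 1 ∨ i = n := by omega

lemma c2r {n i r : ℕ} (hn : 11 ≤ n) (h3 : 3 ≤ i) (hi : i ≤ n) (hr : 5 ≤ r)
    (hr' : r < n) : LP E n i 2 r := by
  obtain ⟨s, hs, hsr⟩ := s1 r
  obtain ⟨s', hs', hsr'⟩ := s2 r
  obtain h | h | h | h := split7 hn h3 hi
  · apply mk (r := 0) (s := s) (t := r) (k := i - 1) [2] [] <;> (first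
    | rfl
    | (simp (disch := omega) [Sy, E, List.isChain_cons_cons] <;> omega)
    | (simp [Sy, E, List.isChain_cons_cons] <;> omega)
    | (simp [Sy, E, List.isChain_cons_cons])
    | omega)
  · apply mk (r := 0) (s := s') (t := r) (k := i - 3) [2, 0, 3] [] <;> (first
    | rfl
    | (simp (disch := omega) [Sy, E, List.isChain_cons_cons] <;> omega)
    | (simp [Sy, E, List.isChain_cons_cons] <;> omega)
    | (simp [Sy, E, List.isChain_cons_cons])
    | omega)
  · apply mk (r := 0) (s := s') (t := r) (k := n - 5) [2, 0, 1, 3] [] <;> (first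
    | rfl
    | (simp (disch := omega) [Sy, E, List.isChain_cons_cons] <;> omega)
    | (simp [Sy, E, List.isChain_cons_cons] <;> omega)
    | (simp [Sy, E, List.isChain_cons_cons])
    | omega)
  · apply mk (r := 0) (s := s') (t := r) (k := n - 5) [2, 0, 4, 1, 3] [] <;> (first
    | rfl
    | (simp (disch := omega) [Sy, E, List.isChain_cons_cons] <;> omega)
    | (simp [Sy, E, List.isChain_cons_cons] <;> omega)
    | (simp [Sy, E, List.isChain_cons_cons])
    | omega)

lemma c3r {n i r : ℕ} (hn : 11 ≤ n) (h3 : 3 ≤ i) (hi : i ≤ n) (hr : 5 ≤ r)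
    (hr' : r < n) : LP E n i 3 r := by
  obtain ⟨s, hs, hsr⟩ := s2 r
  obtain ⟨s', hs', hsr'⟩ := s1 r
  obtain h | h | h | h := split7 hn h3 hi
  · apply mk (r := 0) (s := s) (t := r) (k := i - 1) [3] [] <;> (first
    | rfl
    | (simp (disch := omega) [Sy, E, List.isChain_cons_cons] <;> omega)
    | (simp [Sy, E, List.isChain_cons_cons] <;> omega)
    | (simp [Sy, E, List.isChain_cons_cons])
    | omega)
  · apply mk (r := 0) (s := s') (t := r) (k := i - 3) [3, 0, 2] [] <;> (first
    | rfl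
    | (simp (disch := omega) [Sy, E, List.isChain_cons_cons] <;> omega)
    | (simp [Sy, E, List.isChain_cons_cons] <;> omega)
    | (simp [Sy, E, List.isChain_cons_cons])
    | omega)
  · apply mk (r := 0) (s := s') (t := r) (k := n - 5) [3, 0, 1, 2] [] <;> (first
    | rfl
    | (simp (disch := omega) [Sy, E, List.isChain_cons_cons] <;> omega)
    | (simp [Sy, E, List.isChain_cons_cons] <;> omega)
    | (simp [Sy, E, List.isChain_cons_cons])
    | omega)
  · apply mk (r := 0) (s := s') (t := r) (k := n - 5) [3, 0, 4, 1, 2] [] <;> (first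
    | rfl
    | (simp (disch := omega) [Sy, E, List.isChain_cons_cons] <;> omega)
    | (simp [Sy, E, List.isChain_cons_cons] <;> omega)
    | (simp [Sy, E, List.isChain_cons_cons])
    | omega)

lemma c4r {n i r : ℕ} (hn : 11 ≤ n) (h3 : 3 ≤ i) (hi : i ≤ n) (hr : 5 ≤ r)
    (hr' : r < n) : LP E n i 4 r := by
  obtain ⟨s, hs, hsr⟩ := s3 r
  obtain ⟨s', hs', hsr'⟩ := s1 r
  obtain h | h | h | h := split7 hn h3 hi
  · apply mk (r := 0) (s := s) (t := r) (k := i - 1) [4] [] <;> (first
    | rfl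
    | (simp (disch := omega) [Sy, E, List.isChain_cons_cons] <;> omega)
    | (simp [Sy, E, List.isChain_cons_cons] <;> omega)
    | (simp [Sy, E, List.isChain_cons_cons])
    | omega)
  · apply mk (r := 0) (s := s') (t := r) (k := i - 3) [4, 0, 2] [] <;> (first
    | rfl
    | (simp (disch := omega) [Sy, E, List.isChain_cons_cons] <;> omega)
    | (simp [Sy, E, List.isChain_cons_cons] <;> omega)
    | (simp [Sy, E, List.isChain_cons_cons])
    | omega)
  · apply mk (r := 0) (s := s') (t := r) (k := n - 5) [4, 0, 1, 2] [] <;> (first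
    | rfl
    | (simp (disch := omega) [Sy, E, List.isChain_cons_cons] <;> omega)
    | (simp [Sy, E, List.isChain_cons_cons] <;> omega)
    | (simp [Sy, E, List.isChain_cons_cons])
    | omega)
  · apply mk (r := 0) (s := s') (t := r) (k := n - 5) [4, 0, 3, 1, 2] [] <;> (first
    | rfl
    | (simp (disch := omega) [Sy, E, List.isChain_cons_cons] <;> omega)
    | (simp [Sy, E, List.isChain_cons_cons] <;> omega)
    | (simp [Sy, E, List.isChain_cons_cons])
    | omega)

lemma split8 {n i : ℕ} (hn : 11 ≤ n) (h3 : 3 ≤ i) (hi : i ≤ n) :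
    (3 ≤ i ∧ i ≤ n - 5) ∨ (n - 4 ≤ i ∧ i ≤ n - 2) ∨ i = n - 1 ∨ i = n := by omega

lemma crr {n i r q : ℕ} (hn : 11 ≤ n) (h3 : 3 ≤ i) (hi : i ≤ n) (hr : 5 ≤ r)
    (hrq : r < q) (hq : q < n) : LP E n i r q := by
  obtain ⟨s, hs, hsr⟩ := s2 q
  obtain ⟨s', hs', hsr'⟩ := s1 q
  obtain ⟨a, ha⟩ := cls r hr
  obtain h | h | h | h := split8 hn h3 hi
  · apply mk (r := 0) (s := r) (t := q) (k := i) [] [] <;> (first
    | rfl
    | (simp (disch := omega) [Sy, E, List.isChain_cons_cons] <;> omega)
    | (simp [Sy, E, List.isChain_cons_cons] <;> omega)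
    | (simp [Sy, E, List.isChain_cons_cons])
    | omega)
  · rcases ha with ⟨rfl, ha⟩ | ⟨rfl, ha⟩ | ⟨rfl, ha⟩
    · apply mk (r := r) (s := s) (t := q) (k := i - 4) [r, 2, 0, 3] [] <;> (first
    | rfl
    | (simp (disch := omega) [Sy, E, List.isChain_cons_cons] <;> omega)
    | (simp [Sy, E, List.isChain_cons_cons] <;> omega)
    | (simp [Sy, E, List.isChain_cons_cons])
    | omega)
    · apply mk (r := r) (s := s') (t := q) (k := i - 4) [r, 3, 0, 2] [] <;> (first
    | rfl
    | (simp (disch := omega) [Sy, E, List.isChain_cons_cons] <;> omega)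
    | (simp [Sy, E, List.isChain_cons_cons] <;> omega)
    | (simp [Sy, E, List.isChain_cons_cons])
    | omega)
    · apply mk (r := r) (s := s') (t := q) (k := i - 4) [r, 4, 0, 2] [] <;> (first
    | rfl
    | (simp (disch := omega) [Sy, E, List.isChain_cons_cons] <;> omega)
    | (simp [Sy, E, List.isChain_cons_cons] <;> omega)
    | (simp [Sy, E, List.isChain_cons_cons])
    | omega)
  · rcases ha with ⟨rfl, ha⟩ | ⟨rfl, ha⟩ | ⟨rfl, ha⟩
    · apply mk (r := r) (s := s) (t := q) (k := n - 6) [r, 2, 0, 1, 3] [] <;> (first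
    | rfl
    | (simp (disch := omega) [Sy, E, List.isChain_cons_cons] <;> omega)
    | (simp [Sy, E, List.isChain_cons_cons] <;> omega)
    | (simp [Sy, E, List.isChain_cons_cons])
    | omega)
    · apply mk (r := r) (s := s') (t := q) (k := n - 6) [r, 3, 0, 1, 2] [] <;> (first
    | rfl
    | (simp (disch := omega) [Sy, E, List.isChain_cons_cons] <;> omega)
    | (simp [Sy, E, List.isChain_cons_cons] <;> omega)
    | (simp [Sy, E, List.isChain_cons_cons])
    | omega)
    · apply mk (r := r) (s := s') (t := q) (k := n - 6) [r, 4, 0, 1, 2] [] <;> (first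
    | rfl
    | (simp (disch := omega) [Sy, E, List.isChain_cons_cons] <;> omega)
    | (simp [Sy, E, List.isChain_cons_cons] <;> omega)
    | (simp [Sy, E, List.isChain_cons_cons])
    | omega)
  · rcases ha with ⟨rfl, ha⟩ | ⟨rfl, ha⟩ | ⟨rfl, ha⟩
    · apply mk (r := r) (s := s) (t := q) (k := n - 6) [r, 2, 0, 4, 1, 3] [] <;> (first
    | rfl
    | (simp (disch := omega) [Sy, E, List.isChain_cons_cons] <;> omega)
    | (simp [Sy, E, List.isChain_cons_cons] <;> omega)
    | (simp [Sy, E, List.isChain_cons_cons])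
    | omega)
    · apply mk (r := r) (s := s') (t := q) (k := n - 6) [r, 3, 0, 4, 1, 2] [] <;> (first
    | rfl
    | (simp (disch := omega) [Sy, E, List.isChain_cons_cons] <;> omega)
    | (simp [Sy, E, List.isChain_cons_cons] <;> omega)
    | (simp [Sy, E, List.isChain_cons_cons])
    | omega)
    · apply mk (r := r) (s := s') (t := q) (k := n - 6) [r, 4, 0, 3, 1, 2] [] <;> (first
    | rfl
    | (simp (disch := omega) [Sy, E, List.isChain_cons_cons] <;> omega)
    | (simp [Sy, E, List.isChain_cons_cons] <;> omega)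
    | (simp [Sy, E, List.isChain_cons_cons])
    | omega)

lemma all_LP {n i : ℕ} (hn : 11 ≤ n) (h3 : 3 ≤ i) (hi : i ≤ n) (h5 : i ≠ 5) (a b : ℕ)
    (hab : a < b) (hb : b < n) : LP E n i a b := by
  by_cases hb5 : 5 ≤ b
  · obtain h | h | h | h | h | h : a = 0 ∨ a = 1 ∨ a = 2 ∨ a = 3 ∨ a = 4 ∨ 5 ≤ a := by omega
    · subst h; exact c0r hn h3 hi h5 hb5 hb
    · subst h; exact c1r hn h3 hi h5 hb5 hb
    · subst h; exact c2r hn h3 hi hb5 hb
    · subst h; exact c3r hn h3 hi hb5 hb
    · subst h; exact c4r hn h3 hi hb5 hb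
    · exact crr hn h3 hi h hab hb
  · have hb4 : b ≤ 4 := by omega
    have ha3 : a ≤ 3 := by omega
    interval_cases b <;> interval_cases a <;> first
      | exact c01 hn h3 hi h5
      | exact c02 hn h3 hi h5
      | exact c03 hn h3 hi h5
      | exact c04 hn h3 hi h5
      | exact c12 hn h3 hi h5
      | exact c13 hn h3 hi h5
      | exact c14 hn h3 hi h5
      | exact c23 hn h3 hi
      | exact c24 hn h3 hi
      | exact c34 hn h3 hi
      | omega

lemma not_P5 {n : ℕ} (hn : 11 ≤ n) : ¬ HasP (gr E n) 5 := by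
  intro h
  obtain ⟨a, w, c, h1, h2, h3, h4, h5, h6, h7, h8, h9⟩ :=
    p5 h (x := ⟨0, by omega⟩) (y := ⟨1, by omega⟩) (by simp)
  rw [ne_eq, Fin.ext_iff] at h5 h6 h7 h8 h9
  change Sy E _ _ at h1 h2 h3 h4
  simp only [Sy, E] at h1 h2 h3 h4 h5 h6 h7 h8 h9
  omega

lemma five_mem {n : ℕ} (hn : 11 ≤ n) : 5 ∈ J n :=
  mem_J.2 ⟨by omega, by omega, gr E n, fun i h3 hi h5 => hasP_of (all_LP hn h3 hi h5),
    not_P5 hn⟩

/-! ### order five -/

lemma ex5 {i a b : ℕ} (l : List ℕ) (h1 : l.Nodup) (h2 : l.IsChain (Sy E5)) (h3 : ∀ x ∈ l, x < 5)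
    (h4 : l.head? = some a) (h5 : l.getLast? = some b) (h6 : l.length = i) : LP E5 5 i a b :=
  ⟨l, h1, h2, h3, h4, h5, h6⟩

lemma three5 : HasP (gr E5 5) 3 := by
  apply hasP_of
  intro a b hab hb
  interval_cases b <;> interval_cases a
  · apply ex5 [0, 2, 1] <;> (first | rfl | (simp [Sy, E5, List.isChain_cons_cons]))
  · apply ex5 [0, 1, 2] <;> (first | rfl | (simp [Sy, E5, List.isChain_cons_cons]))
  · apply ex5 [1, 0, 2] <;> (first | rfl | (simp [Sy, E5, List.isChain_cons_cons]))
  · apply ex5 [0, 2, 3] <;> (first | rfl | (simp [Sy, E5, List.isChain_cons_cons]))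
  · apply ex5 [1, 0, 3] <;> (first | rfl | (simp [Sy, E5, List.isChain_cons_cons]))
  · apply ex5 [2, 0, 3] <;> (first | rfl | (simp [Sy, E5, List.isChain_cons_cons]))
  · apply ex5 [0, 1, 4] <;> (first | rfl | (simp [Sy, E5, List.isChain_cons_cons]))
  · apply ex5 [1, 0, 4] <;> (first | rfl | (simp [Sy, E5, List.isChain_cons_cons]))
  · apply ex5 [2, 0, 4] <;> (first | rfl | (simp [Sy, E5, List.isChain_cons_cons]))
  · apply ex5 [3, 0, 4] <;> (first | rfl | (simp [Sy, E5, List.isChain_cons_cons]))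

lemma four5 : HasP (gr E5 5) 4 := by
  apply hasP_of
  intro a b hab hb
  interval_cases b <;> interval_cases a
  · apply ex5 [0, 3, 2, 1] <;> (first | rfl | (simp [Sy, E5, List.isChain_cons_cons]))
  · apply ex5 [0, 4, 1, 2] <;> (first | rfl | (simp [Sy, E5, List.isChain_cons_cons]))
  · apply ex5 [1, 4, 0, 2] <;> (first | rfl | (simp [Sy, E5, List.isChain_cons_cons]))
  · apply ex5 [0, 1, 2, 3] <;> (first | rfl | (simp [Sy, E5, List.isChain_cons_cons]))
  · apply ex5 [1, 4, 0, 3] <;> (first | rfl | (simp [Sy, E5, List.isChain_cons_cons]))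
  · apply ex5 [2, 1, 0, 3] <;> (first | rfl | (simp [Sy, E5, List.isChain_cons_cons]))
  · apply ex5 [0, 2, 1, 4] <;> (first | rfl | (simp [Sy, E5, List.isChain_cons_cons]))
  · apply ex5 [1, 2, 0, 4] <;> (first | rfl | (simp [Sy, E5, List.isChain_cons_cons]))
  · apply ex5 [2, 3, 0, 4] <;> (first | rfl | (simp [Sy, E5, List.isChain_cons_cons]))
  · apply ex5 [3, 2, 0, 4] <;> (first | rfl | (simp [Sy, E5, List.isChain_cons_cons]))

lemma not5 : ¬ HasP (gr E5 5) 5 := by
  intro h
  obtain ⟨a, w, c, h1, h2, h3, h4, h5, h6, h7, h8, h9⟩ :=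
    p5 h (x := ⟨0, by omega⟩) (y := ⟨1, by omega⟩) (by simp)
  rw [ne_eq, Fin.ext_iff] at h5 h6 h7 h8 h9
  change Sy E5 _ _ at h1 h2 h3 h4
  have := a.isLt
  have := w.isLt
  have := c.isLt
  simp only [Sy, E5] at h1 h2 h3 h4 h5 h6 h7 h8 h9
  omega

lemma five_mem5 : 5 ∈ J 5 := by
  refine mem_J.2 ⟨by omega, by omega, gr E5 5, fun i h3 hi h5 => ?_, not5⟩
  obtain rfl | rfl : i = 3 ∨ i = 4 := by omega
  · exact three5
  · exact four5

theorem main (n : ℕ) : 5 ∈ J n ↔ n = 5 ∨ 11 ≤ n := by
  constructor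
  · intro h
    obtain ⟨-, hn, G, h1, h2⟩ := mem_J.1 h
    by_cases h5 : n = 5
    · exact Or.inl h5
    · right
      have := lower (G := G) (by simpa using hn) (h1 3 (by omega) (by omega) (by omega))
        (h1 4 (by omega) (by omega) (by omega))
        (by rw [Fintype.card_fin]; exact h1 n (by omega) le_rfl h5) h2
      simpa using this
  · rintro (rfl | h)
    · exact five_mem5
    · exact five_mem h

end Pool.Agent.X54.PO
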