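import Pool.Agent.X54.PO.Basic

/-! For `n ≥ 7` the properties `P_3` and `P_n` imply `P_6`. -/

set_option autoImplicit false
open SimpleGraph

namespace Pool.Agent.X54.PO

variable {V : Type}

/-- construction of a path with six vertices -/
lemma mk6 {G : SimpleGraph V} {u a x y c v : V} (h1 : G.Adj u a) (h2 : G.Adj a x) (h3 : G.Adj x y)
    (h4 : G.Adj y c) (h4' : G.Adj c v) (h5 : u ≠ x) (h5' : u ≠ y) (h6 : u ≠ c) (h7 : u ≠ v)
    (h8 : a ≠ y) (h8' : a ≠ c) (h9 : a ≠ v) (h10 : x ≠ c) (h10' : x ≠ v) (h11 : y ≠ v) :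
    ∃ p : G.Walk u v, p.IsPath ∧ p.support.length = 6 := by
  refine ⟨Walk.cons h1 (Walk.cons h2 (Walk.cons h3 (Walk.cons h4 (Walk.cons h4' Walk.nil)))), ?_,
    by simp⟩
  rw [Walk.isPath_def]
  simp [h5, h5', h6, h7, h8, h8', h9, h10, h10', h11, h1.ne, h2.ne, h3.ne, h4.ne, h4'.ne]

section

variable [Fintype V] {G : SimpleGraph V}

/-- the vertices different from `u` and `v` -/
def In (u v x : V) : Prop := x ≠ u ∧ x ≠ v

/-- the vertices adjacent to neither `u` nor `v` -/
def Rr (G : SimpleGraph V) (u v x : V) : Prop := x ≠ u ∧ x ≠ v ∧ ¬ G.Adj u x ∧ ¬ G.Adj v x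

/-- there is no cut vertex separating `K` from `u` and `v` -/
lemma noCut (hH : HasP G (Fintype.card V)) {u v : V} (huv : u ≠ v) (K : V → Prop) (e r₀ : V)
    (hu : ¬ K u) (hv : ¬ K v) (hr : K r₀) (hK : ∀ s, K s → ∀ y, G.Adj s y → K y ∨ y = e) :
    False := by
  obtain ⟨g, hg0, hg1, hg2, hg3, hg4⟩ := ham hH huv
  obtain ⟨i₀, hi₀, hgi₀⟩ := hg4 r₀
  have hR0 : ¬ K (g 0) := by rw [hg0]; exact hu
  have hR1 : ¬ K (g (Fintype.card V - 1)) := by rw [hg1]; exact hv
  have hRi : K (g i₀) := by rw [hgi₀]; exact hr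
  obtain ⟨i, hi1, hi2, hi3, hi4⟩ := cross (Q := fun i => ¬ K (g i)) (Nat.zero_le i₀) hR0
    (not_not.2 hRi)
  obtain ⟨j, hj1, hj2, hj3, hj4⟩ := cross (Q := fun i => K (g i)) hi₀ hRi hR1
  rw [not_not] at hi4
  have a1 : g i = e := ((hK _ hi4 _ (hg2 i (by omega)).symm).resolve_left hi3)
  have a2 : g (j + 1) = e := ((hK _ hj3 _ (hg2 j (by omega))).resolve_left hj4)
  have := hg3 i (j + 1) (by omega) (by omega) (a1.trans a2.symm)
  omega

/-- the forbidden configuration -/
def NoSix (G : SimpleGraph V) (u v : V) : Prop :=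
  ∀ a x y c, In u v a → In u v x → In u v y → In u v c → G.Adj a x → G.Adj x y → G.Adj y c →
    a ≠ y → x ≠ c → a ≠ c → G.Adj u a → G.Adj v c → False

lemma NoSix.swap {u v : V} (h : NoSix G u v) : NoSix G v u := by
  intro a x y c h1 h2 h3 h4 h5 h6 h7 h8 h9 h10 h11 h12
  exact h c y x a ⟨h4.2, h4.1⟩ ⟨h3.2, h3.1⟩ ⟨h2.2, h2.1⟩ ⟨h1.2, h1.1⟩ h7.symm h6.symm h5.symm
    h9.symm h8.symm h10.symm h12 h11

/-- what is known about the vertices of `R` -/
def Struct (G : SimpleGraph V) (u v d : V) : Prop :=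
  ∀ r, Rr G u v r → ∃ x, In u v x ∧ G.Adj d x ∧ G.Adj x r ∧ G.Adj r d ∧
    (∀ z, G.Adj r z → z = d ∨ z = x) ∧
    (∀ z, G.Adj x z → z = u ∨ z = v ∨ z = d ∨ Rr G u v z)

/-- the last step, in one of the two directions -/
lemma caseI {u v d : V} (hQ : NoSix G u v) (hd : G.Adj u d ∧ G.Adj d v) (n : ℕ) (hn : 7 ≤ n)
    (g : ℕ → V) (hg0 : g 0 = u) (hg1 : g (n - 1) = v)
    (hg2 : ∀ i, i < n - 1 → G.Adj (g i) (g (i + 1)))
    (hg3 : ∀ i j, i ≤ n - 1 → j ≤ n - 1 → g i = g j → i = j)
    (hS : Struct G u v d) (m : ℕ) (hm : 1 ≤ m) (hm' : m ≤ n - 2) (hr : Rr G u v (g m))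
    (h1 : g (m - 1) = d) : False := by
  have hIn : ∀ i, 1 ≤ i → i ≤ n - 2 → In u v (g i) := by
    intro i h2 h3
    refine ⟨fun h => ?_, fun h => ?_⟩
    · have := hg3 i 0 (by omega) (by omega) (h.trans hg0.symm); omega
    · have := hg3 i (n - 1) (by omega) (by omega) (h.trans hg1.symm); omega
  -- positions of the vertices of `R`
  have pos : ∀ i, i ≤ n - 1 → Rr G u v (g i) → 2 ≤ i ∧ i ≤ n - 3 := by
    intro i hi hri
    have c1 : i ≠ 0 := by rintro rfl; exact hri.1 hg0
    have c2 : i ≠ n - 1 := by intro h; rw [h] at hri; exact hri.2.1 hg1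
    have c3 : i ≠ 1 := by
      rintro rfl
      have := hg2 0 (by omega)
      rw [hg0] at this
      exact hri.2.2.1 this
    have c4 : i ≠ n - 2 := by
      intro h
      have := hg2 (n - 2) (by omega)
      rw [show n - 2 + 1 = n - 1 by omega, hg1] at this
      rw [h] at hri
      exact hri.2.2.2 this.symm
    omega
  have posd : ∀ i, i ≤ n - 1 → Rr G u v (g i) → g (i - 1) = d ∨ g (i + 1) = d := by
    intro i hi hri
    obtain ⟨p1, p2⟩ := pos i hi hri
    obtain ⟨x, -, -, -, -, hx, -⟩ := hS _ hri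
    have e1 := hg2 (i - 1) (by omega)
    rw [show i - 1 + 1 = i by omega] at e1
    have e2 := hg2 i (by omega)
    rcases hx _ e1.symm with h | h
    · exact Or.inl h
    · rcases hx _ e2 with h' | h'
      · exact Or.inr h'
      · have := hg3 (i - 1) (i + 1) (by omega) (by omega) (h.trans h'.symm)
        omega
  obtain ⟨p1, p2⟩ := pos m (by omega) hr
  obtain ⟨x, hx1, hx2, hx3, hx4, hx5, hx6⟩ := hS _ hr
  have hx : g (m + 1) = x := by
    rcases hx5 _ (hg2 m (by omega)) with h | h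
    · have := hg3 (m + 1) (m - 1) (by omega) (by omega) (h.trans h1.symm)
      omega
    · exact h
  -- `x` is the last vertex before `v`
  have hmn : m + 1 = n - 2 := by
    by_contra hcon
    have e := hg2 (m + 1) (by omega)
    rw [hx] at e
    rcases hx6 _ e with h | h | h | h
    · exact (hIn (m + 1 + 1) (by omega) (by omega)).1 h
    · exact (hIn (m + 1 + 1) (by omega) (by omega)).2 h
    · have := hg3 (m + 1 + 1) (m - 1) (by omega) (by omega) (h.trans h1.symm)
      omega
    · rcases posd _ (by omega) h with h' | h'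
      · have := hg3 (m + 1 + 1 - 1) (m - 1) (by omega) (by omega) (h'.trans h1.symm)
        omega
      · have := hg3 (m + 1 + 1 + 1) (m - 1) (by have := pos _ (by omega) h; omega) (by omega)
          (h'.trans h1.symm)
        omega
  have hvx : G.Adj v x := by
    have := hg2 (n - 2) (by omega)
    rw [show n - 2 + 1 = n - 1 by omega, hg1, ← hmn, hx] at this
    exact this.symm
  have hdpos : g (n - 4) = d := by rw [← h1]; congr 1; omega
  have hxpos : g (n - 2) = x := by rw [← hx]; congr 1; omega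
  have e1 := hg2 (n - 5) (by omega)
  rw [show n - 5 + 1 = n - 4 by omega, hdpos] at e1
  have e2 := hg2 (n - 6) (by omega)
  rw [show n - 6 + 1 = n - 5 by omega] at e2
  have ne : ∀ i j, i ≤ n - 1 → j ≤ n - 1 → i ≠ j → g i ≠ g j :=
    fun i j hi hj hij h => hij (hg3 i j hi hj h)
  by_cases h7 : n = 7
  · subst h7
    have e3 := hg2 0 (by omega)
    rw [hg0] at e3
    refine hQ (g (7 - 6)) (g (7 - 5)) d x (hIn _ (by omega) (by omega)) (hIn _ (by omega) (by omega))
      ⟨hd.1.ne', hd.2.ne⟩ hx1 e2 e1 hx2 ?_ ?_ ?_ e3 hvx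
    · rw [← hdpos]; exact ne _ _ (by omega) (by omega) (by omega)
    · rw [← hxpos]; exact ne _ _ (by omega) (by omega) (by omega)
    · rw [← hxpos]; exact ne _ _ (by omega) (by omega) (by omega)
  · have e3 := hg2 (n - 7) (by omega)
    rw [show n - 7 + 1 = n - 6 by omega] at e3
    have hI3 := hIn (n - 7) (by omega) (by omega)
    have hR3 : Rr G u v (g (n - 7)) := by
      refine ⟨hI3.1, hI3.2, fun h => ?_, fun h => ?_⟩
      · refine hQ (g (n - 7)) (g (n - 6)) (g (n - 5)) d hI3 (hIn _ (by omega) (by omega))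
          (hIn _ (by omega) (by omega)) ⟨hd.1.ne', hd.2.ne⟩ e3 e2 e1 ?_ ?_ ?_ h hd.2.symm
        · exact ne _ _ (by omega) (by omega) (by omega)
        · rw [← hdpos]; exact ne _ _ (by omega) (by omega) (by omega)
        · rw [← hdpos]; exact ne _ _ (by omega) (by omega) (by omega)
      · refine hQ d (g (n - 5)) (g (n - 6)) (g (n - 7)) ⟨hd.1.ne', hd.2.ne⟩
          (hIn _ (by omega) (by omega)) (hIn _ (by omega) (by omega)) hI3 e1.symm e2.symm e3.symm
          ?_ ?_ ?_ hd.1 h
        · rw [← hdpos]; exact ne _ _ (by omega) (by omega) (by omega)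
        · exact ne _ _ (by omega) (by omega) (by omega)
        · rw [← hdpos]; exact ne _ _ (by omega) (by omega) (by omega)
    rcases posd _ (by omega) hR3 with h | h
    · have := hg3 (n - 7 - 1) (n - 4) (by omega) (by omega) (h.trans hdpos.symm)
      omega
    · have := hg3 (n - 7 + 1) (n - 4) (by omega) (by omega) (h.trans hdpos.symm)
      omega

theorem six (hn : 7 ≤ Fintype.card V) (h3 : HasP G 3) (hH : HasP G (Fintype.card V)) :
    HasP G 6 := by
  classical
  by_contra h6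
  unfold HasP at h6
  push Not at h6
  obtain ⟨u, v, huv, hno⟩ := h6
  have hQ : NoSix G u v := by
    intro a x y c h1 h2 h3' h4 h5 h6 h7 h8 h9 h10 h11 h12
    obtain ⟨p, hp1, hp2⟩ := mk6 h11 h5 h6 h7 h12.symm h2.1.symm h3'.1.symm h4.1.symm huv h8 h10 h1.2
      h9 h2.2 h3'.2
    exact hno p hp1 hp2
  obtain ⟨d, hd1, hd2⟩ := p3 h3 huv
  have hdI : In u v d := ⟨hd1.ne', hd2.ne⟩
  -- paths with four vertices from `d`
  have QD : ∀ x y z, In u v x → In u v y → In u v z → G.Adj d x → G.Adj x y → G.Adj y z → d ≠ y →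
      x ≠ z → d ≠ z → Rr G u v z := by
    intro x y z h1 h2 h3' h4 h5 h6 h7 h8 h9
    refine ⟨h3'.1, h3'.2, fun h => ?_, fun h => ?_⟩
    · exact hQ.swap d x y z ⟨hdI.2, hdI.1⟩ ⟨h1.2, h1.1⟩ ⟨h2.2, h2.1⟩ ⟨h3'.2, h3'.1⟩ h4 h5 h6 h7 h8
        h9 hd2.symm h
    · exact hQ d x y z hdI h1 h2 h3' h4 h5 h6 h7 h8 h9 hd1 h
  -- neighbours of `R` in `N(u)` and `N(v)`
  have hRA : ∀ r, Rr G u v r → ∃ a, In u v a ∧ G.Adj u a ∧ G.Adj a r := by
    intro r hr
    obtain ⟨w, hw1, hw2⟩ := p3 h3 hr.1.symm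
    refine ⟨w, ⟨hw1.ne', ?_⟩, hw1, hw2⟩
    rintro rfl
    exact hr.2.2.2 hw2
  have hRC : ∀ r, Rr G u v r → ∃ c, In u v c ∧ G.Adj v c ∧ G.Adj c r := by
    intro r hr
    obtain ⟨w, hw1, hw2⟩ := p3 h3 hr.2.1.symm
    refine ⟨w, ⟨?_, hw1.ne'⟩, hw1, hw2⟩
    rintro rfl
    exact hr.2.2.1 hw2
  -- adjacent vertices of `R`
  have hpair : ∀ r s, Rr G u v r → Rr G u v s → G.Adj r s → ∀ a c, In u v a → In u v c →
      G.Adj u a → G.Adj v c → G.Adj a r → G.Adj c s → a = c := by
    intro r s hr hs hrs a c ha hc h1 h2 h4 h5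
    by_contra hac
    refine hQ a r s c ha ⟨hr.1, hr.2.1⟩ ⟨hs.1, hs.2.1⟩ hc h4 hrs h5.symm ?_ ?_ hac h1 h2
    · rintro rfl; exact hs.2.2.1 h1
    · rintro rfl; exact hr.2.2.2 h2
  have hind : ∀ r s, Rr G u v r → Rr G u v s → ¬ G.Adj r s := by
    intro r₀ s₀ hr₀ hs₀ hrs₀
    -- all neighbours of `r` outside `R` coincide
    have key : ∀ r s, Rr G u v r → Rr G u v s → G.Adj r s → ∃ e, ¬ Rr G u v e ∧ G.Adj r e ∧
        G.Adj s e ∧ (∀ y, G.Adj r y → Rr G u v y ∨ y = e) ∧
        (∀ y, G.Adj s y → Rr G u v y ∨ y = e) := by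
      intro r s hr hs hrs
      obtain ⟨a, ha1, ha2, ha3⟩ := hRA r hr
      obtain ⟨c, hc1, hc2, hc3⟩ := hRC r hr
      obtain ⟨a', ha1', ha2', ha3'⟩ := hRA s hs
      obtain ⟨c', hc1', hc2', hc3'⟩ := hRC s hs
      have e1 : a = c' := hpair r s hr hs hrs a c' ha1 hc1' ha2 hc2' ha3 hc3'
      have e2 : a' = c := hpair s r hs hr hrs.symm a' c ha1' hc1 ha2' hc2 ha3' hc3
      have e3 : a' = c' := by
        have h1 : G.Adj a' r := by rw [e2]; exact hc3
        exact hpair r s hr hs hrs a' c' ha1' hc1' ha2' hc2' h1 hc3'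
      have e4 : a = a' := e1.trans e3.symm
      have aux : ∀ r s, Rr G u v r → Rr G u v s → G.Adj r s → G.Adj a r → G.Adj a s →
          ∀ y, G.Adj r y → Rr G u v y ∨ y = a := by
        intro r s hr hs hrs har has y hy
        have hyI : In u v y := by
          refine ⟨?_, ?_⟩
          · rintro rfl; exact hr.2.2.1 hy.symm
          · rintro rfl; exact hr.2.2.2 hy.symm
        by_cases h1 : G.Adj u y
        · right
          exact hpair r s hr hs hrs y a hyI ha1 h1 (by rw [e1]; exact hc2') hy.symm has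
        · by_cases h2 : G.Adj v y
          · right
            exact (hpair s r hs hr hrs.symm a y ha1 hyI ha2 h2 has hy.symm).symm
          · exact Or.inl ⟨hyI.1, hyI.2, h1, h2⟩
      have has : G.Adj a s := by rw [e4]; exact ha3'
      refine ⟨a, fun h => h.2.2.1 ha2, ha3.symm, has.symm, aux r s hr hs hrs ha3 has,
        aux s r hs hr hrs.symm has ha3⟩
    obtain ⟨e, he1, he2, he3, he4, he5⟩ := key r₀ s₀ hr₀ hs₀ hrs₀
    refine noCut hH huv (fun s => Rr G u v s ∧ G.Adj s e ∧ ∀ y, G.Adj s y → Rr G u v y ∨ y = e)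
      e r₀ (fun h => h.1.1 rfl) (fun h => h.1.2.1 rfl) ⟨hr₀, he2, he4⟩ ?_
    rintro s ⟨hs1, hs2, hs3⟩ y hy
    rcases hs3 y hy with h | h
    · left
      obtain ⟨e', k1, k2, k3, k4, k5⟩ := key s y hs1 h hy
      have hee : e = e' := by
        rcases k4 e hs2 with h' | h'
        · exact absurd h' he1
        · exact h'
      rw [← hee] at k3 k5
      exact ⟨h, k3, k5⟩
    · exact Or.inr h
  -- the structure of `R`
  have hS : Struct G u v d := by
    intro r hr
    have hrI : In u v r := ⟨hr.1, hr.2.1⟩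
    have hdr : d ≠ r := by rintro rfl; exact hr.2.2.1 hd1
    obtain ⟨x, hx1, hx2⟩ := p3 h3 hdr
    have hxI : In u v x := by
      refine ⟨?_, ?_⟩
      · rintro rfl; exact hr.2.2.1 hx2
      · rintro rfl; exact hr.2.2.2 hx2
    have hN : ∀ z, G.Adj r z → z = d ∨ z = x := by
      intro z hz
      by_contra hcon
      push Not at hcon
      have hzI : In u v z := by
        refine ⟨?_, ?_⟩
        · rintro rfl; exact hr.2.2.1 hz.symm
        · rintro rfl; exact hr.2.2.2 hz.symm
      exact hind r z hr (QD x r z hxI hrI hzI hx1 hx2 hz hdr hcon.2.symm hcon.1.symm) hz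
    obtain ⟨w, hw1, hw2⟩ := p3 h3 hx2.ne
    have hwd : w = d := by
      rcases hN w hw2.symm with h | h
      · exact h
      · rw [h] at hw1
        exact absurd hw1 (G.loopless.irrefl _)
    rw [hwd] at hw2
    refine ⟨x, hxI, hx1, hx2, hw2.symm, hN, ?_⟩
    intro z hz
    by_cases h1 : z = u
    · exact Or.inl h1
    · by_cases h2 : z = v
      · exact Or.inr (Or.inl h2)
      · by_cases h4 : z = d
        · exact Or.inr (Or.inr (Or.inl h4))
        · right; right; right
          by_cases h5 : z = r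
          · rw [h5]; exact hr
          · exact QD r x z hrI hxI ⟨h1, h2⟩ hw2 hx2.symm hz hx1.ne (Ne.symm h5) (Ne.symm h4)
  obtain ⟨g, hg0, hg1, hg2, hg3, hg4⟩ := ham hH huv
  set n := Fintype.card V with hn'
  have hIn : ∀ i, 1 ≤ i → i ≤ n - 2 → In u v (g i) := by
    intro i h2 h3
    refine ⟨fun h => ?_, fun h => ?_⟩
    · have := hg3 i 0 (by omega) (by omega) (h.trans hg0.symm); omega
    · have := hg3 i (n - 1) (by omega) (by omega) (h.trans hg1.symm); omega
  have ne : ∀ i j, i ≤ n - 1 → j ≤ n - 1 → i ≠ j → g i ≠ g j :=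
    fun i j hi hj hij h => hij (hg3 i j hi hj h)
  by_cases hR : ∃ r, Rr G u v r
  · obtain ⟨r, hr⟩ := hR
    obtain ⟨m, hm, hgm⟩ := hg4 r
    have hm0 : m ≠ 0 := by
      rintro rfl
      exact hr.1 (hgm.symm.trans hg0)
    have hm1 : m ≠ n - 1 := by
      intro h
      rw [h] at hgm
      exact hr.2.1 (hgm.symm.trans hg1)
    have hrm : Rr G u v (g m) := by rw [hgm]; exact hr
    obtain ⟨x, -, -, -, -, hx, -⟩ := hS _ hrm
    have e1 := hg2 (m - 1) (by omega)
    rw [show m - 1 + 1 = m by omega] at e1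
    have e2 := hg2 m (by omega)
    have hor : g (m - 1) = d ∨ g (m + 1) = d := by
      rcases hx _ e1.symm with h | h
      · exact Or.inl h
      · rcases hx _ e2 with h' | h'
        · exact Or.inr h'
        · have := hg3 (m - 1) (m + 1) (by omega) (by omega) (h.trans h'.symm)
          omega
    rcases hor with h | h
    · exact caseI hQ ⟨hd1, hd2⟩ n hn g hg0 hg1 hg2 hg3 hS m (by omega) (by omega) hrm h
    · -- reverse
      have hS' : Struct G v u d := by
        intro r hr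
        obtain ⟨x, k1, k2, k3, k4, k5, k6⟩ := hS r ⟨hr.2.1, hr.1, hr.2.2.2, hr.2.2.1⟩
        refine ⟨x, ⟨k1.2, k1.1⟩, k2, k3, k4, k5, fun z hz => ?_⟩
        rcases k6 z hz with h | h | h | h
        · exact Or.inr (Or.inl h)
        · exact Or.inl h
        · exact Or.inr (Or.inr (Or.inl h))
        · exact Or.inr (Or.inr (Or.inr ⟨h.2.1, h.1, h.2.2.2, h.2.2.1⟩))
      refine caseI hQ.swap ⟨hd2.symm, hd1.symm⟩ n hn (fun i => g (n - 1 - i)) ?_ ?_ ?_ ?_ hS'
        (n - 1 - m) (by omega) (by omega) ?_ ?_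
      · change g (n - 1 - 0) = v
        rw [Nat.sub_zero]; exact hg1
      · change g (n - 1 - (n - 1)) = u
        rw [Nat.sub_self]; exact hg0
      · intro i hi
        have := hg2 (n - 1 - (i + 1)) (by omega)
        rw [show n - 1 - (i + 1) + 1 = n - 1 - i by omega] at this
        exact this.symm
      · intro i j hi hj hij
        have := hg3 (n - 1 - i) (n - 1 - j) (by omega) (by omega) hij
        omega
      · change Rr G v u (g (n - 1 - (n - 1 - m)))
        rw [show n - 1 - (n - 1 - m) = m by omega]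
        exact ⟨hrm.2.1, hrm.1, hrm.2.2.2, hrm.2.2.1⟩
      · change g (n - 1 - (n - 1 - m - 1)) = d
        rw [show n - 1 - (n - 1 - m - 1) = m + 1 by omega]
        exact h
  · push Not at hR
    obtain ⟨k, hk, hgk⟩ := hg4 d
    have hk0 : k ≠ 0 := by
      rintro rfl
      exact hdI.1 (hgk.symm.trans hg0)
    have hk1 : k ≠ n - 1 := by
      intro h
      rw [h] at hgk
      exact hdI.2 (hgk.symm.trans hg1)
    have hup : ¬ k + 3 ≤ n - 2 := by
      intro h
      have e1 := hg2 k (by omega)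
      have e2 := hg2 (k + 1) (by omega)
      have e3 := hg2 (k + 2) (by omega)
      rw [hgk] at e1
      refine hR _ (QD (g (k + 1)) (g (k + 2)) (g (k + 3)) (hIn _ (by omega) (by omega))
        (hIn _ (by omega) (by omega)) (hIn _ (by omega) (by omega)) e1 e2 e3 ?_ ?_ ?_)
      · rw [← hgk]; exact ne _ _ (by omega) (by omega) (by omega)
      · exact ne _ _ (by omega) (by omega) (by omega)
      · rw [← hgk]; exact ne _ _ (by omega) (by omega) (by omega)
    have hdn : ¬ 4 ≤ k := by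
      intro h
      have e1 := hg2 (k - 1) (by omega)
      have e2 := hg2 (k - 2) (by omega)
      have e3 := hg2 (k - 3) (by omega)
      rw [show k - 1 + 1 = k by omega, hgk] at e1
      rw [show k - 2 + 1 = k - 1 by omega] at e2
      rw [show k - 3 + 1 = k - 2 by omega] at e3
      refine hR _ (QD (g (k - 1)) (g (k - 2)) (g (k - 3)) (hIn _ (by omega) (by omega))
        (hIn _ (by omega) (by omega)) (hIn _ (by omega) (by omega)) e1.symm e2.symm e3.symm ?_ ?_ ?_)
      · rw [← hgk]; exact ne _ _ (by omega) (by omega) (by omega)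
      · exact ne _ _ (by omega) (by omega) (by omega)
      · rw [← hgk]; exact ne _ _ (by omega) (by omega) (by omega)
    have hn7 : n = 7 := by omega
    have hk3 : k = 3 := by omega
    rw [hn7] at hg1 hg2 hg3 hg4 hIn ne
    subst hk3
    have e0 := hg2 0 (by omega)
    have e1 := hg2 1 (by omega)
    have e2 := hg2 2 (by omega)
    have e3 := hg2 3 (by omega)
    have e4 := hg2 4 (by omega)
    have e5 := hg2 5 (by omega)
    rw [hg0] at e0
    have hg6 : g 6 = v := hg1
    have e5' : G.Adj (g 5) v := by rw [← hg6]; exact e5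
    have hAC : ∀ z, In u v z → G.Adj u z ∨ G.Adj v z := by
      intro z hz
      by_contra hcon
      push Not at hcon
      exact hR z ⟨hz.1, hz.2, hcon.1, hcon.2⟩
    have I1 := hIn 1 (by omega) (by omega)
    have I2 := hIn 2 (by omega) (by omega)
    have I3 := hIn 3 (by omega) (by omega)
    have I4 := hIn 4 (by omega) (by omega)
    have I5 := hIn 5 (by omega) (by omega)
    have nn : ∀ i j, i ≤ 6 → j ≤ 6 → i ≠ j → g i ≠ g j := fun i j hi hj hij =>
      ne i j (by omega) (by omega) hij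
    have v4 : ¬ G.Adj v (g 4) := fun h => hQ _ _ _ _ I1 I2 I3 I4 e1 e2 e3
      (nn 1 3 (by omega) (by omega) (by omega)) (nn 2 4 (by omega) (by omega) (by omega))
      (nn 1 4 (by omega) (by omega) (by omega)) e0 h
    have u4 : G.Adj u (g 4) := (hAC _ I4).resolve_right v4
    have v1 : ¬ G.Adj v (g 1) := fun h => hQ _ _ _ _ I4 I3 I2 I1 e3.symm e2.symm e1.symm
      (nn 4 2 (by omega) (by omega) (by omega)) (nn 3 1 (by omega) (by omega) (by omega))
      (nn 4 1 (by omega) (by omega) (by omega)) u4 h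
    have u2 : ¬ G.Adj u (g 2) := fun h => hQ _ _ _ _ I2 I3 I4 I5 e2 e3 e4
      (nn 2 4 (by omega) (by omega) (by omega)) (nn 3 5 (by omega) (by omega) (by omega))
      (nn 2 5 (by omega) (by omega) (by omega)) h e5'.symm
    have v2 : G.Adj v (g 2) := (hAC _ I2).resolve_left u2
    obtain ⟨w, hw1, hw2⟩ := p3 h3 (nn 1 2 (by omega) (by omega) (by omega))
    obtain ⟨i, hi, hgi⟩ := hg4 w
    have hi' : i = 0 ∨ i = 1 ∨ i = 2 ∨ i = 3 ∨ i = 4 ∨ i = 5 ∨ i = 6 := by omega
    rcases hi' with rfl | rfl | rfl | rfl | rfl | rfl | rfl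
    · rw [← hgi, hg0] at hw2
      exact u2 hw2
    · rw [← hgi] at hw1
      exact G.loopless.irrefl _ hw1
    · rw [← hgi] at hw2
      exact G.loopless.irrefl _ hw2
    · rw [← hgi] at hw1
      exact hQ _ _ _ _ I4 I3 I1 I2 e3.symm hw1.symm e1
        (nn 4 1 (by omega) (by omega) (by omega)) (nn 3 2 (by omega) (by omega) (by omega))
        (nn 4 2 (by omega) (by omega) (by omega)) u4 v2
    · rw [← hgi] at hw1
      have := QD (g 2) (g 1) (g 4) I2 I1 I4 (by rw [← hgk]; exact e2.symm) e1.symm hw1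
        (by rw [← hgk]; exact nn 3 1 (by omega) (by omega) (by omega))
        (nn 2 4 (by omega) (by omega) (by omega))
        (by rw [← hgk]; exact nn 3 4 (by omega) (by omega) (by omega))
      exact this.2.2.1 u4
    · rw [← hgi] at hw1
      have := QD (g 2) (g 1) (g 5) I2 I1 I5 (by rw [← hgk]; exact e2.symm) e1.symm hw1
        (by rw [← hgk]; exact nn 3 1 (by omega) (by omega) (by omega))
        (nn 2 5 (by omega) (by omega) (by omega))
        (by rw [← hgk]; exact nn 3 5 (by omega) (by omega) (by omega))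
      exact this.2.2.2 e5'.symm
    · rw [← hgi, hg6] at hw1
      exact v1 hw1.symm

end

end Pool.Agent.X54.PO
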