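import Pool.Agent.X54.PO.Main
import Pool.Agent.X54.PO.Six

/-! The index six. -/

set_option autoImplicit false
open SimpleGraph

namespace Pool.Agent.X54.PO

/-- a triangle with three further triangles on its sides -/
def E6 (a b : ℕ) : Prop :=
  (a = 0 ∧ b = 1) ∨ (a = 0 ∧ b = 2) ∨ (a = 0 ∧ b = 4) ∨ (a = 0 ∧ b = 5) ∨ (a = 1 ∧ b = 2) ∨
    (a = 1 ∧ b = 3) ∨ (a = 1 ∧ b = 5) ∨ (a = 2 ∧ b = 3) ∨ (a = 2 ∧ b = 4)

lemma ex6 {i a b : ℕ} (l : List ℕ) (h1 : l.Nodup) (h2 : l.IsChain (Sy E6)) (h3 : ∀ x ∈ l, x < 6)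
    (h4 : l.head? = some a) (h5 : l.getLast? = some b) (h6 : l.length = i) : LP E6 6 i a b :=
  ⟨l, h1, h2, h3, h4, h5, h6⟩

lemma three6 : HasP (gr E6 6) 3 := by
  apply hasP_of
  intro a b hab hb
  interval_cases b <;> interval_cases a
  · apply ex6 [0, 2, 1] <;> (first | rfl | (simp [Sy, E6, List.isChain_cons_cons]))
  · apply ex6 [0, 1, 2] <;> (first | rfl | (simp [Sy, E6, List.isChain_cons_cons]))
  · apply ex6 [1, 0, 2] <;> (first | rfl | (simp [Sy, E6, List.isChain_cons_cons]))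
  · apply ex6 [0, 1, 3] <;> (first | rfl | (simp [Sy, E6, List.isChain_cons_cons]))
  · apply ex6 [1, 2, 3] <;> (first | rfl | (simp [Sy, E6, List.isChain_cons_cons]))
  · apply ex6 [2, 1, 3] <;> (first | rfl | (simp [Sy, E6, List.isChain_cons_cons]))
  · apply ex6 [0, 2, 4] <;> (first | rfl | (simp [Sy, E6, List.isChain_cons_cons]))
  · apply ex6 [1, 0, 4] <;> (first | rfl | (simp [Sy, E6, List.isChain_cons_cons]))
  · apply ex6 [2, 0, 4] <;> (first | rfl | (simp [Sy, E6, List.isChain_cons_cons]))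
  · apply ex6 [3, 2, 4] <;> (first | rfl | (simp [Sy, E6, List.isChain_cons_cons]))
  · apply ex6 [0, 1, 5] <;> (first | rfl | (simp [Sy, E6, List.isChain_cons_cons]))
  · apply ex6 [1, 0, 5] <;> (first | rfl | (simp [Sy, E6, List.isChain_cons_cons]))
  · apply ex6 [2, 0, 5] <;> (first | rfl | (simp [Sy, E6, List.isChain_cons_cons]))
  · apply ex6 [3, 1, 5] <;> (first | rfl | (simp [Sy, E6, List.isChain_cons_cons]))
  · apply ex6 [4, 0, 5] <;> (first | rfl | (simp [Sy, E6, List.isChain_cons_cons]))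

lemma four6 : HasP (gr E6 6) 4 := by
  apply hasP_of
  intro a b hab hb
  interval_cases b <;> interval_cases a
  · apply ex6 [0, 2, 3, 1] <;> (first | rfl | (simp [Sy, E6, List.isChain_cons_cons]))
  · apply ex6 [0, 1, 3, 2] <;> (first | rfl | (simp [Sy, E6, List.isChain_cons_cons]))
  · apply ex6 [1, 0, 4, 2] <;> (first | rfl | (simp [Sy, E6, List.isChain_cons_cons]))
  · apply ex6 [0, 1, 2, 3] <;> (first | rfl | (simp [Sy, E6, List.isChain_cons_cons]))
  · apply ex6 [1, 0, 2, 3] <;> (first | rfl | (simp [Sy, E6, List.isChain_cons_cons]))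
  · apply ex6 [2, 0, 1, 3] <;> (first | rfl | (simp [Sy, E6, List.isChain_cons_cons]))
  · apply ex6 [0, 1, 2, 4] <;> (first | rfl | (simp [Sy, E6, List.isChain_cons_cons]))
  · apply ex6 [1, 0, 2, 4] <;> (first | rfl | (simp [Sy, E6, List.isChain_cons_cons]))
  · apply ex6 [2, 1, 0, 4] <;> (first | rfl | (simp [Sy, E6, List.isChain_cons_cons]))
  · apply ex6 [3, 1, 0, 4] <;> (first | rfl | (simp [Sy, E6, List.isChain_cons_cons]))
  · apply ex6 [0, 2, 1, 5] <;> (first | rfl | (simp [Sy, E6, List.isChain_cons_cons]))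
  · apply ex6 [1, 2, 0, 5] <;> (first | rfl | (simp [Sy, E6, List.isChain_cons_cons]))
  · apply ex6 [2, 0, 1, 5] <;> (first | rfl | (simp [Sy, E6, List.isChain_cons_cons]))
  · apply ex6 [3, 1, 0, 5] <;> (first | rfl | (simp [Sy, E6, List.isChain_cons_cons]))
  · apply ex6 [4, 0, 1, 5] <;> (first | rfl | (simp [Sy, E6, List.isChain_cons_cons]))

lemma five6 : HasP (gr E6 6) 5 := by
  apply hasP_of
  intro a b hab hb
  interval_cases b <;> interval_cases a
  · apply ex6 [0, 4, 2, 3, 1] <;> (first | rfl | (simp [Sy, E6, List.isChain_cons_cons]))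
  · apply ex6 [0, 5, 1, 3, 2] <;> (first | rfl | (simp [Sy, E6, List.isChain_cons_cons]))
  · apply ex6 [1, 5, 0, 4, 2] <;> (first | rfl | (simp [Sy, E6, List.isChain_cons_cons]))
  · apply ex6 [0, 4, 2, 1, 3] <;> (first | rfl | (simp [Sy, E6, List.isChain_cons_cons]))
  · apply ex6 [1, 0, 4, 2, 3] <;> (first | rfl | (simp [Sy, E6, List.isChain_cons_cons]))
  · apply ex6 [2, 0, 5, 1, 3] <;> (first | rfl | (simp [Sy, E6, List.isChain_cons_cons]))
  · apply ex6 [0, 1, 3, 2, 4] <;> (first | rfl | (simp [Sy, E6, List.isChain_cons_cons]))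
  · apply ex6 [1, 3, 2, 0, 4] <;> (first | rfl | (simp [Sy, E6, List.isChain_cons_cons]))
  · apply ex6 [2, 1, 5, 0, 4] <;> (first | rfl | (simp [Sy, E6, List.isChain_cons_cons]))
  · apply ex6 [3, 1, 0, 2, 4] <;> (first | rfl | (simp [Sy, E6, List.isChain_cons_cons]))
  · apply ex6 [0, 2, 3, 1, 5] <;> (first | rfl | (simp [Sy, E6, List.isChain_cons_cons]))
  · apply ex6 [1, 2, 4, 0, 5] <;> (first | rfl | (simp [Sy, E6, List.isChain_cons_cons]))
  · apply ex6 [2, 3, 1, 0, 5] <;> (first | rfl | (simp [Sy, E6, List.isChain_cons_cons]))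
  · apply ex6 [3, 1, 2, 0, 5] <;> (first | rfl | (simp [Sy, E6, List.isChain_cons_cons]))
  · apply ex6 [4, 0, 2, 1, 5] <;> (first | rfl | (simp [Sy, E6, List.isChain_cons_cons]))

lemma not6 : ¬ HasP (gr E6 6) 6 := by
  intro h
  have h' : HasP (gr E6 6) (Fintype.card (Fin 6)) := by rw [Fintype.card_fin]; exact h
  obtain ⟨g, hg0, hg1, hg2, hg3, hg4⟩ := ham h' (x := ⟨0, by omega⟩) (y := ⟨1, by omega⟩) (by simp)
  rw [Fintype.card_fin] at hg1 hg2 hg3 hg4
  obtain ⟨i, hi, hgi⟩ := hg4 ⟨5, by omega⟩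
  have i0 : i ≠ 0 := by
    rintro rfl
    have := hg0.symm.trans hgi
    simp [Fin.ext_iff] at this
  have i5 : i ≠ 6 - 1 := by
    rintro rfl
    have := hg1.symm.trans hgi
    simp [Fin.ext_iff] at this
  have key : ∀ j, j ≤ 6 - 1 → Sy E6 (g j).val 5 → j = 0 ∨ j = 6 - 1 := by
    intro j hj hS
    have := (g j).isLt
    have h01 : (g j).val = 0 ∨ (g j).val = 1 := by
      simp only [Sy, E6] at hS
      omega
    rcases h01 with h | h
    · left
      exact hg3 j 0 hj (by omega) (by rw [hg0]; exact Fin.ext h)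
    · right
      exact hg3 j (6 - 1) hj (by omega) (by rw [hg1]; exact Fin.ext h)
  have e1 := hg2 (i - 1) (by omega)
  have e2 := hg2 i (by omega)
  rw [show i - 1 + 1 = i by omega, hgi] at e1
  rw [hgi] at e2
  have k1 := key (i - 1) (by omega) e1
  have k2 := key (i + 1) (by omega) e2.symm
  omega

lemma six_mem6 : 6 ∈ J 6 := by
  refine mem_J.2 ⟨by omega, by omega, gr E6 6, fun i h3 hi h5 => ?_, not6⟩
  obtain rfl | rfl | rfl : i = 3 ∨ i = 4 ∨ i = 5 := by omega
  · exact three6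
  · exact four6
  · exact five6

theorem main6 (n : ℕ) : 6 ∈ J n ↔ n = 6 := by
  constructor
  · intro h
    obtain ⟨-, hn, G, h1, h2⟩ := mem_J.1 h
    by_contra h6
    exact h2 (six (G := G) (by rw [Fintype.card_fin]; omega) (h1 3 (by omega) (by omega) (by omega))
      (by rw [Fintype.card_fin]; exact h1 n (by omega) le_rfl (by omega)))
  · rintro rfl
    exact six_mem6

end Pool.Agent.X54.PO
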