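import Pool.Agent.X54.PO.Basic

/-! A checker for refutation trees: every pair of vertices has a common neighbour, there is a path
with `k + 1` vertices from `u` to `v`, but no path with `k` vertices. -/

set_option autoImplicit false
open SimpleGraph

namespace Pool.Agent.X54.PO

/-- refutation trees -/
inductive Tr where
  | leaf : ℕ → Tr
  | node : ℕ → ℕ → Tr → Tr
  | opt : Tr → Tr → Tr
  | skip : Tr

/-- the pair `(i, j)` or `(j, i)` is in the list -/
def memB (i j : ℕ) : List (ℕ × ℕ) → Bool
  | [] => false
  | e :: l => ((Nat.beq e.1 i && Nat.beq e.2 j) || (Nat.beq e.1 j && Nat.beq e.2 i)) || memB i j l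

/-- known edge -/
def adjB (k i j : ℕ) (E : List (ℕ × ℕ)) : Bool :=
  (Nat.beq (i + 1) j && Nat.ble j k) || ((Nat.beq (j + 1) i && Nat.ble i k) || memB i j E)

/-- `i` is not in the list -/
def notB (i : ℕ) : List ℕ → Bool
  | [] => true
  | j :: l => !Nat.beq i j && notB i l

/-- the rest of a path: from `i` through the list to `k`; `c` counts vertices -/
def pathB (k N : ℕ) (E : List (ℕ × ℕ)) (i : ℕ) : List ℕ → ℕ → Bool
  | [], c => Nat.beq i k && (Nat.beq c 1 && Nat.ble (i + 1) N)
  | j :: l, c => (adjB k i j E && notB i (j :: l)) &&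
      (Nat.ble (i + 1) N && (match c with | 0 => false | c' + 1 => pathB k N E j l c'))

/-- the inner vertices of a path, coded in base `32` -/
def dec : ℕ → ℕ → List ℕ
  | 0, _ => []
  | f + 1, x => (x % 32) :: dec f (x / 32)

/-- the checker -/
def chk (k : ℕ) : Tr → Option (ℕ × ℕ × ℕ) → ℕ → List (ℕ × ℕ) → Bool
  | .leaf x, none, N, E => pathB k N E 0 (dec (k - 1) x) k
  | .node a b t, none, N, E => (Nat.ble (a + 1) N && Nat.ble (b + 1) N) &&
      (!Nat.beq a b && chk k t (some (a, b, 0)) N E)
  | .opt t₁ t₂, some (a, b, w), N, E =>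
      if Nat.ble (w + 1) N = true then
        ((Nat.beq w a || Nat.beq w b) || chk k t₁ none N ((w, a) :: (w, b) :: E)) &&
          chk k t₂ (some (a, b, w + 1)) N E
      else Nat.beq w N && chk k t₁ none (N + 1) ((N, a) :: (N, b) :: E)
  | _, _, _, _ => false

variable {V : Type} {G : SimpleGraph V}

lemma nbeq {i j : ℕ} : Nat.beq i j = true ↔ i = j :=
  ⟨Nat.eq_of_beq_eq_true, by rintro rfl; exact Nat.beq_refl i⟩

lemma memB_sound {i j : ℕ} {E : List (ℕ × ℕ)} (h : memB i j E = true) :
    (i, j) ∈ E ∨ (j, i) ∈ E := by
  induction E with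
  | nil => simp [memB] at h
  | cons e l ih =>
    obtain ⟨x, y⟩ := e
    simp only [memB, Bool.or_eq_true, Bool.and_eq_true, nbeq] at h
    rcases h with (⟨rfl, rfl⟩ | ⟨rfl, rfl⟩) | h
    · simp
    · simp
    · rcases ih h with h | h
      · exact Or.inl (List.mem_cons_of_mem _ h)
      · exact Or.inr (List.mem_cons_of_mem _ h)

lemma notB_sound {i : ℕ} {l : List ℕ} (h : notB i l = true) : i ∉ l := by
  induction l with
  | nil => simp
  | cons j l ih =>
    simp only [notB, Bool.and_eq_true, Bool.not_eq_true'] at h
    simp only [List.mem_cons, not_or]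
    refine ⟨?_, ih h.2⟩
    rintro rfl
    simp at h

/-- the situation described by the known data -/
structure Sit (G : SimpleGraph V) (k N : ℕ) (E : List (ℕ × ℕ)) (g : ℕ → V) : Prop where
  hk : k < N
  inj : ∀ i j, i < N → j < N → g i = g j → i = j
  path : ∀ i, i < k → G.Adj (g i) (g (i + 1))
  edge : ∀ e ∈ E, e.1 < N ∧ e.2 < N ∧ G.Adj (g e.1) (g e.2)

lemma adjB_sound {k N i j : ℕ} {E : List (ℕ × ℕ)} {g : ℕ → V} (hs : Sit G k N E g)
    (h : adjB k i j E = true) : G.Adj (g i) (g j) := by
  simp only [adjB, Bool.or_eq_true, Bool.and_eq_true, nbeq, Nat.ble_eq] at h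
  rcases h with ⟨rfl, h2⟩ | ⟨rfl, h2⟩ | h
  · exact hs.path i (by omega)
  · exact (hs.path j (by omega)).symm
  · rcases memB_sound h with h | h
    · exact (hs.edge _ h).2.2
    · exact (hs.edge _ h).2.2.symm

lemma pathB_sound {k N : ℕ} {E : List (ℕ × ℕ)} {g : ℕ → V} (hs : Sit G k N E g) (l : List ℕ) :
    ∀ (i c : ℕ), pathB k N E i l c = true →
      ∃ p : G.Walk (g i) (g k), p.IsPath ∧ p.support.length = c ∧
        p.support = (i :: l).map g ∧ (i :: l).Nodup ∧ ∀ x ∈ i :: l, x < N := by
  induction l with
  | nil =>
    intro i c h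
    simp only [pathB, Bool.and_eq_true, nbeq, Nat.ble_eq] at h
    obtain ⟨rfl, rfl, h3⟩ := h
    exact ⟨Walk.nil, by simp, by simp, by simp, by simp, by simp; omega⟩
  | cons j l ih =>
    intro i c h
    cases c with
    | zero => simp [pathB] at h
    | succ c =>
      rw [pathB] at h
      simp only [Bool.and_eq_true, Nat.ble_eq] at h
      obtain ⟨⟨h1, h2⟩, h3, h4⟩ := h
      obtain ⟨p, p1, p2, p3, p4, p5⟩ := ih j c h4
      have h5 := notB_sound h2
      have h6 : g i ∉ p.support := by
        rw [p3]
        intro h
        obtain ⟨x, hx1, hx2⟩ := List.mem_map.1 h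
        have := hs.inj x i (p5 x hx1) (by omega) hx2
        rw [this] at hx1
        exact h5 hx1
      refine ⟨Walk.cons (adjB_sound hs h1) p, ?_, ?_, ?_, ?_, ?_⟩
      · exact (Walk.cons_isPath_iff _ _).2 ⟨p1, h6⟩
      · simp [p2]
      · simp [p3]
      · exact List.nodup_cons.2 ⟨h5, p4⟩
      · intro x hx
        rcases List.mem_cons.1 hx with rfl | hx
        · omega
        · exact p5 x hx

lemma chk_sound (h3 : ∀ x y : V, x ≠ y → ∃ w, G.Adj w x ∧ G.Adj w y) {k : ℕ} {u v : V}
    (hno : ¬ ∃ p : G.Walk u v, p.IsPath ∧ p.support.length = k) (t : Tr) :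
    ∀ (md : Option (ℕ × ℕ × ℕ)) (N : ℕ) (E : List (ℕ × ℕ)) (g : ℕ → V), Sit G k N E g →
      g 0 = u → g k = v → chk k t md N E = true →
      (md = none → False) ∧ ∀ a b w, md = some (a, b, w) → a < N → b < N → ∀ z,
        G.Adj z (g a) → G.Adj z (g b) → (∀ i, i < w → i < N → z ≠ g i) → False := by
  induction t with
  | leaf l =>
    intro md N E g hs h0 hk hc
    cases md with
    | some x => simp [chk] at hc
    | none =>
      refine ⟨fun _ => ?_, fun a b w h => by cases h⟩
      rw [chk] at hc
      obtain ⟨q, q1, q2, -⟩ := pathB_sound hs _ 0 k hc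
      subst h0 hk
      exact hno ⟨q, q1, q2⟩
  | skip =>
    intro md N E g hs h0 hk hc
    simp [chk] at hc
  | node a b t ih =>
    intro md N E g hs h0 hk hc
    cases md with
    | some x => simp [chk] at hc
    | none =>
      refine ⟨fun _ => ?_, fun a b w h => by cases h⟩
      rw [chk] at hc
      simp only [Bool.and_eq_true, Nat.ble_eq, Bool.not_eq_true'] at hc
      obtain ⟨⟨c1, c2⟩, c3, c4⟩ := hc
      have hab : a ≠ b := by
        rintro rfl
        simp at c3
      obtain ⟨z, z1, z2⟩ := h3 (g a) (g b) (fun h => hab (hs.inj a b c1 c2 h))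
      exact (ih _ N E g hs h0 hk c4).2 a b 0 rfl c1 c2 z z1 z2 (fun i hi => by omega)
  | opt t₁ t₂ ih₁ ih₂ =>
    intro md N E g hs h0 hk hc
    cases md with
    | none => simp [chk] at hc
    | some x =>
      obtain ⟨a, b, w⟩ := x
      refine ⟨fun h => (by cases h), ?_⟩
      rintro a' b' w' h ha hb z z1 z2 hz
      cases h
      rw [chk] at hc
      by_cases hw : w + 1 ≤ N
      · rw [if_pos (by simpa using hw)] at hc
        simp only [Bool.and_eq_true, Bool.or_eq_true, nbeq] at hc
        have c1 := hc.1
        have c2 := hc.2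
        by_cases hzw : z = g w
        · rcases c1 with (rfl | rfl) | c1
          · rw [hzw] at z1
            exact G.loopless.irrefl _ z1
          · rw [hzw] at z2
            exact G.loopless.irrefl _ z2
          · refine (ih₁ none N _ g ⟨hs.hk, hs.inj, hs.path, ?_⟩ h0 hk c1).1 rfl
            intro e he
            rcases List.mem_cons.1 he with rfl | he
            · exact ⟨by change w < N; omega, ha, by rw [← hzw]; exact z1⟩
            · rcases List.mem_cons.1 he with rfl | he
              · exact ⟨by change w < N; omega, hb, by rw [← hzw]; exact z2⟩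
              · exact hs.edge e he
        · refine (ih₂ _ N E g hs h0 hk c2).2 a b (w + 1) rfl ha hb z z1 z2 ?_
          intro i hi hiN
          by_cases h : i = w
          · rw [h]; exact hzw
          · exact hz i (by omega) hiN
      · rw [if_neg (by simpa using hw)] at hc
        simp only [Bool.and_eq_true, nbeq] at hc
        obtain ⟨rfl, c1⟩ := hc
        have hzi : ∀ i, i < w → z ≠ g i := fun i hi => hz i hi hi
        refine (ih₁ none (w + 1) _ (fun i => if i = w then z else g i) ⟨?_, ?_, ?_, ?_⟩ ?_ ?_ c1).1
          rfl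
        · have := hs.hk; omega
        · intro i j hi hj hij
          try dsimp only at hij
          split_ifs at hij with h1 h2 h2
          · omega
          · exact absurd hij (hzi j (by omega))
          · exact absurd hij.symm (hzi i (by omega))
          · exact hs.inj i j (by omega) (by omega) hij
        · intro i hi
          have := hs.hk
          try dsimp only
          rw [if_neg (by omega), if_neg (by omega)]
          exact hs.path i hi
        · intro e he
          rcases List.mem_cons.1 he with rfl | he
          · refine ⟨by change w < w + 1; omega, by change a < w + 1; omega, ?_⟩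
            try dsimp only
            rw [if_pos rfl, if_neg (by omega)]
            exact z1
          · rcases List.mem_cons.1 he with rfl | he
            · refine ⟨by change w < w + 1; omega, by change b < w + 1; omega, ?_⟩
              try dsimp only
              rw [if_pos rfl, if_neg (by omega)]
              exact z2
            · obtain ⟨h1, h2, h3⟩ := hs.edge e he
              refine ⟨by omega, by omega, ?_⟩
              try dsimp only
              rw [if_neg (by omega), if_neg (by omega)]
              exact h3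
        · have := hs.hk
          try dsimp only
          rw [if_neg (by omega)]
          exact h0
        · have := hs.hk
          try dsimp only
          rw [if_neg (by omega)]
          exact hk

/-- a valid refutation tree shows that `P_3` and `P_{k+1}` imply `P_k` -/
theorem step {k : ℕ} {t : Tr} (hc : chk k t none (k + 1) [] = true) (h3 : HasP G 3)
    (hk : HasP G (k + 1)) : HasP G k := by
  intro u v huv
  by_contra hno
  obtain ⟨p, hp1, hp2⟩ := hk u v huv
  have hlen : p.length = k := by
    rw [Walk.length_support] at hp2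
    omega
  have h3' : ∀ x y : V, x ≠ y → ∃ w, G.Adj w x ∧ G.Adj w y := by
    intro x y hxy
    obtain ⟨w, h1, h2⟩ := p3 h3 hxy
    exact ⟨w, h1.symm, h2⟩
  refine (chk_sound h3' hno t none (k + 1) [] p.getVert ⟨by omega, ?_, ?_, ?_⟩
    (Walk.getVert_zero p) (by rw [← hlen, Walk.getVert_length]) hc).1 rfl
  · intro i j hi hj hij
    exact hp1.getVert_injOn (by simp; omega) (by simp; omega) hij
  · intro i hi
    exact p.adj_getVert_succ (by omega)
  · intro e he
    simp at he

end Pool.Agent.X54.PO
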